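import Mathlib

/-!
# Continuous dependence on initial conditions and stable orbits of autonomous equations
-/

open Set Filter Topology Metric
open scoped NNReal Manifold ContDiff

namespace Pool.Agent.MP_5027f4_mp

set_option linter.unusedSectionVars false

section Flow

variable {E : Type*} [NormedAddCommGroup E] [NormedSpace ℝ E] [FiniteDimensional ℝ E]

/-- A `C¹` field on an open set coincides, near a compact subset, with a bounded Lipschitz field. -/
theorem exists_lipschitz_cutoff {F : E → E} {Ω K : Set E} (hΩ : IsOpen Ω)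
    (hF : ContDiffOn ℝ 1 F Ω) (hK : IsCompact K) (hKΩ : K ⊆ Ω) :
    ∃ (G : E → E) (L B : ℝ≥0) (V : Set E), IsOpen V ∧ K ⊆ V ∧ V ⊆ Ω ∧ LipschitzWith L G ∧
      (∀ x, ‖G x‖ ≤ B) ∧ ∀ x ∈ V, G x = F x := by
  obtain ⟨δ, hδ, hsub⟩ := hK.exists_cthickening_subset_open hΩ hKΩ
  have hcomp : IsCompact (cthickening δ K) := hK.cthickening
  obtain ⟨f, hf1, hf0, -⟩ := exists_contMDiffMap_one_nhds_of_subset_interior (n := 1) 𝓘(ℝ, E)
    hK.isClosed (show K ⊆ interior (cthickening δ K) from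
      (self_subset_thickening hδ K).trans
        (interior_maximal (thickening_subset_cthickening δ K) isOpen_thickening))
  have hfs : ContDiff ℝ 1 f := f.contMDiff.contDiff
  have hts : tsupport f ⊆ cthickening δ K := by
    apply closure_minimal _ hcomp.isClosed
    intro x hx
    by_contra h
    exact hx (hf0 x h)
  have hfc : HasCompactSupport f := HasCompactSupport.of_support_subset_isCompact hcomp
    (subset_closure.trans hts)
  have hG : ContDiff ℝ 1 (fun x => f x • F x) := by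
    rw [contDiff_iff_contDiffAt]
    intro x
    by_cases hx : x ∈ Ω
    · exact hfs.contDiffAt.smul (hF.contDiffAt (hΩ.mem_nhds hx))
    · have hx' : x ∉ tsupport f := fun h => hx (hsub (hts h))
      have : (fun y => f y • F y) =ᶠ[𝓝 x] fun _ => 0 := by
        filter_upwards [notMem_tsupport_iff_eventuallyEq.mp hx'] with y hy
        rw [hy]
        simp
      exact contDiffAt_const.congr_of_eventuallyEq this
  have hGc : HasCompactSupport (fun x => f x • F x) := hfc.smul_right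
  obtain ⟨L, hL⟩ := hG.lipschitzWith_of_hasCompactSupport hGc (by norm_num)
  obtain ⟨B, hB⟩ := hGc.exists_bound_of_continuous hG.continuous
  rw [Filter.Eventually, mem_nhdsSet_iff_exists] at hf1
  obtain ⟨V, hVo, hKV, hV⟩ := hf1
  refine ⟨fun x => f x • F x, L, ⟨max B 0, le_max_right _ _⟩, V ∩ Ω, hVo.inter hΩ,
    subset_inter hKV hKΩ, inter_subset_right, hL, fun x => (hB x).trans (le_max_left _ _), ?_⟩
  intro x hx
  have : f x = 1 := hV hx.1
  simp [this]

/-- Global existence for bounded Lipschitz fields. -/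
theorem exists_sol_of_lipschitz {G : E → E} {L B : ℝ≥0} (hL : LipschitzWith L G)
    (hB : ∀ x, ‖G x‖ ≤ B) (p : E) {τ : ℝ} (hτ : 0 ≤ τ) :
    ∃ y : ℝ → E, y 0 = p ∧ ∀ t ∈ Icc 0 τ, HasDerivWithinAt y (G (y t)) (Icc 0 τ) t := by
  have h : IsPicardLindelof (fun _ => G) (⟨0, le_rfl, hτ⟩ : Icc (0 : ℝ) τ) p
      (B * ⟨τ, hτ⟩) 0 B L := by
    refine ⟨fun t _ => hL.lipschitzOnWith, fun x _ => continuousOn_const,
      fun t _ x _ => hB x, ?_⟩
    simp only [sub_zero, sub_self, NNReal.coe_mul, NNReal.coe_zero]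
    rw [max_eq_left hτ]
    exact le_rfl
  exact h.exists_eq_forall_mem_Icc_hasDerivWithinAt₀

/-- `x` solves `x' = F x` in `Ω` on the set of times `s`. -/
def Solves (F : E → E) (Ω : Set E) (s : Set ℝ) (x : ℝ → E) : Prop :=
  ∀ t ∈ s, x t ∈ Ω ∧ HasDerivWithinAt x (F (x t)) s t

theorem Solves.mono {F : E → E} {Ω : Set E} {s s' : Set ℝ} {x : ℝ → E} (h : Solves F Ω s x)
    (hs : s' ⊆ s) : Solves F Ω s' x := fun t ht => ⟨(h t (hs ht)).1, (h t (hs ht)).2.mono hs⟩

theorem Solves.continuousOn {F : E → E} {Ω : Set E} {s : Set ℝ} {x : ℝ → E}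
    (h : Solves F Ω s x) : ContinuousOn x s := fun t ht => (h t ht).2.continuousWithinAt

theorem hasDerivWithinAt_Ici_of_Icc {x : ℝ → E} {v : E} {a b t : ℝ} (ht : t ∈ Ico a b)
    (h : HasDerivWithinAt x v (Icc a b) t) : HasDerivWithinAt x v (Ici t) t := by
  have h1 : HasDerivWithinAt x v (Icc t b) t := h.mono (Icc_subset_Icc_left ht.1)
  exact h1.mono_of_mem_nhdsWithin (Icc_mem_nhdsGE ht.2)

/-- Continuous dependence on the initial condition. -/
theorem exists_near_forward {F : E → E} {Ω : Set E} (hΩ : IsOpen Ω) (hF : ContDiffOn ℝ 1 F Ω)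
    {x : ℝ → E} {τ : ℝ} (hτ : 0 ≤ τ) (hx : Solves F Ω (Icc 0 τ) x) {ε : ℝ} (hε : 0 < ε) :
    ∃ δ > 0, ∀ p, dist p (x 0) < δ → ∃ y, y 0 = p ∧ Solves F Ω (Icc 0 τ) y ∧
      ∀ t ∈ Icc 0 τ, dist (y t) (x t) < ε := by
  have hK : IsCompact (x '' Icc 0 τ) := isCompact_Icc.image_of_continuousOn hx.continuousOn
  have hKΩ : x '' Icc 0 τ ⊆ Ω := by
    rintro _ ⟨t, ht, rfl⟩
    exact (hx t ht).1
  obtain ⟨G, L, B, V, hVo, hKV, hVΩ, hL, hB, hGF⟩ := exists_lipschitz_cutoff hΩ hF hK hKΩ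
  obtain ⟨r, hr, hrV⟩ := hK.exists_thickening_subset_open hVo hKV
  refine ⟨min r ε * Real.exp (-(L * τ)), by positivity, fun p hp => ?_⟩
  obtain ⟨y, hy0, hy⟩ := exists_sol_of_lipschitz hL hB p hτ
  have hxG : ∀ t ∈ Icc 0 τ, HasDerivWithinAt x (G (x t)) (Icc 0 τ) t := by
    intro t ht
    rw [hGF _ (hKV ⟨t, ht, rfl⟩)]
    exact (hx t ht).2
  have hd : ∀ t ∈ Icc 0 τ, dist (y t) (x t) ≤ dist p (x 0) * Real.exp (L * (t - 0)) := by
    refine dist_le_of_trajectories_ODE (v := fun _ => G) (fun _ => hL)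
      (fun t ht => (hy t ht).continuousWithinAt)
      (fun t ht => hasDerivWithinAt_Ici_of_Icc ht (hy t (Ico_subset_Icc_self ht)))
      (fun t ht => (hxG t ht).continuousWithinAt)
      (fun t ht => hasDerivWithinAt_Ici_of_Icc ht (hxG t (Ico_subset_Icc_self ht))) ?_
    rw [hy0]
  have hd2 : ∀ t ∈ Icc 0 τ, dist (y t) (x t) < min r ε := by
    intro t ht
    refine (hd t ht).trans_lt ?_
    have h1 : Real.exp (L * (t - 0)) ≤ Real.exp (L * τ) := by
      apply Real.exp_le_exp.mpr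
      apply mul_le_mul_of_nonneg_left _ L.2
      linarith [ht.2]
    calc dist p (x 0) * Real.exp (L * (t - 0)) ≤ dist p (x 0) * Real.exp (L * τ) :=
          mul_le_mul_of_nonneg_left h1 dist_nonneg
      _ < (min r ε * Real.exp (-(L * τ))) * Real.exp (L * τ) :=
          mul_lt_mul_of_pos_right hp (Real.exp_pos _)
      _ = min r ε := by
          rw [mul_assoc, ← Real.exp_add]
          simp
  have hyV : ∀ t ∈ Icc 0 τ, y t ∈ V := by
    intro t ht
    apply hrV
    rw [mem_thickening_iff]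
    exact ⟨x t, ⟨t, ht, rfl⟩, (hd2 t ht).trans_le (min_le_left _ _)⟩
  refine ⟨y, hy0, fun t ht => ⟨hVΩ (hyV t ht), ?_⟩, fun t ht =>
    (hd2 t ht).trans_le (min_le_right _ _)⟩
  rw [← hGF _ (hyV t ht)]
  exact hy t ht

theorem Solves.reverse {F : E → E} {Ω : Set E} {τ : ℝ} {x : ℝ → E}
    (hx : Solves F Ω (Icc 0 τ) x) :
    Solves (fun z => -F z) Ω (Icc 0 τ) (fun t => x (τ - t)) := by
  intro t ht
  have ht' : τ - t ∈ Icc 0 τ := ⟨by linarith [ht.2], by linarith [ht.1]⟩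
  refine ⟨(hx _ ht').1, ?_⟩
  have h1 : HasDerivWithinAt (fun t : ℝ => τ - t) (-1) (Icc 0 τ) t := by
    exact ((hasDerivAt_id t).const_sub τ).hasDerivWithinAt
  have h2 := HasDerivWithinAt.scomp t (hx _ ht').2 h1 (fun s hs =>
    (⟨by linarith [hs.2], by linarith [hs.1]⟩ : τ - s ∈ Icc 0 τ))
  simpa [Function.comp_def] using h2

/-- Continuous dependence on the final condition. -/
theorem exists_near_backward {F : E → E} {Ω : Set E} (hΩ : IsOpen Ω) (hF : ContDiffOn ℝ 1 F Ω)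
    {x : ℝ → E} {τ : ℝ} (hτ : 0 ≤ τ) (hx : Solves F Ω (Icc 0 τ) x) {ε : ℝ} (hε : 0 < ε) :
    ∃ δ > 0, ∀ p, dist p (x τ) < δ → ∃ y, y τ = p ∧ Solves F Ω (Icc 0 τ) y ∧
      ∀ t ∈ Icc 0 τ, dist (y t) (x t) < ε := by
  obtain ⟨δ, hδ, h⟩ := exists_near_forward hΩ hF.neg hτ hx.reverse hε
  refine ⟨δ, hδ, fun p hp => ?_⟩
  rw [sub_zero] at h
  obtain ⟨y, hy0, hy, hyx⟩ := h p hp
  refine ⟨fun t => y (τ - t), by simpa using hy0, ?_, fun t ht => ?_⟩
  · have := hy.reverse
    simpa using this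
  · have := hyx (τ - t) ⟨by linarith [ht.2], by linarith [ht.1]⟩
    simpa using this

/-- Uniqueness of solutions on the line for a `C¹` field on an open set. -/
theorem Solves.eq_of_eq {F : E → E} {Ω : Set E} (hΩ : IsOpen Ω) (hF : ContDiffOn ℝ 1 F Ω)
    {x y : ℝ → E} (hx : Solves F Ω univ x) (hy : Solves F Ω univ y) {t₀ : ℝ}
    (h : x t₀ = y t₀) : x = y := by
  have hxd : ∀ t, HasDerivAt x (F (x t)) t := fun t =>
    hasDerivWithinAt_univ.mp (hx t (mem_univ t)).2
  have hyd : ∀ t, HasDerivAt y (F (y t)) t := fun t =>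
    hasDerivWithinAt_univ.mp (hy t (mem_univ t)).2
  have hxc : Continuous x := continuous_iff_continuousAt.mpr fun t => (hxd t).continuousAt
  have hyc : Continuous y := continuous_iff_continuousAt.mpr fun t => (hyd t).continuousAt
  have hclosed : IsClosed {t | x t = y t} := isClosed_eq hxc hyc
  have hopen : IsOpen {t | x t = y t} := by
    rw [isOpen_iff_mem_nhds]
    intro t ht
    have hxt : x t ∈ Ω := (hx t (mem_univ t)).1
    have hc : ContDiffAt ℝ 1 F (x t) := hF.contDiffAt (hΩ.mem_nhds hxt)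
    obtain ⟨K, s, hs, hK⟩ := hc.exists_lipschitzOnWith
    have h1 : ∀ᶠ u in 𝓝 t, x u ∈ s := hxc.continuousAt.eventually_mem hs
    have h2 : ∀ᶠ u in 𝓝 t, y u ∈ s := by
      apply hyc.continuousAt.eventually_mem
      rw [← show x t = y t from ht]
      exact hs
    exact ODE_solution_unique_of_eventually (v := fun _ => F) (s := fun _ => s)
      (Filter.Eventually.of_forall fun _ => hK)
      (h1.mono fun u hu => ⟨hxd u, hu⟩) (h2.mono fun u hu => ⟨hyd u, hu⟩) ht
  have huniv : {t | x t = y t} = univ := IsClopen.eq_univ ⟨hclosed, hopen⟩ ⟨t₀, h⟩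
  funext t
  have : t ∈ {t | x t = y t} := by rw [huniv]; exact mem_univ t
  exact this

/-- Uniqueness on a compact interval, from the left endpoint. -/
theorem Solves.eqOn_of_eq {F : E → E} {Ω : Set E} (hΩ : IsOpen Ω) (hF : ContDiffOn ℝ 1 F Ω)
    {x y : ℝ → E} {τ : ℝ} (hx : Solves F Ω (Icc 0 τ) x) (hy : Solves F Ω (Icc 0 τ) y)
    (h : x 0 = y 0) : EqOn x y (Icc 0 τ) := by
  have hK : IsCompact (x '' Icc 0 τ ∪ y '' Icc 0 τ) :=
    (isCompact_Icc.image_of_continuousOn hx.continuousOn).union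
      (isCompact_Icc.image_of_continuousOn hy.continuousOn)
  have hKΩ : x '' Icc 0 τ ∪ y '' Icc 0 τ ⊆ Ω := by
    rintro _ (⟨t, ht, rfl⟩ | ⟨t, ht, rfl⟩)
    · exact (hx t ht).1
    · exact (hy t ht).1
  obtain ⟨G, L, B, V, hVo, hKV, hVΩ, hL, hB, hGF⟩ := exists_lipschitz_cutoff hΩ hF hK hKΩ
  refine ODE_solution_unique (v := fun _ => G) (fun _ => hL) hx.continuousOn
    (fun t ht => ?_) hy.continuousOn (fun t ht => ?_) h
  · rw [hGF _ (hKV (Or.inl ⟨t, Ico_subset_Icc_self ht, rfl⟩))]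
    exact hasDerivWithinAt_Ici_of_Icc ht (hx t (Ico_subset_Icc_self ht)).2
  · rw [hGF _ (hKV (Or.inr ⟨t, Ico_subset_Icc_self ht, rfl⟩))]
    exact hasDerivWithinAt_Ici_of_Icc ht (hy t (Ico_subset_Icc_self ht)).2

end Flow

end Pool.Agent.MP_5027f4_mp
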