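import Pool.Agent.Lib_MP_5027f4_mp.Flow

/-!
# Bounded stable orbits of autonomous equations are periodic
-/

open Set Filter Topology Metric
open scoped NNReal

namespace Pool.Agent.MP_5027f4_mp

set_option linter.unusedSectionVars false

section Stable

variable {E : Type*} [NormedAddCommGroup E] [NormedSpace ℝ E] [FiniteDimensional ℝ E]

theorem Solves.shift {F : E → E} {Ω : Set E} {x : ℝ → E} (hx : Solves F Ω univ x) (a : ℝ) :
    Solves F Ω univ (fun t => x (a + t)) := by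
  intro t _
  refine ⟨(hx _ (mem_univ _)).1, ?_⟩
  have h1 : HasDerivAt x (F (x (a + t))) (a + t) :=
    hasDerivWithinAt_univ.mp (hx _ (mem_univ _)).2
  exact (HasDerivAt.comp_const_add a t h1).hasDerivWithinAt

/-- The set of limit points of `x` at `+∞`. -/
def omegaSet (x : ℝ → E) : Set E := {p | ∀ ε > 0, ∀ N : ℝ, ∃ t ≥ N, dist (x t) p < ε}

theorem isClosed_omegaSet (x : ℝ → E) : IsClosed (omegaSet x) := by
  rw [← closure_subset_iff_isClosed]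
  intro p hp ε hε N
  obtain ⟨q, hq, hpq⟩ := Metric.mem_closure_iff.mp hp (ε / 2) (by positivity)
  obtain ⟨t, ht, htq⟩ := hq (ε / 2) (by positivity) N
  refine ⟨t, ht, ?_⟩
  calc dist (x t) p ≤ dist (x t) q + dist q p := dist_triangle _ _ _
    _ < ε / 2 + ε / 2 := add_lt_add htq (by rwa [dist_comm])
    _ = ε := by ring

theorem omegaSet_subset {x : ℝ → E} {K : Set E} (hK : IsCompact K) (hx : ∀ t, x t ∈ K) :
    omegaSet x ⊆ K := by
  intro p hp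
  rw [← hK.isClosed.closure_eq, Metric.mem_closure_iff]
  intro ε hε
  obtain ⟨t, -, ht⟩ := hp ε hε 0
  exact ⟨x t, hx t, by rwa [dist_comm]⟩

theorem omegaSet_nonempty {x : ℝ → E} {K : Set E} (hK : IsCompact K) (hx : ∀ t, x t ∈ K) :
    (omegaSet x).Nonempty := by
  obtain ⟨p, -, φ, hφ, hp⟩ := hK.tendsto_subseq (fun n : ℕ => hx n)
  refine ⟨p, fun ε hε N => ?_⟩
  have h1 : ∀ᶠ n in atTop, dist (x (φ n)) p < ε := by
    have := Metric.tendsto_nhds.mp hp ε hε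
    simpa using this
  have h2 : ∀ᶠ n in atTop, N ≤ (φ n : ℝ) :=
    (tendsto_natCast_atTop_atTop.comp hφ.tendsto_atTop).eventually_ge_atTop N
  obtain ⟨n, hn1, hn2⟩ := (h1.and h2).exists
  exact ⟨φ n, hn2, hn1⟩

/-- The abstract notion of (Lyapunov) stability of the set `γ` for the equation `x' = F x` on the
phase space `P`. -/
def StableSet (F : E → E) (P γ : Set E) : Prop :=
  ∀ U₁, IsOpen U₁ → γ ⊆ U₁ → ∃ U₂, IsOpen U₂ ∧ γ ⊆ U₂ ∧
    ∀ τ > 0, ∀ y, Solves F P (Icc 0 τ) y → y 0 ∈ U₂ → ∀ t ∈ Icc 0 τ, y t ∈ U₁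

variable {F : E → E} {Ω P : Set E}

theorem omegaSet_subset_range (hΩ : IsOpen Ω) (hF : ContDiffOn ℝ 1 F Ω) (hPΩ : P ⊆ Ω)
    (hPinv : ∀ τ ≥ 0, ∀ y, Solves F Ω (Icc 0 τ) y → (∃ t ∈ Icc 0 τ, y t ∈ P) →
      ∀ t ∈ Icc 0 τ, y t ∈ P)
    {x : ℝ → E} (hx : Solves F P univ x)
    (hgen : ∀ t, ∀ δ > 0, ∃ p ∈ P, dist p (x t) < δ ∧ p ∉ range x)
    (hst : StableSet F P (range x)) : omegaSet x ⊆ range x := by
  intro p hp
  by_contra hpr
  have hxΩ : ∀ s, Solves F Ω s x := fun s t _ =>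
    ⟨hPΩ (hx t (mem_univ t)).1, (hx t (mem_univ t)).2.mono (subset_univ _)⟩
  have hex : ∀ n : ℕ, ∃ t : ℝ, ∃ q ∈ P, ((n : ℝ) + 1 ≤ t) ∧ dist (x t) p < 1 / ((n : ℝ) + 1) ∧
      dist q (x t) < 1 / ((n : ℝ) + 1) ∧ q ∉ range x ∧ ∃ y, y t = q ∧ Solves F Ω (Icc 0 t) y ∧
      dist (y 0) (x 0) < 1 / ((n : ℝ) + 1) := by
    intro n
    have hn : (0 : ℝ) < 1 / ((n : ℝ) + 1) := by positivity
    obtain ⟨t, ht, htp⟩ := hp _ hn ((n : ℝ) + 1)
    have ht0 : 0 ≤ t := le_trans (by positivity) ht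
    obtain ⟨δ, hδ, h⟩ := exists_near_backward hΩ hF ht0 (hxΩ (Icc 0 t)) hn
    obtain ⟨q, hqP, hq, hqr⟩ := hgen t (min δ (1 / ((n : ℝ) + 1))) (by positivity)
    obtain ⟨y, hyt, hy, hyx⟩ := h q (hq.trans_le (min_le_left _ _))
    exact ⟨t, q, hqP, ht, htp, hq.trans_le (min_le_right _ _), hqr, y, hyt, hy,
      hyx 0 ⟨le_rfl, ht0⟩⟩
  choose t q hqP ht htp hqx hqr y hyt hy hyx using hex
  have hlim0 : Tendsto (fun n : ℕ => 1 / ((n : ℝ) + 1)) atTop (𝓝 0) :=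
    tendsto_one_div_add_atTop_nhds_zero_nat
  have hq : Tendsto q atTop (𝓝 p) := by
    rw [tendsto_iff_dist_tendsto_zero]
    refine squeeze_zero (fun _ => dist_nonneg) (fun n => ?_)
      (by simpa using hlim0.add hlim0 : Tendsto (fun n : ℕ => 1 / ((n : ℝ) + 1) +
        1 / ((n : ℝ) + 1)) atTop (𝓝 0))
    exact (dist_triangle (q n) (x (t n)) p).trans (add_le_add (hqx n).le (htp n).le)
  have hC : IsCompact (insert p (range q)) := hq.isCompact_insert_range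
  obtain ⟨U₂, hU₂, hxU₂, hU⟩ := hst (insert p (range q))ᶜ hC.isClosed.isOpen_compl (by
    intro z hz hz'
    rcases hz' with rfl | ⟨n, rfl⟩
    · exact hpr hz
    · exact hqr n hz)
  obtain ⟨r, hr, hball⟩ := Metric.isOpen_iff.mp hU₂ (x 0) (hxU₂ (mem_range_self 0))
  obtain ⟨n, hn⟩ := (hlim0.eventually (gt_mem_nhds hr)).exists
  have htn : 0 < t n := lt_of_lt_of_le (by positivity) (ht n)
  have hyP : Solves F P (Icc 0 (t n)) (y n) := fun s hs =>
    ⟨hPinv (t n) htn.le (y n) (hy n) ⟨t n, ⟨htn.le, le_rfl⟩, by rw [hyt n]; exact hqP n⟩ s hs,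
      (hy n s hs).2⟩
  have := hU (t n) htn (y n) hyP (hball (by
    rw [Metric.mem_ball]
    exact (hyx n).trans hn)) (t n) ⟨htn.le, le_rfl⟩
  rw [hyt n] at this
  exact this (Or.inr (mem_range_self n))

theorem omegaSet_forward (hΩ : IsOpen Ω) (hF : ContDiffOn ℝ 1 F Ω)
    {x : ℝ → E} (hx : Solves F Ω univ x) {s r : ℝ} (hr : 0 ≤ r) (hs : x s ∈ omegaSet x) :
    x (s + r) ∈ omegaSet x := by
  intro ε hε N
  obtain ⟨δ, hδ, h⟩ := exists_near_forward hΩ hF hr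
    ((hx.shift s).mono (subset_univ (Icc 0 r))) hε
  obtain ⟨t, ht, htx⟩ := hs δ hδ N
  obtain ⟨y, hy0, hy, hyx⟩ := h (x t) (by simpa using htx)
  have heq : EqOn y (fun u => x (t + u)) (Icc 0 r) :=
    hy.eqOn_of_eq hΩ hF ((hx.shift t).mono (subset_univ _)) (by simp [hy0])
  have h1 := hyx r ⟨hr, le_rfl⟩
  rw [heq ⟨hr, le_rfl⟩] at h1
  exact ⟨t + r, by linarith, h1⟩

/-- **A bounded stable orbit is periodic.** -/
theorem periodic_of_stable (hΩ : IsOpen Ω) (hF : ContDiffOn ℝ 1 F Ω) (hPΩ : P ⊆ Ω)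
    (hPinv : ∀ τ ≥ 0, ∀ y, Solves F Ω (Icc 0 τ) y → (∃ t ∈ Icc 0 τ, y t ∈ P) →
      ∀ t ∈ Icc 0 τ, y t ∈ P)
    {x : ℝ → E} (hx : Solves F P univ x)
    (hgen : ∀ t, ∀ δ > 0, ∃ p ∈ P, dist p (x t) < δ ∧ p ∉ range x)
    {K : Set E} (hK : IsCompact K) (hxK : ∀ t, x t ∈ K)
    (hst : StableSet F P (range x)) : ∃ T > 0, ∀ t, x (t + T) = x t := by
  have hxΩ : Solves F Ω univ x := fun t ht => ⟨hPΩ (hx t ht).1, (hx t ht).2⟩
  have hsub := omegaSet_subset_range hΩ hF hPΩ hPinv hx hgen hst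
  have hxc : Continuous x := continuousOn_univ.mp hx.continuousOn
  have hΛc : IsCompact (omegaSet x) :=
    hK.of_isClosed_subset (isClosed_omegaSet x) (omegaSet_subset hK hxK)
  have : CompactSpace (omegaSet x) := isCompact_iff_compactSpace.mp hΛc
  have : Nonempty (omegaSet x) := (omegaSet_nonempty hK hxK).to_subtype
  obtain ⟨n, hn⟩ := nonempty_interior_of_iUnion_of_closed
    (f := fun n : ℤ => {q : omegaSet x | (q : E) ∈ x '' Icc (n : ℝ) (n + 1)})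
    (fun n => (isCompact_Icc.image hxc).isClosed.preimage continuous_subtype_val) (by
      rw [eq_univ_iff_forall]
      intro q
      obtain ⟨t, ht⟩ := hsub q.2
      rw [mem_iUnion]
      exact ⟨⌊t⌋, t, ⟨Int.floor_le t, (Int.lt_floor_add_one t).le⟩, ht⟩)
  obtain ⟨q, hq⟩ := hn
  obtain ⟨ε, hε, hball⟩ := Metric.mem_nhds_iff.mp (mem_interior_iff_mem_nhds.mp hq)
  have hqn : (q : E) ∈ x '' Icc (n : ℝ) (n + 1) := hball (Metric.mem_ball_self hε)
  obtain ⟨s, hs, hsq⟩ := hqn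
  obtain ⟨t, ht, htq⟩ := q.2 ε hε ((n : ℝ) + 2)
  have hsΛ : x s ∈ omegaSet x := by rw [hsq]; exact q.2
  have htΛ : x t ∈ omegaSet x := by
    have := omegaSet_forward hΩ hF hxΩ (s := s) (r := t - s) (by linarith [hs.2]) hsΛ
    rwa [add_sub_cancel] at this
  have h1 : (⟨x t, htΛ⟩ : omegaSet x) ∈ Metric.ball q ε := htq
  obtain ⟨t', ht', htt'⟩ := hball h1
  change x t' = x t at htt'
  refine ⟨t - t', by linarith [ht'.2], fun u => ?_⟩
  have h2 : (fun u => x (t - t' + u)) = x :=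
    (hxΩ.shift (t - t')).eq_of_eq hΩ hF hxΩ (t₀ := t') (by
      change x (t - t' + t') = x t'
      rw [sub_add_cancel, htt'])
  rw [add_comm]
  exact congrFun h2 u

end Stable

end Pool.Agent.MP_5027f4_mp
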