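import Pool.Agent.Lib_MP_5027f4_mp.Defs
import Pool.Agent.Lib_MP_5027f4_mp.Stable

open Set Filter Topology Metric

namespace Pool.Agent.MP_5027f4_mp

/-- phase points -/
abbrev Ph := (Fin 3 → ℂ) × (Fin 3 → ℂ)

/-- the vector field -/
noncomputable def fld (m : Fin 3 → ℝ) (x : Ph) : Ph := (x.2, acc m x.1)

/-- collision free phase points -/
def noColl : Set Ph := {x | ∀ a b, a ≠ b → x.1 a ≠ x.1 b}

theorem isSolution_iff {m : Fin 3 → ℝ} {s : Set ℝ} {x : ℝ → Ph} :
    IsSolution m s x ↔ Solves (fld m) (frame m) s x := Iff.rfl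

theorem frame_subset (m : Fin 3 → ℝ) : frame m ⊆ noColl := fun _ hx => hx.1

theorem isOpen_noColl : IsOpen noColl := by
  have : noColl = ⋂ a : Fin 3, ⋂ b : Fin 3, ⋂ _ : a ≠ b, {x : Ph | x.1 a ≠ x.1 b} := by
    ext x
    simp [noColl]
  rw [this]
  refine isOpen_iInter_of_finite fun a => isOpen_iInter_of_finite fun b =>
    isOpen_iInter_of_finite fun _ => ?_
  exact isOpen_ne_fun (by fun_prop) (by fun_prop)

theorem contDiffOn_fld (m : Fin 3 → ℝ) : ContDiffOn ℝ 1 (fld m) noColl := by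
  intro x hx
  apply ContDiffAt.contDiffWithinAt
  refine contDiffAt_snd.prodMk ?_
  rw [contDiffAt_pi]
  intro a
  refine ContDiffAt.sum ?_
  intro b hb
  have hba : b ≠ a := (Finset.mem_erase.mp hb).1
  have hne : x.1 b - x.1 a ≠ 0 := sub_ne_zero.mpr (hx b a hba)
  have h1 : ContDiffAt ℝ 1 (fun y : Ph => y.1 b - y.1 a) x := by fun_prop
  have h2 : ContDiffAt ℝ 1 (fun y : Ph => ‖y.1 b - y.1 a‖) x := h1.norm ℂ hne
  have h3 : ContDiffAt ℝ 1 (fun y : Ph => m b / ‖y.1 b - y.1 a‖ ^ 3) x :=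
    contDiffAt_const.div (h2.pow 3) (pow_ne_zero 3 (norm_ne_zero_iff.mpr hne))
  exact h3.smul h1

/-- Newton's third law: the total force vanishes. -/
theorem sum_acc (m : Fin 3 → ℝ) (q : Fin 3 → ℂ) : ∑ a, m a • acc m q a = 0 := by
  have h : ∀ a, acc m q a = ∑ b, (m b / ‖q b - q a‖ ^ 3) • (q b - q a) := by
    intro a
    rw [acc, ← Finset.add_sum_erase _ _ (Finset.mem_univ a)]
    simp
  simp only [h]
  simp only [Fin.sum_univ_three]
  have e01 : ‖q 0 - q 1‖ = ‖q 1 - q 0‖ := norm_sub_rev _ _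
  have e02 : ‖q 0 - q 2‖ = ‖q 2 - q 0‖ := norm_sub_rev _ _
  have e12 : ‖q 1 - q 2‖ = ‖q 2 - q 1‖ := norm_sub_rev _ _
  rw [e01, e02, e12]
  simp only [Complex.real_smul, sub_self, mul_zero]
  push_cast
  ring

/-- The linear map `x ↦ (∑ m_a q_a, ∑ m_a v_a)`. -/
noncomputable def momentMap (m : Fin 3 → ℝ) : Ph →L[ℝ] ℂ × ℂ :=
  LinearMap.toContinuousLinearMap
    { toFun := fun x => (∑ a, m a • x.1 a, ∑ a, m a • x.2 a)
      map_add' := fun x y => by simp [Finset.sum_add_distrib, mul_add]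
      map_smul' := fun c x => by
        simp only [Prod.smul_fst, Prod.smul_snd, Pi.smul_apply, RingHom.id_apply,
          Prod.smul_mk, Finset.smul_sum]
        congr 1 <;> exact Finset.sum_congr rfl fun a _ => smul_comm _ _ _ }

theorem momentMap_apply (m : Fin 3 → ℝ) (x : Ph) :
    momentMap m x = (∑ a, m a • x.1 a, ∑ a, m a • x.2 a) := rfl

theorem frame_invariant (m : Fin 3 → ℝ) : ∀ τ ≥ 0, ∀ y, Solves (fld m) noColl (Icc 0 τ) y →
    (∃ t ∈ Icc 0 τ, y t ∈ frame m) → ∀ t ∈ Icc 0 τ, y t ∈ frame m := by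
  rintro τ hτ y hy ⟨t₀, ht₀, hy₀⟩ t ht
  -- the momentum is constant
  have hder : ∀ u ∈ Icc 0 τ, HasDerivWithinAt (fun u => momentMap m (y u))
      (momentMap m (fld m (y u))) (Icc 0 τ) u := fun u hu =>
    (momentMap m).hasFDerivAt.comp_hasDerivWithinAt u (hy u hu).2
  have hfld : ∀ u, momentMap m (fld m (y u)) = ((momentMap m (y u)).2, 0) := by
    intro u
    rw [momentMap_apply, momentMap_apply, fld]
    simp only [sum_acc]
  have hder2 : ∀ u ∈ Icc 0 τ, HasDerivWithinAt (fun u => (momentMap m (y u)).2) 0 (Icc 0 τ) u := by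
    intro u hu
    have h1 := hder u hu
    rw [hfld] at h1
    exact (hasFDerivAt_snd (𝕜 := ℝ) (p := momentMap m (y u))).comp_hasDerivWithinAt u h1
  have key : ∀ {G : Type} [NormedAddCommGroup G] [NormedSpace ℝ G] (f : ℝ → G),
      (∀ u ∈ Icc 0 τ, HasDerivWithinAt f 0 (Icc 0 τ) u) → ∀ u ∈ Icc 0 τ, f u = f t₀ := by
    intro G _ _ f hf u hu
    have h := (convex_Icc (0 : ℝ) τ).norm_image_sub_le_of_norm_hasDerivWithin_le (C := 0) hf
      (fun _ _ => by simp) ht₀ hu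
    rw [zero_mul] at h
    exact sub_eq_zero.mp (norm_le_zero_iff.mp h)
  have hp0 : momentMap m (y t₀) = 0 := by
    rw [momentMap_apply, hy₀.2.1, hy₀.2.2]
    rfl
  have h2 : ∀ u ∈ Icc 0 τ, (momentMap m (y u)).2 = 0 := by
    intro u hu
    rw [key _ hder2 u hu, hp0]
    rfl
  have h3 : momentMap m (y t) = momentMap m (y t₀) := by
    apply key (fun u => momentMap m (y u)) _ t ht
    intro u hu
    have h1 := hder u hu
    rw [hfld, h2 u hu] at h1
    exact h1
  rw [hp0, momentMap_apply] at h3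
  have h4 := Prod.mk.inj h3
  exact ⟨(hy t ht).1, h4.1, h4.2⟩

end Pool.Agent.MP_5027f4_mp
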