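import Pool.Agent.Lib_MP_5027f4_mp.Energy

open Set Filter Topology Metric

namespace Pool.Agent.MP_5027f4_mp

theorem norm_pos_le {m : Fin 3 → ℝ} (hm : ∀ a, 0 < m a) {x : Ph} (hx : x ∈ frame m) {R : ℝ}
    (hR : ∀ a b, ‖x.1 a - x.1 b‖ ≤ R) (a : Fin 3) : ‖x.1 a‖ ≤ R := by
  have hM : 0 < ∑ b, m b := Finset.sum_pos (fun b _ => hm b) Finset.univ_nonempty
  have h1 : (∑ b, m b) • x.1 a = ∑ b, m b • (x.1 a - x.1 b) := by
    simp only [smul_sub, Finset.sum_sub_distrib, hx.2.1, sub_zero, Finset.sum_smul]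
  have h2 : (∑ b, m b) * ‖x.1 a‖ ≤ (∑ b, m b) * R := by
    calc (∑ b, m b) * ‖x.1 a‖ = ‖(∑ b, m b) • x.1 a‖ := by
          rw [norm_smul, Real.norm_of_nonneg hM.le]
      _ = ‖∑ b, m b • (x.1 a - x.1 b)‖ := by rw [h1]
      _ ≤ ∑ b, ‖m b • (x.1 a - x.1 b)‖ := norm_sum_le _ _
      _ ≤ ∑ b, m b * R := Finset.sum_le_sum fun b _ => by
          rw [norm_smul, Real.norm_of_nonneg (hm b).le]
          exact mul_le_mul_of_nonneg_left (hR a b) (hm b).le
      _ = (∑ b, m b) * R := by rw [Finset.sum_mul]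
  exact le_of_mul_le_mul_left h2 hM

/-- the kinetic energy of a configuration is controlled -/
theorem norm_vel_le {m : Fin 3 → ℝ} (hm : ∀ a, 0 < m a) {x : Ph} {r h : ℝ} (hr : 0 < r)
    (hxr : ∀ a b, a ≠ b → r ≤ ‖x.1 a - x.1 b‖) (hh : energy m x = h) (a : Fin 3) :
    m a * ‖x.2 a‖ ^ 2 ≤ 2 * (h + (m 0 * m 1 + m 0 * m 2 + m 1 * m 2) * r⁻¹) := by
  rw [energy_eq] at hh
  have hi : ∀ a b, a ≠ b → ‖x.1 a - x.1 b‖⁻¹ ≤ r⁻¹ := fun a b hab =>
    inv_anti₀ hr (hxr a b hab)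
  have h10 := mul_le_mul_of_nonneg_left (hi 1 0 (by decide)) (mul_pos (hm 0) (hm 1)).le
  have h20 := mul_le_mul_of_nonneg_left (hi 2 0 (by decide)) (mul_pos (hm 0) (hm 2)).le
  have h21 := mul_le_mul_of_nonneg_left (hi 2 1 (by decide)) (mul_pos (hm 1) (hm 2)).le
  have hv : ∀ a, 0 ≤ m a * ‖x.2 a‖ ^ 2 := fun a => mul_nonneg (hm a).le (sq_nonneg _)
  have hv0 := hv 0
  have hv1 := hv 1
  have hv2 := hv 2
  fin_cases a <;> simp only [Fin.zero_eta, Fin.mk_one, Fin.reduceFinMk] <;> linarith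

theorem exists_compact {m : Fin 3 → ℝ} (hm : ∀ a, 0 < m a) {x : ℝ → Ph}
    (hx : Solves (fld m) (frame m) univ x) {r R : ℝ} (hr : 0 < r)
    (hxr : ∀ t a b, a ≠ b → r ≤ ‖(x t).1 a - (x t).1 b‖)
    (hxR : ∀ t a b, ‖(x t).1 a - (x t).1 b‖ ≤ R) :
    ∃ K : Set Ph, IsCompact K ∧ K ⊆ noColl ∧ ∀ t, x t ∈ K := by
  have hxΩ : Solves (fld m) noColl univ x := fun t ht => ⟨(hx t ht).1.1, (hx t ht).2⟩
  have hR0 : 0 ≤ R := (norm_nonneg _).trans (hxR 0 0 0)
  set B := 2 * (energy m (x 0) + (m 0 * m 1 + m 0 * m 2 + m 1 * m 2) * r⁻¹) with hB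
  have hv : ∀ t a, ‖(x t).2 a‖ ≤ √(B / m a) := by
    intro t a
    have h1 := norm_vel_le hm hr (hxr t) (energy_const hxΩ t 0) a
    apply Real.le_sqrt_of_sq_le
    rw [le_div_iff₀ (hm a), mul_comm]
    exact h1
  set C := R + ∑ a, √(B / m a) with hC
  have hs : 0 ≤ ∑ a, √(B / m a) := Finset.sum_nonneg fun a _ => Real.sqrt_nonneg _
  refine ⟨closedBall 0 C ∩ {x | ∀ a b, a ≠ b → r ≤ ‖x.1 a - x.1 b‖},
    (isCompact_closedBall _ _).inter_right ?_, ?_, fun t => ⟨?_, fun a b hab => hxr t a b hab⟩⟩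
  · simp only [Set.ofPred_forall]
    refine isClosed_iInter fun a => isClosed_iInter fun b => isClosed_iInter fun _ =>
      isClosed_le continuous_const (by fun_prop)
  · rintro y ⟨-, hy⟩ a b hab h
    have := hy a b hab
    rw [h, sub_self, norm_zero] at this
    linarith
  · rw [mem_closedBall_zero_iff]
    refine max_le ?_ ?_
    · rw [pi_norm_le_iff_of_nonneg (by positivity)]
      intro a
      exact (norm_pos_le hm (hx t (mem_univ t)).1 (hxR t) a).trans (by linarith)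
    · rw [pi_norm_le_iff_of_nonneg (by positivity)]
      intro a
      refine (hv t a).trans ?_
      have : √(B / m a) ≤ ∑ a, √(B / m a) :=
        Finset.single_le_sum (f := fun a => √(B / m a)) (fun a _ => Real.sqrt_nonneg _)
          (Finset.mem_univ a)
      linarith

theorem exists_off_orbit {m : Fin 3 → ℝ} (hm : ∀ a, 0 < m a) {x : ℝ → Ph}
    (hx : Solves (fld m) (frame m) univ x) (t : ℝ) (δ : ℝ) (hδ : 0 < δ) :
    ∃ p ∈ frame m, dist p (x t) < δ ∧ p ∉ range x := by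
  have hxΩ : Solves (fld m) noColl univ x := fun t ht => ⟨(hx t ht).1.1, (hx t ht).2⟩
  have hxt := (hx t (mem_univ t)).1
  set η := δ / (2 * (‖(x t).1‖ + 1)) with hη
  have hn : 0 < ‖(x t).1‖ + 1 := by positivity
  have hη0 : 0 < η := by positivity
  refine ⟨((1 + η) • (x t).1, (x t).2), ⟨fun a b hab h => ?_, ?_, hxt.2.2⟩, ?_, ?_⟩
  · apply hxt.1 a b hab
    have h1 : (1 + η) • (x t).1 a = (1 + η) • (x t).1 b := h
    exact smul_right_injective ℂ (by positivity : (1 + η) ≠ 0) h1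
  · have : ∑ a, m a • ((1 + η) • (x t).1) a = (1 + η) • ∑ a, m a • (x t).1 a := by
      rw [Finset.smul_sum]
      exact Finset.sum_congr rfl fun a _ => by rw [Pi.smul_apply, smul_comm]
    rw [this, hxt.2.1, smul_zero]
  · rw [dist_eq_norm]
    have h1 : (((1 + η) • (x t).1, (x t).2) : Ph) - x t = (η • (x t).1, 0) := by
      ext a
      · simp [add_smul]
      · simp
    rw [h1, Prod.norm_def]
    simp only [norm_zero, norm_smul, Real.norm_of_nonneg hη0.le]
    rw [max_eq_left (by positivity)]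
    have h2 : η * (‖(x t).1‖ + 1) = δ / 2 := by
      rw [hη]
      field_simp
    nlinarith
  · rintro ⟨s, hs⟩
    have h1 := energy_const hxΩ s t
    rw [hs, energy_eq, energy_eq] at h1
    have hsc : ∀ a b, ‖((1 + η) • (x t).1) a - ((1 + η) • (x t).1) b‖⁻¹ =
        (1 + η)⁻¹ * ‖(x t).1 a - (x t).1 b‖⁻¹ := by
      intro a b
      rw [Pi.smul_apply, Pi.smul_apply, ← smul_sub, norm_smul, mul_inv,
        Real.norm_of_nonneg (by positivity)]
    simp only [hsc] at h1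
    have hp : ∀ a b, a ≠ b → 0 < ‖(x t).1 a - (x t).1 b‖⁻¹ := fun a b hab =>
      inv_pos.mpr (norm_pos_iff.mpr (sub_ne_zero.mpr (hxt.1 a b hab)))
    have h10 := mul_pos (mul_pos (hm 0) (hm 1)) (hp 1 0 (by decide))
    have h20 := mul_pos (mul_pos (hm 0) (hm 2)) (hp 2 0 (by decide))
    have h21 := mul_pos (mul_pos (hm 1) (hm 2)) (hp 2 1 (by decide))
    have hlt : (1 + η)⁻¹ < 1 := inv_lt_one_of_one_lt₀ (by linarith)
    nlinarith

/-- **A Lyapunov stable orbit with mutual distances bounded from above and below is periodic.** -/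
theorem periodic_of_lyapunovStable {m : Fin 3 → ℝ} (hm : ∀ a, 0 < m a) {x : ℝ → Ph}
    (hx : IsSolution m univ x) {r R : ℝ} (hr : 0 < r)
    (hxr : ∀ t a b, a ≠ b → r ≤ ‖(x t).1 a - (x t).1 b‖)
    (hxR : ∀ t a b, ‖(x t).1 a - (x t).1 b‖ ≤ R) (hst : LyapunovStable m (range x)) :
    ∃ T > 0, ∀ t, x (t + T) = x t := by
  obtain ⟨K, hK, -, hxK⟩ := exists_compact hm hx hr hxr hxR
  exact periodic_of_stable isOpen_noColl (contDiffOn_fld m) (frame_subset m)
    (frame_invariant m) hx (exists_off_orbit hm hx) hK hxK hst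

theorem solution_continuous {m : Fin 3 → ℝ} {P : Set Ph} {x : ℝ → Ph}
    (hx : Solves (fld m) P univ x) : Continuous x := continuousOn_univ.mp hx.continuousOn

/-- If each mutual distance is a periodic function, then the mutual distances are bounded and
bounded away from zero. -/
theorem bounds_of_periodic {m : Fin 3 → ℝ} {x : ℝ → Ph} (hx : IsSolution m univ x)
    (hper : ∀ a b, ∃ T > 0, ∀ t, ‖(x (t + T)).1 a - (x (t + T)).1 b‖ =
      ‖(x t).1 a - (x t).1 b‖) :
    ∃ r > 0, ∃ R : ℝ, (∀ t a b, a ≠ b → r ≤ ‖(x t).1 a - (x t).1 b‖) ∧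
      ∀ t a b, ‖(x t).1 a - (x t).1 b‖ ≤ R := by
  have hxc : Continuous x := solution_continuous hx
  have h : ∀ a b, ∃ c > 0, ∃ C : ℝ, (a ≠ b → ∀ t, c ≤ ‖(x t).1 a - (x t).1 b‖) ∧
      ∀ t, ‖(x t).1 a - (x t).1 b‖ ≤ C := by
    intro a b
    obtain ⟨T, hT, hTp⟩ := hper a b
    set f : ℝ → ℝ := fun t => ‖(x t).1 a - (x t).1 b‖ with hf
    have hfc : Continuous f := by fun_prop
    have hfp : Function.Periodic f T := hTp
    obtain ⟨t₁, -, h1⟩ := isCompact_Icc.exists_isMinOn (nonempty_Icc.mpr hT.le)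
      (hfc.continuousOn (s := Icc 0 T))
    obtain ⟨t₂, -, h2⟩ := isCompact_Icc.exists_isMaxOn (nonempty_Icc.mpr hT.le)
      (hfc.continuousOn (s := Icc 0 T))
    have hred : ∀ t, ∃ s ∈ Icc 0 T, f t = f s := by
      intro t
      obtain ⟨s, hs, hst⟩ := hfp.exists_mem_Ico₀ hT t
      exact ⟨s, Ico_subset_Icc_self hs, hst⟩
    rcases eq_or_ne a b with hab | hab
    · refine ⟨1, one_pos, f t₂, fun h => (h hab).elim, fun t => ?_⟩
      obtain ⟨s, hs, hst⟩ := hred t
      have := h2 hs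
      change f t ≤ f t₂
      rw [hst]
      exact this
    · refine ⟨f t₁, norm_pos_iff.mpr (sub_ne_zero.mpr ((hx t₁ (mem_univ _)).1.1 a b hab)), f t₂,
        fun _ t => ?_, fun t => ?_⟩
      · obtain ⟨s, hs, hst⟩ := hred t
        have := h1 hs
        change f t₁ ≤ f t
        rw [hst]
        exact this
      · obtain ⟨s, hs, hst⟩ := hred t
        have := h2 hs
        change f t ≤ f t₂
        rw [hst]
        exact this
  choose c hc C hcC hC using h
  refine ⟨Finset.univ.inf' Finset.univ_nonempty fun a =>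
    Finset.univ.inf' Finset.univ_nonempty fun b => c a b, ?_,
    Finset.univ.sup' Finset.univ_nonempty fun a =>
    Finset.univ.sup' Finset.univ_nonempty fun b => C a b, fun t a b hab => ?_, fun t a b => ?_⟩
  · rw [gt_iff_lt, Finset.lt_inf'_iff]
    intro a _
    rw [Finset.lt_inf'_iff]
    intro b _
    exact hc a b
  · refine le_trans ?_ (hcC a b hab t)
    exact (Finset.inf'_le _ (Finset.mem_univ a)).trans (Finset.inf'_le _ (Finset.mem_univ b))
  · refine (hC a b t).trans ?_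
    exact (Finset.le_sup' (fun b => C a b) (Finset.mem_univ b)).trans
      (Finset.le_sup' (fun a => Finset.univ.sup' Finset.univ_nonempty fun b => C a b)
        (Finset.mem_univ a))

end Pool.Agent.MP_5027f4_mp
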