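import Pool.Agent.Lib_MP_5027f4_mp.Integrals

/-!
# Concatenation of solutions, locking for twisted periodic arcs, relative equilibria
-/

open Set Filter Topology Metric
open scoped RealInnerProductSpace ComplexConjugate

namespace Pool.Agent.MP_5027f4_mp

section

variable {E : Type*} [NormedAddCommGroup E] [NormedSpace ℝ E]

theorem Solves.concat {F : E → E} {P : Set E} {a b : ℝ} (ha : 0 < a) (hb : 0 < b) {y z : ℝ → E}
    (hy : Solves F P (Icc 0 a) y) (hz : Solves F P (Icc 0 b) z) (h : z 0 = y a) :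
    Solves F P (Icc 0 (a + b)) (fun t => if t ≤ a then y t else z (t - a)) := by
  set w : ℝ → E := fun t => if t ≤ a then y t else z (t - a) with hw
  have hwy : ∀ t ≤ a, w t = y t := fun t ht => by simp [hw, ht]
  have hwz : ∀ t, a ≤ t → w t = z (t - a) := by
    intro t ht
    rcases ht.eq_or_lt with rfl | ht
    · rw [hwy _ le_rfl, sub_self, h]
    · simp [hw, not_le.mpr ht]
  have hd1 : ∀ t ∈ Icc 0 a, HasDerivWithinAt w (F (w t)) (Icc 0 a) t := by
    intro t ht
    rw [hwy t ht.2]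
    exact (hy t ht).2.congr (fun s hs => hwy s hs.2) (hwy t ht.2)
  have hd2 : ∀ t ∈ Icc a (a + b), HasDerivWithinAt w (F (w t)) (Icc a (a + b)) t := by
    intro t ht
    rw [hwz t ht.1]
    have ht' : t - a ∈ Icc 0 b := ⟨by linarith [ht.1], by linarith [ht.2]⟩
    have h1 : HasDerivWithinAt (fun s : ℝ => s - a) 1 (Icc a (a + b)) t :=
      ((hasDerivAt_id t).sub_const a).hasDerivWithinAt
    have h2 := HasDerivWithinAt.scomp t (hz _ ht').2 h1 (fun s hs =>
      (⟨by linarith [hs.1], by linarith [hs.2]⟩ : s - a ∈ Icc 0 b))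
    rw [one_smul] at h2
    exact h2.congr (fun s hs => hwz s hs.1) (hwz t ht.1)
  intro t ht
  refine ⟨?_, ?_⟩
  · rcases le_total t a with h1 | h1
    · rw [hwy t h1]
      exact (hy t ⟨ht.1, h1⟩).1
    · rw [hwz t h1]
      exact (hz _ ⟨by linarith, by linarith [ht.2]⟩).1
  · change HasDerivWithinAt w (F (w t)) (Icc 0 (a + b)) t
    rcases lt_trichotomy t a with h1 | h1 | h1
    · refine (hd1 t ⟨ht.1, h1.le⟩).mono_of_mem_nhdsWithin ?_
      rw [mem_nhdsWithin]
      exact ⟨Iio a, isOpen_Iio, h1, fun s hs => ⟨hs.2.1, hs.1.le⟩⟩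
    · subst h1
      have h2 := (hd1 t ⟨ht.1, le_rfl⟩).union (hd2 t ⟨le_rfl, ht.2⟩)
      rwa [Icc_union_Icc_eq_Icc ht.1 ht.2] at h2
    · refine (hd2 t ⟨h1.le, ht.2⟩).mono_of_mem_nhdsWithin ?_
      rw [mem_nhdsWithin]
      exact ⟨Ioi a, isOpen_Ioi, h1, fun s hs => ⟨hs.1.le, hs.2.2⟩⟩

end

variable {m : Fin 3 → ℝ} {x y : ℝ → Ph}

theorem fld_rot {u : ℂ} (hu : ‖u‖ = 1) (p : Ph) : fld m (u • p) = u • fld m p := by
  refine Prod.ext rfl ?_
  funext a
  exact acc_smul m hu p.1 a

theorem frame_rot {u : ℂ} (hu : ‖u‖ = 1) {p : Ph} (hp : p ∈ frame m) : u • p ∈ frame m := by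
  have hu0 : u ≠ 0 := by
    rintro rfl
    simp at hu
  obtain ⟨h1, h2, h3⟩ := hp
  have hs : ∀ z : Fin 3 → ℂ, ∑ a, m a • z a = 0 → ∑ a, m a • (u • z) a = 0 := by
    intro z hz
    have : ∑ a, m a • (u • z) a = u * ∑ a, m a • z a := by
      rw [Finset.mul_sum]
      refine Finset.sum_congr rfl fun a _ => ?_
      rw [Pi.smul_apply, smul_eq_mul, mul_smul_comm]
    rw [this, hz, mul_zero]
  exact ⟨fun a b hab h => h1 a b hab (mul_left_cancel₀ hu0 h), hs _ h2, hs _ h3⟩

theorem Solves.rotate' {s : Set ℝ} (hx : Solves (fld m) (frame m) s x) {u : ℂ}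
    (hu : ‖u‖ = 1) : Solves (fld m) (frame m) s (fun t => u • x t) := by
  intro t ht
  refine ⟨frame_rot hu (hx t ht).1, ?_⟩
  change HasDerivWithinAt (fun t => u • x t) (fld m (u • x t)) s t
  rw [fld_rot hu]
  exact (hx t ht).2.const_smul u

/-- long solutions from a twisted periodic arc -/
theorem exists_long {T : ℝ} (hT : 0 < T) (hy : Solves (fld m) (frame m) (Icc 0 T) y) {w : ℂ}
    (hw : ‖w‖ = 1) (hyw : y T = w • y 0) (n : ℕ) :
    ∃ Y : ℝ → Ph, Solves (fld m) (frame m) (Icc 0 ((n + 1 : ℕ) * T)) Y ∧ Y 0 = y 0 ∧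
      Y ((n + 1 : ℕ) * T) = w ^ (n + 1) • y 0 := by
  induction n with
  | zero =>
    refine ⟨y, ?_, rfl, ?_⟩
    · simpa using hy
    · simpa using hyw
  | succ n ih =>
    obtain ⟨Y, hY, hY0, hYn⟩ := ih
    have hw' : ‖w ^ (n + 1)‖ = 1 := by rw [norm_pow, hw, one_pow]
    have h1 := hY.concat (by positivity) hT (hy.rotate' hw') hYn.symm
    refine ⟨fun t => if t ≤ ((n + 1 : ℕ) : ℝ) * T then Y t
      else w ^ (n + 1) • y (t - ((n + 1 : ℕ) : ℝ) * T), ?_, ?_, ?_⟩
    · have e : ((n + 1 + 1 : ℕ) : ℝ) * T = ((n + 1 : ℕ) : ℝ) * T + T := by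
        push_cast
        ring
      rw [e]
      exact h1
    · simp only
      rw [if_pos (by positivity), hY0]
    · simp only
      have e : ((n + 1 + 1 : ℕ) : ℝ) * T - ((n + 1 : ℕ) : ℝ) * T = T := by
        push_cast
        ring
      rw [if_neg, e, hyw, smul_smul, ← pow_succ]
      rw [not_le]
      have : ((n + 1 : ℕ) : ℝ) < ((n + 1 + 1 : ℕ) : ℝ) := by exact_mod_cast Nat.lt_succ_self _
      exact mul_lt_mul_of_pos_right this hT

theorem dist_rot_sub {w z : ℂ} (p : Ph) : dist (w • p) (z • p) = ‖w - z‖ * ‖p‖ := by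
  rw [dist_eq_norm, ← sub_smul, norm_smul]

/-- **Locking**: near a Lyapunov stable periodic orbit which is not a relative equilibrium the
rotations of twisted periodic arcs have bounded order. -/
theorem lock_arc (hx : Solves (fld m) (frame m) univ x) {P : ℝ}
    (hP : 0 < P) (hper : ∀ t, x (t + P) = x t) (hst : LyapunovStable m (range x))
    (hnc : ¬ ∀ a b t, ‖(x t).1 a - (x t).1 b‖ = ‖(x 0).1 a - (x 0).1 b‖) :
    ∃ N : ℕ, 0 < N ∧ ∃ U, IsOpen U ∧ range x ⊆ U ∧ ∀ T > 0, ∀ w : ℂ, ‖w‖ = 1 → ∀ y,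
      Solves (fld m) (frame m) (Icc 0 T) y → y 0 ∈ U → y T = w • y 0 → w ^ N = 1 := by
  have hxc : Continuous x := solution_continuous hx
  have hxΩ : Solves (fld m) noColl univ x := fun t ht => ⟨(hx t ht).1.1, (hx t ht).2⟩
  have hcomp : IsCompact (range x) := by
    have : range x = x '' Icc 0 P := by
      apply subset_antisymm
      · rintro _ ⟨t, rfl⟩
        have hp : Function.Periodic x P := hper
        obtain ⟨s, hs, hst⟩ := hp.exists_mem_Ico₀ hP t
        exact ⟨s, Ico_subset_Icc_self hs, hst.symm⟩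
      · exact image_subset_range _ _
    rw [this]
    exact isCompact_Icc.image hxc
  obtain ⟨w, hw, hw0⟩ : ∃ w : ℂ, ‖w‖ = 1 ∧ w • x 0 ∉ range x := by
    by_contra h
    push Not at h
    exact hnc fun a b t => const_of_rotation_invariant hx h a b t
  -- the rotated orbit is disjoint from the orbit
  have hdis : Disjoint (range x) ((fun p : Ph => w • p) '' range x) := by
    rw [Set.disjoint_left]
    rintro _ ⟨s, rfl⟩ ⟨_, ⟨t, rfl⟩, hst'⟩
    have hst'' : w • x t = x s := hst'
    apply hw0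
    have h1 : Solves (fld m) noColl univ (fun s => w • x s) := fun s hs =>
      ⟨((hx.rotate hw) s hs).1.1, ((hx.rotate hw) s hs).2⟩
    have h2 := congrFun ((hxΩ.shift (s - t)).eq_of_eq isOpen_noColl (contDiffOn_fld m) h1
      (t₀ := t) (by rw [sub_add_cancel, hst''])) 0
    exact ⟨s - t + 0, h2⟩
  obtain ⟨δ, hδ, hthick⟩ := hdis.exists_thickenings hcomp
    (hcomp.image (continuous_const_smul w)).isClosed
  obtain ⟨M, hM⟩ := (hcomp.isBounded.thickening (δ := δ / 2)).exists_norm_le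
  set M' := max M 1 with hM'
  have hM'0 : 0 < M' := lt_of_lt_of_le one_pos (le_max_right _ _)
  set ρ := δ / (2 * M') with hρ
  have hρ0 : 0 < ρ := by positivity
  have hkey : ∀ p ∈ thickening (δ / 2) (range x), ∀ w' : ℂ,
      w' • p ∈ thickening (δ / 2) (range x) → ρ ≤ ‖w' - w‖ := by
    intro p hp w' hw'
    by_contra hlt
    push Not at hlt
    have hpM : ‖p‖ ≤ M' := (hM p hp).trans (le_max_left _ _)
    obtain ⟨_, ⟨t, rfl⟩, hpt⟩ := mem_thickening_iff.mp hp
    have h1 : dist (w' • p) (w • x t) < δ := by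
      have h2 : dist (w' • p) (w • p) < δ / 2 := by
        rw [dist_rot_sub]
        calc ‖w' - w‖ * ‖p‖ ≤ ‖w' - w‖ * M' := mul_le_mul_of_nonneg_left hpM (norm_nonneg _)
          _ < ρ * M' := mul_lt_mul_of_pos_right hlt hM'0
          _ = δ / 2 := by
              rw [hρ]
              field_simp
      have h3 : dist (w • p) (w • x t) < δ / 2 := by
        rw [dist_eq_norm, ← smul_sub, norm_smul, hw, one_mul, ← dist_eq_norm]
        exact hpt
      calc dist (w' • p) (w • x t) ≤ dist (w' • p) (w • p) + dist (w • p) (w • x t) :=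
            dist_triangle _ _ _
        _ < δ / 2 + δ / 2 := add_lt_add h2 h3
        _ = δ := by ring
    have h4 : w' • p ∈ thickening δ ((fun p : Ph => w • p) '' range x) :=
      mem_thickening_iff.mpr ⟨w • x t, ⟨x t, mem_range_self t, rfl⟩, h1⟩
    have h5 : w' • p ∈ thickening δ (range x) :=
      thickening_mono (by linarith) _ hw'
    exact (Set.disjoint_left.mp hthick) h5 h4
  obtain ⟨N, hN, hlock⟩ := circle_lock hw hρ0
  obtain ⟨U₂, hU₂, hxU₂, hU⟩ := hst (thickening (δ / 2) (range x)) isOpen_thickening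
    (self_subset_thickening (by positivity) _)
  refine ⟨N, hN, U₂ ∩ thickening (δ / 2) (range x), hU₂.inter isOpen_thickening,
    subset_inter hxU₂ (self_subset_thickening (by positivity) _), fun T hT u hu y hy hy0 hyu => ?_⟩
  apply hlock u hu
  intro n
  rcases n with _ | n
  · apply hkey (y 0) hy0.2
    rw [pow_zero, one_smul]
    exact hy0.2
  · obtain ⟨Y, hY, hY0, hYn⟩ := exists_long hT hy hu hyu n
    have hpos : (0 : ℝ) < ((n + 1 : ℕ) : ℝ) * T := by positivity
    have h1 := hU (((n + 1 : ℕ) : ℝ) * T) hpos Y hY (by rw [hY0]; exact hy0.1)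
      (((n + 1 : ℕ) : ℝ) * T) ⟨hpos.le, le_rfl⟩
    rw [hYn] at h1
    exact hkey (y 0) hy0.2 _ h1

/-- **Locking of the rotation near a Lyapunov stable periodic orbit.** -/
theorem lock_of_stable (hm : ∀ a, 0 < m a) (hx : Solves (fld m) (frame m) univ x) {P : ℝ}
    (hP : 0 < P) (hper : ∀ t, x (t + P) = x t) (hst : LyapunovStable m (range x))
    (hnc : ¬ ∀ a b t, ‖(x t).1 a - (x t).1 b‖ = ‖(x 0).1 a - (x 0).1 b‖) :
    ∃ N : ℕ, 0 < N ∧ ∃ U, IsOpen U ∧ range x ⊆ U ∧ ∀ y, IsSolution m univ y → y 0 ∈ U →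
      ∀ T > 0, DistPeriodic y T → ∀ t, y (t + N * T) = y t := by
  obtain ⟨N, hN, U, hU, hxU, hlock⟩ := lock_arc hx hP hper hst hnc
  refine ⟨2 * N, by positivity, U, hU, hxU, fun y hy hy0 T hT hyT t => ?_⟩
  have hy' : Solves (fld m) (frame m) univ y := hy
  obtain ⟨u, hu, huy⟩ := exists_rotation hm hy' hyT
  have huN := hlock (2 * T) (by positivity) u hu y (hy'.mono (subset_univ _)) hy0 (by
    have := huy 0
    rwa [zero_add] at this)
  have hpow : ∀ n : ℕ, ∀ t, y (t + n * (2 * T)) = u ^ n • y t := by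
    intro n
    induction n with
    | zero => intro t; simp
    | succ n ih =>
      intro t
      have e : t + ((n + 1 : ℕ) : ℝ) * (2 * T) = (t + n * (2 * T)) + 2 * T := by
        push_cast
        ring
      rw [e, huy, ih, smul_smul, pow_succ, mul_comm]
  have := hpow N t
  rw [huN, one_smul] at this
  rw [← this]
  congr 1
  push_cast
  ring

/-- If the velocity at one time is an infinitesimal rotation then the mutual distances are
constant. -/
theorem const_of_releq (hx : Solves (fld m) (frame m) univ x) {μ : ℝ}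
    (hμ : fld m (x 0) = ((μ : ℂ) * Complex.I) • x 0) (a b : Fin 3) (t : ℝ) :
    ‖(x t).1 a - (x t).1 b‖ = ‖(x 0).1 a - (x 0).1 b‖ := by
  set e : ℝ → ℂ := fun t => Complex.exp (t * μ * Complex.I) with he
  have hen : ∀ t, ‖e t‖ = 1 := fun t => by
    have : (t : ℂ) * μ * Complex.I = ((t * μ : ℝ) : ℂ) * Complex.I := by push_cast; ring
    rw [he]
    simp only
    rw [this, Complex.norm_exp_ofReal_mul_I]
  have hed : ∀ t, HasDerivAt e (e t * (μ * Complex.I)) t := by
    intro t
    have h1 : HasDerivAt (fun t : ℝ => (t : ℂ) * μ * Complex.I) (μ * Complex.I) t := by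
      have h2 : HasDerivAt (fun t : ℝ => (t : ℂ)) 1 t := Complex.ofRealCLM.hasDerivAt
      have h3 := (h2.mul_const (μ : ℂ)).mul_const Complex.I
      simpa using h3
    exact h1.cexp
  have hz : Solves (fld m) noColl univ (fun t => e t • x 0) := by
    intro t _
    refine ⟨(frame_rot (hen t) (hx 0 (mem_univ 0)).1).1, ?_⟩
    change HasDerivWithinAt (fun t => e t • x 0) (fld m (e t • x 0)) univ t
    rw [fld_rot (hen t), hμ, smul_smul]
    exact ((hed t).smul_const (x 0)).hasDerivWithinAt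
  have hxΩ : Solves (fld m) noColl univ x := fun t ht => ⟨(hx t ht).1.1, (hx t ht).2⟩
  have heq := congrFun (hxΩ.eq_of_eq isOpen_noColl (contDiffOn_fld m) hz (t₀ := 0) (by
    simp [he])) t
  rw [heq]
  change ‖e t * (x 0).1 a - e t * (x 0).1 b‖ = _
  rw [← mul_sub, norm_mul, hen, one_mul]

theorem exists_dir (hm : ∀ a, 0 < m a) {p : Ph} (hp : p ∈ frame m)
    (hre : ¬ ∃ μ : ℝ, fld m p = ((μ : ℂ) * Complex.I) • p) {α β : ℝ} (hαβ : ¬ (α = 0 ∧ β = 0)) :
    ∃ δ : Ph, ∑ a, m a • δ.1 a = 0 ∧ ∑ a, m a • δ.2 a = 0 ∧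
      α * fderiv ℝ (energy m) p δ + β * fderiv ℝ (amom m) p δ ≠ 0 := by
  by_contra hcon
  push Not at hcon
  have hq : ∑ a, m a • p.1 a = 0 := hp.2.1
  have hv : ∑ a, m a • p.2 a = 0 := hp.2.2
  have hsum : ∀ z : Fin 3 → ℂ, (∀ a, z a = 0) → ∑ a, m a • z a = 0 := fun z hz =>
    Finset.sum_eq_zero fun a _ => by rw [hz a, smul_zero]
  -- the velocity directions
  have h1 : ∀ a, (α : ℂ) * p.2 a + (β : ℂ) * (Complex.I * p.1 a) = 0 := by
    set w : Fin 3 → ℂ := fun a => (α : ℂ) * p.2 a + (β : ℂ) * (Complex.I * p.1 a) with hw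
    have hw0 : ∑ a, m a • w a = 0 := by
      have : ∑ a, m a • w a = (α : ℂ) * ∑ a, m a • p.2 a +
          (β : ℂ) * (Complex.I * ∑ a, m a • p.1 a) := by
        simp only [Fin.sum_univ_three, Complex.real_smul, hw]
        ring
      rw [this, hq, hv]
      simp
    have h2 := hcon (0, w) (hsum _ fun _ => rfl) hw0
    rw [fderiv_energy hp.1, fderiv_amom] at h2
    have h3 : ∑ a, m a * Complex.normSq (w a) = 0 := by
      rw [← h2, Finset.mul_sum, Finset.mul_sum, ← Finset.sum_add_distrib]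
      refine Finset.sum_congr rfl fun a _ => ?_
      simp only [inner_eq, Complex.normSq_apply, hw, Pi.zero_apply, Complex.add_re,
        Complex.add_im, Complex.mul_re, Complex.mul_im, Complex.ofReal_re, Complex.ofReal_im,
        Complex.I_re, Complex.I_im, Complex.conj_re, Complex.conj_im, Complex.zero_re,
        Complex.zero_im]
      ring
    rw [Finset.sum_eq_zero_iff_of_nonneg
      (fun a _ => mul_nonneg (hm a).le (Complex.normSq_nonneg _))] at h3
    intro a
    rcases mul_eq_zero.mp (h3 a (Finset.mem_univ a)) with h4 | h4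
    · exact absurd h4 (hm a).ne'
    · exact Complex.normSq_eq_zero.mp h4
  -- the position directions
  have h2 : ∀ a, (α : ℂ) * acc m p.1 a + (β : ℂ) * (Complex.I * p.2 a) = 0 := by
    set w : Fin 3 → ℂ := fun a => -((α : ℂ) * acc m p.1 a + (β : ℂ) * (Complex.I * p.2 a)) with hw
    have hw0 : ∑ a, m a • w a = 0 := by
      have : ∑ a, m a • w a = -((α : ℂ) * ∑ a, m a • acc m p.1 a +
          (β : ℂ) * (Complex.I * ∑ a, m a • p.2 a)) := by
        simp only [Fin.sum_univ_three, Complex.real_smul, hw]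
        ring
      rw [this, sum_acc, hv]
      simp
    have h2 := hcon (w, 0) hw0 (hsum _ fun _ => rfl)
    rw [fderiv_energy hp.1, fderiv_amom] at h2
    have h3 : ∑ a, m a * Complex.normSq (w a) = 0 := by
      rw [← h2, Finset.mul_sum, Finset.mul_sum, ← Finset.sum_add_distrib]
      refine Finset.sum_congr rfl fun a _ => ?_
      simp only [inner_eq, Complex.normSq_apply, hw, Pi.zero_apply, Complex.add_re,
        Complex.add_im, Complex.mul_re, Complex.mul_im, Complex.ofReal_re, Complex.ofReal_im,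
        Complex.I_re, Complex.I_im, Complex.conj_re, Complex.conj_im, Complex.zero_re,
        Complex.zero_im, Complex.neg_re, Complex.neg_im]
      ring
    rw [Finset.sum_eq_zero_iff_of_nonneg
      (fun a _ => mul_nonneg (hm a).le (Complex.normSq_nonneg _))] at h3
    intro a
    rcases mul_eq_zero.mp (h3 a (Finset.mem_univ a)) with h4 | h4
    · exact absurd h4 (hm a).ne'
    · exact neg_eq_zero.mp (Complex.normSq_eq_zero.mp h4)
  have hα : α ≠ 0 := by
    intro hα
    have hβ : β ≠ 0 := fun h => hαβ ⟨hα, h⟩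
    have h3 : ∀ a, p.1 a = 0 := by
      intro a
      have h4 := h1 a
      rw [hα, Complex.ofReal_zero, zero_mul, zero_add] at h4
      rcases mul_eq_zero.mp h4 with h5 | h5
      · exact absurd (Complex.ofReal_eq_zero.mp h5) hβ
      · exact (mul_eq_zero.mp h5).resolve_left Complex.I_ne_zero
    exact hp.1 0 1 (by decide) (by rw [h3, h3])
  have hα' : (α : ℂ) ≠ 0 := Complex.ofReal_ne_zero.mpr hα
  apply hre
  refine ⟨-(β / α), Prod.ext (funext fun a => ?_) (funext fun a => ?_)⟩
  · change p.2 a = ((-(β / α) : ℝ) : ℂ) * Complex.I * p.1 a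
    have h3 := h1 a
    push_cast
    field_simp
    linear_combination h3
  · change acc m p.1 a = ((-(β / α) : ℝ) : ℂ) * Complex.I * p.2 a
    have h3 := h2 a
    push_cast
    field_simp
    linear_combination h3

end Pool.Agent.MP_5027f4_mp
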