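import Mathlib

/-!
# The planar three-body problem in the center-of-mass frame

The plane `ℝ²` is the complex plane `ℂ`.  A phase point is a pair `(q, v)` of positions
`q : Fin 3 → ℂ` and velocities `v : Fin 3 → ℂ` of the three bodies.
-/

open Set

namespace Pool.Agent.MP_5027f4_mp

/-- The acceleration `∑_{b ≠ a} m_b (q_b - q_a) / |q_b - q_a|³` of the body `a`. -/
noncomputable def acc (m : Fin 3 → ℝ) (q : Fin 3 → ℂ) (a : Fin 3) : ℂ :=
  ∑ b ∈ Finset.univ.erase a, (m b / ‖q b - q a‖ ^ 3) • (q b - q a)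

/-- The phase space of the planar three-body problem in the center-of-mass frame: positions and
velocities `(q, v)` with `q_a ≠ q_b` for `a ≠ b`, `∑ m_a q_a = 0` and `∑ m_a v_a = 0`. -/
def frame (m : Fin 3 → ℝ) : Set ((Fin 3 → ℂ) × (Fin 3 → ℂ)) :=
  {x | (∀ a b, a ≠ b → x.1 a ≠ x.1 b) ∧ ∑ a, m a • x.1 a = 0 ∧ ∑ a, m a • x.2 a = 0}

/-- `x = (q, v)` is, on the set of times `s` (an interval), a solution of the planar three-body
problem in the center-of-mass frame: `q' = v` and `v' = acc m q`. -/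
def IsSolution (m : Fin 3 → ℝ) (s : Set ℝ) (x : ℝ → (Fin 3 → ℂ) × (Fin 3 → ℂ)) : Prop :=
  ∀ t ∈ s, x t ∈ frame m ∧ HasDerivWithinAt x ((x t).2, acc m (x t).1) s t

/-- The set `γ` of phase points is Lyapunov stable in the center-of-mass frame: for every
neighbourhood `U₁` of `γ` there is a neighbourhood `U₂` of `γ` such that every solution with initial
condition in `U₂` stays in `U₁` for all later times (at which it is defined). -/
def LyapunovStable (m : Fin 3 → ℝ) (γ : Set ((Fin 3 → ℂ) × (Fin 3 → ℂ))) : Prop :=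
  ∀ U₁, IsOpen U₁ → γ ⊆ U₁ → ∃ U₂, IsOpen U₂ ∧ γ ⊆ U₂ ∧
    ∀ τ > 0, ∀ y, IsSolution m (Icc 0 τ) y → y 0 ∈ U₂ → ∀ t ∈ Icc 0 τ, y t ∈ U₁

/-- All three mutual distances of `x` are `T`-periodic functions of the time. -/
def DistPeriodic (x : ℝ → (Fin 3 → ℂ) × (Fin 3 → ℂ)) (T : ℝ) : Prop :=
  ∀ a b t, ‖(x (t + T)).1 a - (x (t + T)).1 b‖ = ‖(x t).1 a - (x t).1 b‖

/-- `J` is, on the time interval `[0, T]`, a solution in the center-of-mass frame of the
variational (linearized) equation `J' = DF(x) J` along the solution `x`, where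
`F (q, v) = (v, acc m q)` is the vector field of the three-body problem. -/
def IsJacobi (m : Fin 3 → ℝ) (x : ℝ → (Fin 3 → ℂ) × (Fin 3 → ℂ)) (T : ℝ)
    (J : ℝ → (Fin 3 → ℂ) × (Fin 3 → ℂ)) : Prop :=
  ∀ t ∈ Icc 0 T, ∑ a, m a • (J t).1 a = 0 ∧ ∑ a, m a • (J t).2 a = 0 ∧
    HasDerivWithinAt J (fderiv ℝ (fun z : (Fin 3 → ℂ) × (Fin 3 → ℂ) => (z.2, acc m z.1)) (x t)
      (J t)) (Icc 0 T) t

/-- A solution `x` with `x (t + T) = u x(t)` (a motion which is periodic up to the rotation `u`)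
is nondegenerate if the only solutions `J` of the variational equation along `x` with
`J(T) = u J(0)` are the trivial ones: the linear combinations of the velocity field
`(v, acc m q)` (time shift) and of the rotation field `i x = (i q, i v)`. -/
def Nondegenerate (m : Fin 3 → ℝ) (x : ℝ → (Fin 3 → ℂ) × (Fin 3 → ℂ)) (T : ℝ) (u : ℂ) : Prop :=
  ∀ J, IsJacobi m x T J → J T = u • J 0 →
    ∃ α β : ℝ, J 0 = α • ((x 0).2, acc m (x 0).1) + β • (Complex.I • x 0)

end Pool.Agent.MP_5027f4_mp
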