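import Pool.Agent.Lib_MP_5027f4_mp.Stable

/-!
# Strict differentiability of the time `T` map and persistence of twisted periodic orbits
-/

open Set Filter Topology Metric
open scoped NNReal Manifold ContDiff

namespace Pool.Agent.MP_5027f4_mp

set_option linter.unusedSectionVars false

section

variable {E : Type*} [NormedAddCommGroup E] [NormedSpace ℝ E] [FiniteDimensional ℝ E]

/-- A `C²` field on an open set coincides, near a compact subset, with a compactly supported
`C²` field. -/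
theorem exists_cutoff {F : E → E} {Ω K : Set E} (hΩ : IsOpen Ω)
    (hF : ContDiffOn ℝ 2 F Ω) (hK : IsCompact K) (hKΩ : K ⊆ Ω) :
    ∃ (G : E → E) (V : Set E), ContDiff ℝ 2 G ∧ HasCompactSupport G ∧ IsOpen V ∧ K ⊆ V ∧ V ⊆ Ω ∧
      ∀ x ∈ V, G x = F x := by
  obtain ⟨δ, hδ, hsub⟩ := hK.exists_cthickening_subset_open hΩ hKΩ
  have hcomp : IsCompact (cthickening δ K) := hK.cthickening
  obtain ⟨f, hf1, hf0, -⟩ := exists_contMDiffMap_one_nhds_of_subset_interior (n := 2) 𝓘(ℝ, E)
    hK.isClosed (show K ⊆ interior (cthickening δ K) from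
      (self_subset_thickening hδ K).trans
        (interior_maximal (thickening_subset_cthickening δ K) isOpen_thickening))
  have hfs : ContDiff ℝ 2 f := f.contMDiff.contDiff
  have hts : tsupport f ⊆ cthickening δ K := by
    apply closure_minimal _ hcomp.isClosed
    intro x hx
    by_contra h
    exact hx (hf0 x h)
  have hfc : HasCompactSupport f := HasCompactSupport.of_support_subset_isCompact hcomp
    (subset_closure.trans hts)
  have hG : ContDiff ℝ 2 (fun x => f x • F x) := by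
    rw [contDiff_iff_contDiffAt]
    intro x
    by_cases hx : x ∈ Ω
    · exact hfs.contDiffAt.smul (hF.contDiffAt (hΩ.mem_nhds hx))
    · have hx' : x ∉ tsupport f := fun h => hx (hsub (hts h))
      have : (fun y => f y • F y) =ᶠ[𝓝 x] fun _ => 0 := by
        filter_upwards [notMem_tsupport_iff_eventuallyEq.mp hx'] with y hy
        rw [hy]
        simp
      exact contDiffAt_const.congr_of_eventuallyEq this
  have hGc : HasCompactSupport (fun x => f x • F x) := hfc.smul_right
  rw [Filter.Eventually, mem_nhdsSet_iff_exists] at hf1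
  obtain ⟨V, hVo, hKV, hV⟩ := hf1
  refine ⟨fun x => f x • F x, V ∩ Ω, hG, hGc, hVo.inter hΩ,
    subset_inter hKV hKΩ, inter_subset_right, ?_⟩
  intro x hx
  have : f x = 1 := hV hx.1
  simp [this]

theorem unif_strict {G : E → E} (hG : ContDiff ℝ 2 G) (hGc : HasCompactSupport G) {ε : ℝ}
    (hε : 0 < ε) : ∃ r > 0, ∀ c p q, p ∈ ball c r → q ∈ ball c r →
      ‖G p - G q - fderiv ℝ G c (p - q)‖ ≤ ε * ‖p - q‖ := by
  have h1 : ContDiff ℝ 1 (fderiv ℝ G) := hG.fderiv_right (by norm_num)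
  obtain ⟨C, hC⟩ := h1.lipschitzWith_of_hasCompactSupport (hGc.fderiv ℝ) (by norm_num)
  refine ⟨ε / (C + 1), by positivity, fun c p q hp hq => ?_⟩
  refine (convex_ball c (ε / (C + 1))).norm_image_sub_le_of_norm_fderiv_le' (𝕜 := ℝ)
    (fun z _ => (hG.differentiable (by norm_num)) z) (fun z hz => ?_) hq hp
  have h2 := hC.dist_le_mul z c
  rw [dist_eq_norm] at h2
  have h3 : dist z c < ε / (C + 1) := hz
  have h4 : (C : ℝ) * dist z c ≤ C * (ε / (C + 1)) := mul_le_mul_of_nonneg_left h3.le C.2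
  have h5 : (C : ℝ) * (ε / (C + 1)) ≤ ε := by
    rw [mul_div_assoc', div_le_iff₀ (by positivity)]
    nlinarith
  linarith

/-- The fundamental solution of the variational equation. -/
theorem exists_fundamental {G : E → E} (hG : ContDiff ℝ 2 G) {x : ℝ → E} {T : ℝ} (hT : 0 ≤ T)
    (hx : Solves G univ (Icc 0 T) x) : ∃ A : ℝ → E →L[ℝ] E, A 0 = ContinuousLinearMap.id ℝ E ∧
      ∀ t ∈ Icc 0 T, HasDerivWithinAt A ((fderiv ℝ G (x t)).comp (A t)) (Icc 0 T) t := by
  set FF : E × (E →L[ℝ] E) → E × (E →L[ℝ] E) := fun z => (G z.1, (fderiv ℝ G z.1).comp z.2)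
    with hFF
  have hFFc : ContDiff ℝ 1 FF := by
    have h1 : ContDiff ℝ 1 (fderiv ℝ G) := hG.fderiv_right (by norm_num)
    exact ((hG.of_le (by norm_num)).comp contDiff_fst).prodMk
      ((h1.comp contDiff_fst).clm_comp contDiff_snd)
  have hx0 : Solves FF univ (Icc 0 T) (fun t => (x t, 0)) := by
    intro t ht
    refine ⟨mem_univ _, ?_⟩
    have := (hx t ht).2.prodMk (hasDerivWithinAt_const t (Icc 0 T) (0 : E →L[ℝ] E))
    simpa [hFF] using this
  obtain ⟨δ, hδ, h⟩ := exists_near_forward isOpen_univ hFFc.contDiffOn hT hx0 one_pos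
  set I : E →L[ℝ] E := ContinuousLinearMap.id ℝ E with hI
  set η := δ / (2 * (‖I‖ + 1)) with hη
  have hη0 : 0 < η := by positivity
  obtain ⟨Y, hY0, hY, -⟩ := h (x 0, η • I) (by
    rw [dist_eq_norm, Prod.norm_def]
    simp only [Prod.fst_sub, Prod.snd_sub, sub_self, norm_zero, sub_zero, norm_smul,
      Real.norm_of_nonneg hη0.le]
    rw [max_eq_right (by positivity)]
    have h2 : η * (‖I‖ + 1) = δ / 2 := by
      rw [hη]
      field_simp
    nlinarith [norm_nonneg I])
  have hY1 : Solves G univ (Icc 0 T) (fun t => (Y t).1) := fun t ht =>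
    ⟨mem_univ _, (hasFDerivAt_fst (𝕜 := ℝ) (p := Y t)).comp_hasDerivWithinAt t (hY t ht).2⟩
  have hYx : EqOn (fun t => (Y t).1) x (Icc 0 T) :=
    hY1.eqOn_of_eq isOpen_univ (hG.of_le (by norm_num)).contDiffOn hx (by simp [hY0])
  refine ⟨fun t => η⁻¹ • (Y t).2, ?_, fun t ht => ?_⟩
  · simp only [hY0]
    rw [smul_smul, inv_mul_cancel₀ hη0.ne', one_smul]
  · have h1 : HasDerivWithinAt (fun t => (Y t).2) ((fderiv ℝ G (Y t).1).comp (Y t).2) (Icc 0 T) t :=
      (hasFDerivAt_snd (𝕜 := ℝ) (p := Y t)).comp_hasDerivWithinAt t (hY t ht).2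
    have h2 := h1.const_smul η⁻¹
    refine h2.congr_deriv ?_
    rw [← hYx ht, ContinuousLinearMap.comp_smul]

theorem flow_strict {G : E → E} (hG : ContDiff ℝ 2 G) (hGc : HasCompactSupport G) {x : ℝ → E}
    {T : ℝ} (hT : 0 ≤ T) (hx : Solves G univ (Icc 0 T) x) {A : ℝ → E →L[ℝ] E}
    (hA0 : A 0 = ContinuousLinearMap.id ℝ E)
    (hA : ∀ t ∈ Icc 0 T, HasDerivWithinAt A ((fderiv ℝ G (x t)).comp (A t)) (Icc 0 T) t)
    {ε : ℝ} (hε : 0 < ε) : ∃ δ > 0, ∀ y z : ℝ → E, Solves G univ (Icc 0 T) y →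
      Solves G univ (Icc 0 T) z → dist (y 0) (x 0) < δ → dist (z 0) (x 0) < δ →
      ‖y T - z T - A T (y 0 - z 0)‖ ≤ ε * ‖y 0 - z 0‖ := by
  obtain ⟨L₀, hL₀⟩ := (hG.of_le (by norm_num : (1 : ℕ∞ω) ≤ 2)).lipschitzWith_of_hasCompactSupport
    hGc (by norm_num)
  set L : ℝ≥0 := L₀ + 1 with hL
  have hLip : LipschitzWith L G := hL₀.weaken (by simp [hL])
  have hL0 : (0 : ℝ) < L := by
    rw [hL]
    push_cast
    positivity
  have hDG : ∀ z, ‖fderiv ℝ G z‖ ≤ L := fun z => norm_fderiv_le_of_lipschitz ℝ hLip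
  set C := Real.exp (L * T) * (Real.exp (L * T) - 1) / L with hC
  have hC0 : 0 ≤ C := by
    have : 1 ≤ Real.exp (L * T) := Real.one_le_exp (by positivity)
    have : 0 ≤ Real.exp (L * T) - 1 := by linarith
    positivity
  obtain ⟨r, hr, hstrict⟩ := unif_strict hG hGc (show 0 < ε / (C + 1) by positivity)
  refine ⟨r * Real.exp (-(L * T)), by positivity, fun y z hy hz hyx hzx => ?_⟩
  have hclose : ∀ w : ℝ → E, Solves G univ (Icc 0 T) w → ∀ w' : ℝ → E,
      Solves G univ (Icc 0 T) w' → ∀ t ∈ Icc 0 T,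
      dist (w t) (w' t) ≤ dist (w 0) (w' 0) * Real.exp (L * T) := by
    intro w hw w' hw' t ht
    have h1 := dist_le_of_trajectories_ODE (v := fun _ => G) (fun _ => hLip) hw.continuousOn
      (fun t ht => hasDerivWithinAt_Ici_of_Icc ht (hw t (Ico_subset_Icc_self ht)).2)
      hw'.continuousOn
      (fun t ht => hasDerivWithinAt_Ici_of_Icc ht (hw' t (Ico_subset_Icc_self ht)).2)
      (le_refl (dist (w 0) (w' 0))) t ht
    refine h1.trans (mul_le_mul_of_nonneg_left ?_ dist_nonneg)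
    apply Real.exp_le_exp.mpr
    apply mul_le_mul_of_nonneg_left _ L.2
    linarith [ht.2]
  have hin : ∀ w : ℝ → E, Solves G univ (Icc 0 T) w → dist (w 0) (x 0) < r * Real.exp (-(L * T)) →
      ∀ t ∈ Icc 0 T, w t ∈ ball (x t) r := by
    intro w hw hwx t ht
    rw [mem_ball]
    refine (hclose w hw x hx t ht).trans_lt ?_
    calc dist (w 0) (x 0) * Real.exp (L * T) <
        (r * Real.exp (-(L * T))) * Real.exp (L * T) :=
          mul_lt_mul_of_pos_right hwx (Real.exp_pos _)
      _ = r := by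
          rw [mul_assoc, ← Real.exp_add]
          simp
  -- the error function
  set e := y 0 - z 0 with he
  have hder : ∀ t ∈ Icc 0 T, HasDerivWithinAt (fun t => y t - z t - A t e)
      (G (y t) - G (z t) - fderiv ℝ G (x t) (A t e)) (Icc 0 T) t := by
    intro t ht
    have h1 : HasDerivWithinAt (fun t => A t e) (fderiv ℝ G (x t) (A t e)) (Icc 0 T) t := by
      have := (hA t ht).clm_apply (hasDerivWithinAt_const t (Icc 0 T) e)
      simpa using this
    exact ((hy t ht).2.sub (hz t ht).2).sub h1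
  have hbound := norm_le_gronwallBound_of_norm_deriv_right_le
    (f := fun t => y t - z t - A t e) (δ := 0) (K := L)
    (ε := ε / (C + 1) * (‖e‖ * Real.exp (L * T)))
    (fun t ht => (hder t ht).continuousWithinAt)
    (fun t ht => hasDerivWithinAt_Ici_of_Icc ht (hder t (Ico_subset_Icc_self ht)))
    (by simp [hA0, he]) (fun t ht => by
      have ht' := Ico_subset_Icc_self ht
      have h1 := hstrict (x t) (y t) (z t) (hin y hy hyx t ht') (hin z hz hzx t ht')
      have h2 := hclose y hy z hz t ht'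
      rw [dist_eq_norm, dist_eq_norm, ← he] at h2
      have h3 : G (y t) - G (z t) - fderiv ℝ G (x t) (A t e) =
          (G (y t) - G (z t) - fderiv ℝ G (x t) (y t - z t)) +
            fderiv ℝ G (x t) (y t - z t - A t e) := by
        rw [map_sub (fderiv ℝ G (x t)) (y t - z t)]
        abel
      rw [h3]
      have h4 : ‖fderiv ℝ G (x t) (y t - z t - A t e)‖ ≤ L * ‖y t - z t - A t e‖ :=
        ((fderiv ℝ G (x t)).le_opNorm _).trans
          (mul_le_mul_of_nonneg_right (hDG _) (norm_nonneg _))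
      have h5 : ε / (C + 1) * ‖y t - z t‖ ≤ ε / (C + 1) * (‖e‖ * Real.exp (L * T)) :=
        mul_le_mul_of_nonneg_left h2 (by positivity)
      calc _ ≤ ‖G (y t) - G (z t) - fderiv ℝ G (x t) (y t - z t)‖ +
            ‖fderiv ℝ G (x t) (y t - z t - A t e)‖ := norm_add_le _ _
        _ ≤ _ := by linarith) T ⟨hT, le_rfl⟩
  refine hbound.trans ?_
  rw [gronwallBound_of_K_ne_0 hL0.ne']
  simp only [zero_mul, zero_add, sub_zero]
  have h6 : ε / (C + 1) * (‖e‖ * Real.exp (L * T)) / L * (Real.exp (L * T) - 1) =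
      ε / (C + 1) * C * ‖e‖ := by
    rw [hC]
    ring
  rw [h6]
  apply mul_le_mul_of_nonneg_right _ (norm_nonneg _)
  rw [div_mul_eq_mul_div, div_le_iff₀ (by positivity)]
  nlinarith

end

end Pool.Agent.MP_5027f4_mp
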