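import Pool.Agent.Lib_MP_5027f4_mp.Basic

open Set Filter Topology Metric
open scoped RealInnerProductSpace

namespace Pool.Agent.MP_5027f4_mp

/-- The total energy (kinetic plus potential). -/
noncomputable def energy (m : Fin 3 → ℝ) (x : (Fin 3 → ℂ) × (Fin 3 → ℂ)) : ℝ :=
  (∑ a, m a * ‖x.2 a‖ ^ 2) / 2 -
    (∑ a, ∑ b ∈ Finset.univ.erase a, m a * m b / ‖x.1 b - x.1 a‖) / 2

theorem energy_eq (m : Fin 3 → ℝ) (x : Ph) : energy m x =
    (m 0 * ‖x.2 0‖ ^ 2 + m 1 * ‖x.2 1‖ ^ 2 + m 2 * ‖x.2 2‖ ^ 2) / 2 -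
      (m 0 * m 1 * ‖x.1 1 - x.1 0‖⁻¹ + m 0 * m 2 * ‖x.1 2 - x.1 0‖⁻¹ +
        m 1 * m 2 * ‖x.1 2 - x.1 1‖⁻¹) := by
  have h : ∀ a, ∑ b ∈ Finset.univ.erase a, m a * m b / ‖x.1 b - x.1 a‖ =
      ∑ b, m a * m b / ‖x.1 b - x.1 a‖ := by
    intro a
    rw [← Finset.add_sum_erase _ _ (Finset.mem_univ a)]
    simp
  have e01 : ‖x.1 0 - x.1 1‖ = ‖x.1 1 - x.1 0‖ := norm_sub_rev _ _
  have e02 : ‖x.1 0 - x.1 2‖ = ‖x.1 2 - x.1 0‖ := norm_sub_rev _ _
  have e12 : ‖x.1 1 - x.1 2‖ = ‖x.1 2 - x.1 1‖ := norm_sub_rev _ _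
  simp only [energy, h, Fin.sum_univ_three]
  rw [e01, e02, e12]
  simp only [sub_self, norm_zero, div_zero]
  ring

theorem acc_eq (m : Fin 3 → ℝ) (q : Fin 3 → ℂ) (a : Fin 3) :
    acc m q a = ∑ b, (m b / ‖q b - q a‖ ^ 3) • (q b - q a) := by
  rw [acc, ← Finset.add_sum_erase _ _ (Finset.mem_univ a)]
  simp

theorem hasDerivAt_norm_inv {d : ℝ → ℂ} {d' : ℂ} {t : ℝ} (h : HasDerivAt d d' t) (h0 : d t ≠ 0) :
    HasDerivAt (fun t => ‖d t‖⁻¹) (-(⟪d t, d'⟫ / ‖d t‖ ^ 3)) t := by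
  have hn : ‖d t‖ ≠ 0 := norm_ne_zero_iff.mpr h0
  have h1 : HasDerivAt (fun t => ‖d t‖ ^ 2) (2 * ⟪d t, d'⟫) t := h.norm_sq
  have h2 := h1.sqrt (by positivity)
  have h3 : (fun t => √(‖d t‖ ^ 2)) = fun t => ‖d t‖ := by
    funext t
    exact Real.sqrt_sq (norm_nonneg _)
  rw [h3, Real.sqrt_sq (norm_nonneg _)] at h2
  have h4 := h2.fun_inv hn
  refine h4.congr_deriv ?_
  field_simp

/-- components of a solution -/
theorem Solves.hasDerivAt_fst {m : Fin 3 → ℝ} {P : Set Ph} {x : ℝ → Ph}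
    (hx : Solves (fld m) P univ x) (t : ℝ) (a : Fin 3) :
    HasDerivAt (fun t => (x t).1 a) ((x t).2 a) t := by
  have h := hasDerivWithinAt_univ.mp (hx t (mem_univ t)).2
  have h1 : HasDerivAt (fun t => (x t).1) (x t).2 t :=
    (hasFDerivAt_fst (𝕜 := ℝ) (p := x t)).comp_hasDerivAt t h
  exact hasDerivAt_pi.mp h1 a

theorem Solves.hasDerivAt_snd {m : Fin 3 → ℝ} {P : Set Ph} {x : ℝ → Ph}
    (hx : Solves (fld m) P univ x) (t : ℝ) (a : Fin 3) :
    HasDerivAt (fun t => (x t).2 a) (acc m (x t).1 a) t := by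
  have h := hasDerivWithinAt_univ.mp (hx t (mem_univ t)).2
  have h1 : HasDerivAt (fun t => (x t).2) (acc m (x t).1) t :=
    (hasFDerivAt_snd (𝕜 := ℝ) (p := x t)).comp_hasDerivAt t h
  exact hasDerivAt_pi.mp h1 a

theorem inner_eq (z w : ℂ) : ⟪z, w⟫ = z.re * w.re + z.im * w.im := by
  rw [Complex.inner]
  simp [Complex.mul_re]
  ring

theorem energy_const {m : Fin 3 → ℝ} {x : ℝ → Ph} (hx : Solves (fld m) noColl univ x) (s t : ℝ) :
    energy m (x s) = energy m (x t) := by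
  refine is_const_of_deriv_eq_zero (𝕜 := ℝ) (f := fun t => energy m (x t)) ?_ ?_ s t
  · intro t
    have hne : ∀ a b, a ≠ b → (x t).1 a - (x t).1 b ≠ 0 := fun a b hab =>
      sub_ne_zero.mpr ((hx t (mem_univ t)).1 a b hab)
    simp only [energy_eq]
    have hv := fun a => (hx.hasDerivAt_snd t a).norm_sq.differentiableAt
    have hq := fun a b (hab : a ≠ b) => (hasDerivAt_norm_inv
      ((hx.hasDerivAt_fst t a).sub (hx.hasDerivAt_fst t b)) (hne a b hab)).differentiableAt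
    have h10 := hq 1 0 (by decide)
    have h20 := hq 2 0 (by decide)
    have h21 := hq 2 1 (by decide)
    have hv0 := hv 0
    have hv1 := hv 1
    have hv2 := hv 2
    simp only [Pi.sub_apply] at h10 h20 h21
    fun_prop
  · intro t
    have hne : ∀ a b, a ≠ b → (x t).1 a - (x t).1 b ≠ 0 := fun a b hab =>
      sub_ne_zero.mpr ((hx t (mem_univ t)).1 a b hab)
    have hv := fun a => (hx.hasDerivAt_snd t a).norm_sq
    have hq := fun a b (hab : a ≠ b) => hasDerivAt_norm_inv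
      ((hx.hasDerivAt_fst t a).sub (hx.hasDerivAt_fst t b)) (hne a b hab)
    have h10 := hq 1 0 (by decide)
    have h20 := hq 2 0 (by decide)
    have h21 := hq 2 1 (by decide)
    have h := ((((hv 0).const_mul (m 0)).add ((hv 1).const_mul (m 1))).add
      ((hv 2).const_mul (m 2))).div_const 2 |>.sub
      (((h10.const_mul (m 0 * m 1)).add (h20.const_mul (m 0 * m 2))).add
        (h21.const_mul (m 1 * m 2)))
    apply HasDerivAt.deriv
    simp only [energy_eq]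
    refine HasDerivAt.congr_deriv h ?_
    simp only [acc_eq, Fin.sum_univ_three, Pi.sub_apply]
    have e01 : ‖(x t).1 0 - (x t).1 1‖ = ‖(x t).1 1 - (x t).1 0‖ := norm_sub_rev _ _
    have e02 : ‖(x t).1 0 - (x t).1 2‖ = ‖(x t).1 2 - (x t).1 0‖ := norm_sub_rev _ _
    have e12 : ‖(x t).1 1 - (x t).1 2‖ = ‖(x t).1 2 - (x t).1 1‖ := norm_sub_rev _ _
    rw [e01, e02, e12]
    simp only [inner_eq, Complex.add_re, Complex.add_im, Complex.sub_re, Complex.sub_im,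
      Complex.real_smul, Complex.mul_re, Complex.mul_im, Complex.ofReal_re, Complex.ofReal_im,
      sub_self, mul_zero, zero_mul, add_zero, zero_add, sub_zero]
    ring

end Pool.Agent.MP_5027f4_mp
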