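import Pool.Agent.Lib_MP_5027f4_mp.Deriv

/-!
# Persistence of nondegenerate twisted periodic orbits
-/

open Set Filter Topology Metric
open scoped NNReal Manifold ContDiff

namespace Pool.Agent.MP_5027f4_mp

set_option linter.unusedSectionVars false

section

variable {E : Type*} [NormedAddCommGroup E] [NormedSpace ℝ E] [FiniteDimensional ℝ E]

theorem antilipschitz_on {ℓ : E →L[ℝ] ℝ × ℝ} {W : Submodule ℝ E}
    (hW : ∀ w ∈ W, ℓ w = 0 → w = 0) : ∃ c > 0, ∀ w ∈ W, c * ‖w‖ ≤ ‖ℓ w‖ := by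
  have hk : LinearMap.ker ((ℓ : E →ₗ[ℝ] ℝ × ℝ).domRestrict W) = ⊥ := by
    rw [LinearMap.ker_eq_bot']
    intro w hw
    exact Subtype.ext (hW w w.2 hw)
  obtain ⟨K, hK, hKl⟩ := LinearMap.exists_antilipschitzWith _ hk
  refine ⟨(K : ℝ)⁻¹, by positivity, fun w hw => ?_⟩
  have h1 := hKl.le_mul_dist ⟨w, hw⟩ 0
  rw [dist_zero_right, map_zero, dist_zero_right] at h1
  change ‖w‖ ≤ K * ‖ℓ w‖ at h1
  rw [inv_mul_le_iff₀ (by exact_mod_cast hK)]
  exact h1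

theorem exists_twisted {F : E → E} {Ω : Set E} (hΩ : IsOpen Ω) (hF : ContDiffOn ℝ 2 F Ω)
    {x : ℝ → E} {T : ℝ} (hT : 0 ≤ T) (hx : Solves F Ω (Icc 0 T) x)
    {ρ : ℝ → E →L[ℝ] E} {ρ' : E →L[ℝ] E} (hρ : HasStrictDerivAt ρ ρ' 0) (hρx : ρ 0 (x T) = x 0)
    {h : E → ℝ × ℝ} {ℓ : E →L[ℝ] ℝ × ℝ} (hh : HasStrictFDerivAt h ℓ (x 0))
    (hℓ : LinearMap.range (ℓ : E →ₗ[ℝ] ℝ × ℝ) = ⊤)
    (hinv : ∀ θ y, Solves F Ω (Icc 0 T) y → h (ρ θ (y T)) = h (y 0))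
    {a b : E} (hker : ∀ J : ℝ → E, (∀ t ∈ Icc 0 T,
      HasDerivWithinAt J (fderiv ℝ F (x t) (J t)) (Icc 0 T) t) → ρ 0 (J T) = J 0 →
      ∃ α β : ℝ, J 0 = α • a + β • b)
    {ε : ℝ} (hε : 0 < ε) :
    ∀ᶠ θ in 𝓝 (0 : ℝ), ∃ y, Solves F Ω (Icc 0 T) y ∧ dist (y 0) (x 0) < ε ∧
      ρ θ (y T) = y 0 := by
  have hK : IsCompact (x '' Icc 0 T) := isCompact_Icc.image_of_continuousOn hx.continuousOn
  have hKΩ : x '' Icc 0 T ⊆ Ω := by
    rintro _ ⟨t, ht, rfl⟩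
    exact (hx t ht).1
  obtain ⟨G, V, hG, hGc, hVo, hKV, hVΩ, hGF⟩ := exists_cutoff hΩ hF hK hKΩ
  have hG1 : ContDiff ℝ 1 G := hG.of_le (by norm_num)
  obtain ⟨L, hL⟩ := hG1.lipschitzWith_of_hasCompactSupport hGc (by norm_num)
  obtain ⟨B₀, hB₀⟩ := hGc.exists_bound_of_continuous hG.continuous
  have hB : ∀ x, ‖G x‖ ≤ ((⟨max B₀ 0, le_max_right _ _⟩ : ℝ≥0) : ℝ) := fun x =>
    (hB₀ x).trans (le_max_left _ _)
  choose Y hY0 hY using fun p => exists_sol_of_lipschitz hL hB p hT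
  have hYs : ∀ p, Solves G univ (Icc 0 T) (Y p) := fun p t ht => ⟨mem_univ _, hY p t ht⟩
  have hxG : Solves G univ (Icc 0 T) x := fun t ht => ⟨mem_univ _, by
    rw [hGF _ (hKV ⟨t, ht, rfl⟩)]
    exact (hx t ht).2⟩
  have hTmem : T ∈ Icc 0 T := ⟨hT, le_rfl⟩
  have h0mem : (0 : ℝ) ∈ Icc 0 T := ⟨le_rfl, hT⟩
  have huniq : ∀ y : ℝ → E, Solves G univ (Icc 0 T) y → EqOn (Y (y 0)) y (Icc 0 T) := fun y hy =>
    (hYs (y 0)).eqOn_of_eq isOpen_univ hG1.contDiffOn hy (hY0 _)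
  set φ : E → E := fun p => Y p T with hφ
  have hφx : φ (x 0) = x T := huniq x hxG hTmem
  -- nearby solutions stay in `V`
  obtain ⟨r, hr, hrV⟩ := hK.exists_thickening_subset_open hVo hKV
  obtain ⟨δ₁, hδ₁, hnear⟩ := exists_near_forward isOpen_univ hG1.contDiffOn hT hxG hr
  have hYV : ∀ p, dist p (x 0) < δ₁ → ∀ t ∈ Icc 0 T, Y p t ∈ V := by
    intro p hp t ht
    obtain ⟨y, hy0, hy, hyx⟩ := hnear p hp
    have h1 := huniq y hy ht
    rw [hy0] at h1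
    rw [h1]
    exact hrV (mem_thickening_iff.mpr ⟨x t, ⟨t, ht, rfl⟩, hyx t ht⟩)
  have hYF : ∀ p, dist p (x 0) < δ₁ → Solves F Ω (Icc 0 T) (Y p) := by
    intro p hp t ht
    refine ⟨hVΩ (hYV p hp t ht), ?_⟩
    rw [← hGF _ (hYV p hp t ht)]
    exact hY p t ht
  -- the derivative of the time `T` map
  obtain ⟨A, hA0, hA⟩ := exists_fundamental hG hT hxG
  have hφd : HasStrictFDerivAt φ (A T) (x 0) := by
    rw [hasStrictFDerivAt_iff_isLittleO, Asymptotics.isLittleO_iff]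
    intro c hc
    obtain ⟨δ, hδ, hst⟩ := flow_strict hG hGc hT hxG hA0 hA hc
    have h1 : ∀ᶠ z in 𝓝 (x 0, x 0), dist z.1 (x 0) < δ := by
      have : Tendsto (fun z : E × E => dist z.1 (x 0)) (𝓝 (x 0, x 0)) (𝓝 0) := by
        have : Continuous fun z : E × E => dist z.1 (x 0) := by fun_prop
        simpa using this.tendsto (x 0, x 0)
      exact this.eventually (gt_mem_nhds hδ)
    have h2 : ∀ᶠ z in 𝓝 (x 0, x 0), dist z.2 (x 0) < δ := by
      have : Tendsto (fun z : E × E => dist z.2 (x 0)) (𝓝 (x 0, x 0)) (𝓝 0) := by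
        have : Continuous fun z : E × E => dist z.2 (x 0) := by fun_prop
        simpa using this.tendsto (x 0, x 0)
      exact this.eventually (gt_mem_nhds hδ)
    filter_upwards [h1, h2] with z hz1 hz2
    have h3 := hst (Y z.1) (Y z.2) (hYs _) (hYs _) (by rwa [hY0]) (by rwa [hY0])
    rwa [hY0, hY0] at h3
  have hφc : ContinuousAt φ (x 0) := hφd.continuousAt
  set B : E →L[ℝ] E := (ρ 0).comp (A T) with hB'
  have hBd : HasStrictFDerivAt (fun p => ρ 0 (φ p)) B (x 0) :=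
    (ρ 0).hasStrictFDerivAt.comp (x 0) hφd
  have hfix : ρ 0 (φ (x 0)) = x 0 := by rw [hφx, hρx]
  set M : E →L[ℝ] E := B - ContinuousLinearMap.id ℝ E with hM
  -- `ℓ` vanishes on the range of `M`
  have hℓB : ℓ.comp B = ℓ := by
    have h1 : HasFDerivAt (fun p => h (ρ 0 (φ p))) (ℓ.comp B) (x 0) := by
      have h2 : HasFDerivAt h ℓ (ρ 0 (φ (x 0))) := by
        rw [hfix]
        exact hh.hasFDerivAt
      exact h2.comp (x 0) hBd.hasFDerivAt
    have h3 : (fun p => h (ρ 0 (φ p))) =ᶠ[𝓝 (x 0)] h := by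
      filter_upwards [Metric.ball_mem_nhds (x 0) hδ₁] with p hp
      have := hinv 0 (Y p) (hYF p hp)
      rwa [hY0] at this
    exact (h1.congr_of_eventuallyEq h3.symm).unique hh.hasFDerivAt
  have hℓM : ∀ v, ℓ (M v) = 0 := by
    intro v
    have h1 := congrArg (fun f : E →L[ℝ] ℝ × ℝ => f v) hℓB
    simp only [ContinuousLinearMap.comp_apply] at h1
    rw [hM]
    simp [h1]
  -- the kernel of `M` is at most two dimensional
  have hkM : LinearMap.ker (M : E →ₗ[ℝ] E) ≤ Submodule.span ℝ {a, b} := by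
    intro j hj
    have hj' : M j = 0 := hj
    have h1 : ρ 0 (A T j) = j := by
      rw [hM, hB'] at hj'
      simpa [sub_eq_zero] using hj'
    obtain ⟨α, β, hαβ⟩ := hker (fun t => A t j) (fun t ht => by
      have h2 : HasDerivWithinAt (fun t => A t j) (fderiv ℝ G (x t) (A t j)) (Icc 0 T) t := by
        have := (hA t ht).clm_apply (hasDerivWithinAt_const t (Icc 0 T) j)
        simpa using this
      have h3 : fderiv ℝ G (x t) = fderiv ℝ F (x t) := by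
        apply Filter.EventuallyEq.fderiv_eq
        filter_upwards [hVo.mem_nhds (hKV ⟨t, ht, rfl⟩)] with z hz
        exact hGF z hz
      rw [h3] at h2
      exact h2) (by
      simp only [hA0]
      exact h1)
    simp only [hA0, ContinuousLinearMap.id_apply] at hαβ
    rw [hαβ]
    exact Submodule.mem_span_pair.mpr ⟨α, β, rfl⟩
  have hfk : Module.finrank ℝ (LinearMap.ker (M : E →ₗ[ℝ] E)) ≤ 2 := by
    refine (Submodule.finrank_mono hkM).trans ?_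
    classical
    have := finrank_span_finset_le_card (R := ℝ) ({a, b} : Finset E)
    rw [Set.finrank, Finset.coe_pair] at this
    exact this.trans Finset.card_le_two
  have hrange : LinearMap.range (M : E →ₗ[ℝ] E) = LinearMap.ker (ℓ : E →ₗ[ℝ] ℝ × ℝ) := by
    apply Submodule.eq_of_le_of_finrank_le
    · rintro _ ⟨v, rfl⟩
      exact hℓM v
    · have h1 := LinearMap.finrank_range_add_finrank_ker (M : E →ₗ[ℝ] E)
      have h2 := LinearMap.finrank_range_add_finrank_ker (ℓ : E →ₗ[ℝ] ℝ × ℝ)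
      rw [hℓ, finrank_top, Module.finrank_prod, Module.finrank_self] at h2
      omega
  -- the projection
  obtain ⟨W, hW⟩ := (LinearMap.ker (ℓ : E →ₗ[ℝ] ℝ × ℝ)).exists_isCompl
  set P : E →L[ℝ] (LinearMap.ker (ℓ : E →ₗ[ℝ] ℝ × ℝ)) :=
    LinearMap.toContinuousLinearMap (Submodule.projectionOnto _ W hW) with hP
  have hPk : ∀ (v : E) (hv : v ∈ LinearMap.ker (ℓ : E →ₗ[ℝ] ℝ × ℝ)), P v = ⟨v, hv⟩ := fun v hv =>
    Submodule.projectionOnto_apply_of_mem_left hW hv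
  have hPW : ∀ v, P v = 0 → v ∈ W := fun v hv =>
    (Submodule.projectionOnto_apply_eq_zero_iff hW).mp hv
  obtain ⟨c, hc, hcW⟩ := antilipschitz_on (ℓ := ℓ) (W := W) (fun w hw hw' =>
    (Submodule.disjoint_def.mp hW.disjoint) w hw' hw)
  -- the map
  have hgd : HasStrictFDerivAt (fun z : E × ℝ => ρ z.2 (φ z.1))
      ((ρ 0).comp ((A T).comp (ContinuousLinearMap.fst ℝ E ℝ)) +
        ((ContinuousLinearMap.smulRight (1 : ℝ →L[ℝ] ℝ) ρ').comp
          (ContinuousLinearMap.snd ℝ E ℝ)).flip (φ (x 0))) (x 0, 0) := by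
    have h1 : HasStrictFDerivAt (fun z : E × ℝ => ρ z.2)
        ((ContinuousLinearMap.smulRight (1 : ℝ →L[ℝ] ℝ) ρ').comp
          (ContinuousLinearMap.snd ℝ E ℝ)) (x 0, 0) :=
      HasStrictFDerivAt.comp (x 0, (0 : ℝ)) (g := ρ) (f := fun z : E × ℝ => z.2)
        hρ.hasStrictFDerivAt hasStrictFDerivAt_snd
    have h2 : HasStrictFDerivAt (fun z : E × ℝ => φ z.1)
        ((A T).comp (ContinuousLinearMap.fst ℝ E ℝ)) (x 0, 0) :=
      HasStrictFDerivAt.comp (x 0, (0 : ℝ)) (g := φ) (f := fun z : E × ℝ => z.1)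
        hφd hasStrictFDerivAt_fst
    exact h1.clm_apply h2
  have hgc : Tendsto (fun z : E × ℝ => ρ z.2 (φ z.1)) (𝓝 (x 0, 0)) (𝓝 (x 0)) := by
    have := hgd.continuousAt.tendsto
    simp only [hfix] at this
    exact this
  set D : E × ℝ →L[ℝ] E := ((ρ 0).comp ((A T).comp (ContinuousLinearMap.fst ℝ E ℝ)) +
        ((ContinuousLinearMap.smulRight (1 : ℝ →L[ℝ] ℝ) ρ').comp
          (ContinuousLinearMap.snd ℝ E ℝ)).flip (φ (x 0))) - ContinuousLinearMap.fst ℝ E ℝ with hD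
  have hDapp : ∀ v s, D (v, s) = M v + s • ρ' (φ (x 0)) := by
    intro v s
    rw [hD, hM, hB']
    simp
    abel
  have hΨ : HasStrictFDerivAt (fun z : E × ℝ => (P (ρ z.2 (φ z.1) - z.1), z.2))
      ((P.comp D).prod (ContinuousLinearMap.snd ℝ E ℝ)) (x 0, 0) :=
    (P.hasStrictFDerivAt.comp (x 0, (0 : ℝ)) (hgd.sub hasStrictFDerivAt_fst)).prodMk
      hasStrictFDerivAt_snd
  have hsurj : ((P.comp D).prod (ContinuousLinearMap.snd ℝ E ℝ)).range = ⊤ := by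
    rw [LinearMap.range_eq_top]
    rintro ⟨k, s⟩
    have h1 : ((k - s • P (ρ' (φ (x 0))) : LinearMap.ker (ℓ : E →ₗ[ℝ] ℝ × ℝ)) : E) ∈
        LinearMap.range (M : E →ₗ[ℝ] E) := by
      rw [hrange]
      exact Subtype.mem _
    obtain ⟨v, hv⟩ := h1
    have hv' : M v = ((k - s • P (ρ' (φ (x 0))) : LinearMap.ker (ℓ : E →ₗ[ℝ] ℝ × ℝ)) : E) := hv
    refine ⟨(v, s), ?_⟩
    change (P (D (v, s)), s) = (k, s)
    have h2 : P (M v) = k - s • P (ρ' (φ (x 0))) := by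
      rw [hv']
      exact hPk _ (Subtype.mem _)
    rw [hDapp, map_add, map_smul, h2, sub_add_cancel]
  have hmap := hΨ.map_nhds_eq_of_surj hsurj
  -- the neighbourhood
  have hstr := hh
  rw [hasStrictFDerivAt_iff_isLittleO, Asymptotics.isLittleO_iff] at hstr
  have hU1 : ∀ᶠ z in 𝓝 ((x 0, 0) : E × ℝ), dist z.1 (x 0) < min ε δ₁ := by
    have : Tendsto (fun z : E × ℝ => dist z.1 (x 0)) (𝓝 (x 0, 0)) (𝓝 0) := by
      have : Continuous fun z : E × ℝ => dist z.1 (x 0) := by fun_prop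
      simpa using this.tendsto (x 0, 0)
    exact this.eventually (gt_mem_nhds (by positivity))
  have hU2 : ∀ᶠ z in 𝓝 ((x 0, 0) : E × ℝ), ‖h (ρ z.2 (φ z.1)) - h z.1 -
      ℓ (ρ z.2 (φ z.1) - z.1)‖ ≤ c / 2 * ‖ρ z.2 (φ z.1) - z.1‖ := by
    have h1 : Tendsto (fun z : E × ℝ => (ρ z.2 (φ z.1), z.1)) (𝓝 (x 0, 0)) (𝓝 (x 0, x 0)) :=
      hgc.prodMk_nhds (continuous_fst.tendsto (x 0, (0 : ℝ)))
    exact h1.eventually (hstr (show 0 < c / 2 by positivity))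
  have himg : (fun z : E × ℝ => (P (ρ z.2 (φ z.1) - z.1), z.2)) ''
      {z | dist z.1 (x 0) < min ε δ₁ ∧ ‖h (ρ z.2 (φ z.1)) - h z.1 -
      ℓ (ρ z.2 (φ z.1) - z.1)‖ ≤ c / 2 * ‖ρ z.2 (φ z.1) - z.1‖} ∈
      𝓝 ((0, 0) : LinearMap.ker (ℓ : E →ₗ[ℝ] ℝ × ℝ) × ℝ) := by
    have h1 := image_mem_map (f := (𝓝 ((x 0, 0) : E × ℝ)))
      (m := fun z : E × ℝ => (P (ρ z.2 (φ z.1) - z.1), z.2)) (hU1.and hU2)
    rw [hmap] at h1
    simpa only [hfix, sub_self, map_zero] using h1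
  have hθ : Tendsto (fun θ : ℝ => ((0, θ) : LinearMap.ker (ℓ : E →ₗ[ℝ] ℝ × ℝ) × ℝ)) (𝓝 0)
      (𝓝 (0, 0)) := by
    have : Continuous (fun θ : ℝ => ((0, θ) : LinearMap.ker (ℓ : E →ₗ[ℝ] ℝ × ℝ) × ℝ)) := by
      fun_prop
    exact this.tendsto 0
  filter_upwards [hθ.eventually himg] with θ hθ'
  obtain ⟨⟨p, θ'⟩, ⟨hp1, hp2⟩, hpθ⟩ := hθ'
  simp only [Prod.mk.injEq] at hpθ hp1 hp2
  obtain ⟨hpθ1, rfl⟩ := hpθ
  have hpδ : dist p (x 0) < δ₁ := hp1.trans_le (min_le_right _ _)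
  have hinv' := hinv θ' (Y p) (hYF p hpδ)
  rw [hY0] at hinv'
  have hsW := hPW _ hpθ1
  have h3 := hcW _ hsW
  have hh' : h (ρ θ' (φ p)) = h p := hinv'
  rw [hh', sub_self, zero_sub, norm_neg] at hp2
  have h4 : ρ θ' (φ p) - p = 0 := by
    have h5 : c / 2 * ‖ρ θ' (φ p) - p‖ ≤ 0 := by linarith
    have h6 : ‖ρ θ' (φ p) - p‖ ≤ 0 := by
      by_contra hcon
      push Not at hcon
      have : 0 < c / 2 * ‖ρ θ' (φ p) - p‖ := by positivity
      linarith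
    exact norm_le_zero_iff.mp h6
  refine ⟨Y p, hYF p hpδ, ?_, ?_⟩
  · rw [hY0]
    exact hp1.trans_le (min_le_left _ _)
  · rw [hY0]
    exact sub_eq_zero.mp h4

end

end Pool.Agent.MP_5027f4_mp
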