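import Pool.Agent.Lib_MP_5027f4_mp.Lock
import Pool.Agent.Lib_MP_5027f4_mp.Persist

/-!
# Derivatives of the energy and of the angular momentum
-/

open Set Filter Topology Metric
open scoped RealInnerProductSpace ComplexConjugate

namespace Pool.Agent.MP_5027f4_mp

variable {m : Fin 3 → ℝ}

theorem hasDerivAt_comp_fst {c : ℝ → Ph} {c' : Ph} {t : ℝ} (h : HasDerivAt c c' t) (a : Fin 3) :
    HasDerivAt (fun t => (c t).1 a) (c'.1 a) t := by
  have h1 : HasDerivAt (fun t => (c t).1) c'.1 t :=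
    (hasFDerivAt_fst (𝕜 := ℝ) (p := c t)).comp_hasDerivAt t h
  exact hasDerivAt_pi.mp h1 a

theorem hasDerivAt_comp_snd {c : ℝ → Ph} {c' : Ph} {t : ℝ} (h : HasDerivAt c c' t) (a : Fin 3) :
    HasDerivAt (fun t => (c t).2 a) (c'.2 a) t := by
  have h1 : HasDerivAt (fun t => (c t).2) c'.2 t :=
    (hasFDerivAt_snd (𝕜 := ℝ) (p := c t)).comp_hasDerivAt t h
  exact hasDerivAt_pi.mp h1 a

theorem energy_curve {c : ℝ → Ph} {c' : Ph} {t : ℝ} (hc : HasDerivAt c c' t)
    (hn : c t ∈ noColl) : HasDerivAt (fun t => energy m (c t))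
      (∑ a, m a * (⟪(c t).2 a, c'.2 a⟫ - ⟪acc m (c t).1 a, c'.1 a⟫)) t := by
  have hne : ∀ a b, a ≠ b → (c t).1 a - (c t).1 b ≠ 0 := fun a b hab =>
    sub_ne_zero.mpr (hn a b hab)
  have hv := fun a => (hasDerivAt_comp_snd hc a).norm_sq
  have hq := fun a b (hab : a ≠ b) => hasDerivAt_norm_inv
    ((hasDerivAt_comp_fst hc a).sub (hasDerivAt_comp_fst hc b)) (hne a b hab)
  have h10 := hq 1 0 (by decide)
  have h20 := hq 2 0 (by decide)
  have h21 := hq 2 1 (by decide)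
  have h := ((((hv 0).const_mul (m 0)).add ((hv 1).const_mul (m 1))).add
    ((hv 2).const_mul (m 2))).div_const 2 |>.sub
    (((h10.const_mul (m 0 * m 1)).add (h20.const_mul (m 0 * m 2))).add
      (h21.const_mul (m 1 * m 2)))
  simp only [energy_eq]
  refine HasDerivAt.congr_deriv h ?_
  simp only [acc_eq, Fin.sum_univ_three, Pi.sub_apply]
  have e01 : ‖(c t).1 0 - (c t).1 1‖ = ‖(c t).1 1 - (c t).1 0‖ := norm_sub_rev _ _
  have e02 : ‖(c t).1 0 - (c t).1 2‖ = ‖(c t).1 2 - (c t).1 0‖ := norm_sub_rev _ _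
  have e12 : ‖(c t).1 1 - (c t).1 2‖ = ‖(c t).1 2 - (c t).1 1‖ := norm_sub_rev _ _
  rw [e01, e02, e12]
  simp only [inner_eq, Complex.add_re, Complex.add_im, Complex.sub_re, Complex.sub_im,
    Complex.real_smul, Complex.mul_re, Complex.mul_im, Complex.ofReal_re, Complex.ofReal_im,
    sub_self, mul_zero, zero_mul, add_zero, zero_add, sub_zero]
  ring

theorem contDiffAt_energy {p : Ph} (hp : p ∈ noColl) : ContDiffAt ℝ 1 (energy m) p := by
  have h : energy m = fun x : Ph =>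
    (m 0 * ‖x.2 0‖ ^ 2 + m 1 * ‖x.2 1‖ ^ 2 + m 2 * ‖x.2 2‖ ^ 2) / 2 -
      (m 0 * m 1 * ‖x.1 1 - x.1 0‖⁻¹ + m 0 * m 2 * ‖x.1 2 - x.1 0‖⁻¹ +
        m 1 * m 2 * ‖x.1 2 - x.1 1‖⁻¹) := funext fun x => energy_eq m x
  rw [h]
  have hv : ∀ a : Fin 3, ContDiffAt ℝ 1 (fun x : Ph => ‖x.2 a‖ ^ 2) p := fun a => by
    have h1 : ContDiffAt ℝ 1 (fun x : Ph => x.2 a) p := by fun_prop
    exact h1.norm_sq ℝ
  have hq : ∀ a b : Fin 3, a ≠ b → ContDiffAt ℝ 1 (fun x : Ph => ‖x.1 a - x.1 b‖⁻¹) p :=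
    fun a b hab => by
    have h1 : ContDiffAt ℝ 1 (fun x : Ph => x.1 a - x.1 b) p := by fun_prop
    have h0 : p.1 a - p.1 b ≠ 0 := sub_ne_zero.mpr (hp a b hab)
    exact (h1.norm ℂ h0).inv (norm_ne_zero_iff.mpr h0)
  have hv0 := hv 0
  have hv1 := hv 1
  have hv2 := hv 2
  have h10 := hq 1 0 (by decide)
  have h20 := hq 2 0 (by decide)
  have h21 := hq 2 1 (by decide)
  exact ((((contDiffAt_const.mul hv0).add (contDiffAt_const.mul hv1)).add
    (contDiffAt_const.mul hv2)).div_const 2).sub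
    (((contDiffAt_const.mul h10).add (contDiffAt_const.mul h20)).add (contDiffAt_const.mul h21))

theorem fderiv_energy {p : Ph} (hp : p ∈ noColl) (δ : Ph) :
    fderiv ℝ (energy m) p δ = ∑ a, m a * (⟪p.2 a, δ.2 a⟫ - ⟪acc m p.1 a, δ.1 a⟫) := by
  have hc : HasDerivAt (fun t : ℝ => p + t • δ) δ 0 := by
    simpa using ((hasDerivAt_id (0 : ℝ)).smul_const δ).const_add p
  have hp0 : p + (0 : ℝ) • δ = p := by simp
  have h1 := energy_curve (m := m) hc (by rw [hp0]; exact hp)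
  have hd : HasFDerivAt (energy m) (fderiv ℝ (energy m) p) (p + (0 : ℝ) • δ) := by
    rw [hp0]
    exact ((contDiffAt_energy hp).differentiableAt (by norm_num)).hasFDerivAt
  have h2 := hd.comp_hasDerivAt 0 hc
  have h3 := h2.unique h1
  rw [h3]
  simp only [hp0]

theorem amom_curve {c : ℝ → Ph} {c' : Ph} {t : ℝ} (hc : HasDerivAt c c' t) :
    HasDerivAt (fun t => amom m (c t))
      (∑ a, m a * (conj (c'.1 a) * (c t).2 a + conj ((c t).1 a) * c'.2 a).im) t := by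
  have h : ∀ a, HasDerivAt (fun t => m a * (conj ((c t).1 a) * (c t).2 a).im)
      (m a * (conj (c'.1 a) * (c t).2 a + conj ((c t).1 a) * c'.2 a).im) t := by
    intro a
    have h1 := (hasDerivAt_conj (hasDerivAt_comp_fst hc a)).mul (hasDerivAt_comp_snd hc a)
    have h2 : HasDerivAt (fun t => (conj ((c t).1 a) * (c t).2 a).im)
        (conj (c'.1 a) * (c t).2 a + conj ((c t).1 a) * c'.2 a).im t :=
      Complex.imCLM.hasFDerivAt.comp_hasDerivAt t h1
    exact h2.const_mul (m a)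
  exact HasDerivAt.fun_sum fun a _ => h a

theorem contDiff_amom : ContDiff ℝ 1 (amom m) := by
  unfold amom
  refine ContDiff.sum fun a _ => contDiff_const.mul ?_
  have h1 : ContDiff ℝ 1 (fun x : Ph => conj (x.1 a)) := by
    have : ContDiff ℝ 1 (fun x : Ph => Complex.conjCLE (x.1 a)) :=
      Complex.conjCLE.contDiff.comp (by fun_prop)
    exact this
  have h2 : ContDiff ℝ 1 (fun x : Ph => conj (x.1 a) * x.2 a) := h1.mul (by fun_prop)
  exact Complex.imCLM.contDiff.comp h2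

theorem fderiv_amom (p δ : Ph) :
    fderiv ℝ (amom m) p δ = ∑ a, m a * (conj (δ.1 a) * p.2 a + conj (p.1 a) * δ.2 a).im := by
  have hc : HasDerivAt (fun t : ℝ => p + t • δ) δ 0 := by
    simpa using ((hasDerivAt_id (0 : ℝ)).smul_const δ).const_add p
  have hp0 : p + (0 : ℝ) • δ = p := by simp
  have h1 := amom_curve (m := m) hc
  have hd : HasFDerivAt (amom m) (fderiv ℝ (amom m) p) (p + (0 : ℝ) • δ) := by
    rw [hp0]
    exact (contDiff_amom.differentiable (by norm_num) p).hasFDerivAt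
  have h2 := hd.comp_hasDerivAt 0 hc
  have h3 := h2.unique h1
  rw [h3]
  simp only [hp0]

theorem fderiv_energy_fld {p : Ph} (hp : p ∈ noColl) : fderiv ℝ (energy m) p (fld m p) = 0 := by
  rw [fderiv_energy hp]
  refine Finset.sum_eq_zero fun a _ => ?_
  have : ⟪p.2 a, (fld m p).2 a⟫ - ⟪acc m p.1 a, (fld m p).1 a⟫ = 0 := by
    change ⟪p.2 a, acc m p.1 a⟫ - ⟪acc m p.1 a, p.2 a⟫ = 0
    rw [real_inner_comm, sub_self]
  rw [this, mul_zero]

theorem fderiv_amom_fld (p : Ph) : fderiv ℝ (amom m) p (fld m p) = 0 := by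
  rw [fderiv_amom]
  change ∑ a, m a * (conj (p.2 a) * p.2 a + conj (p.1 a) * acc m p.1 a).im = 0
  have e01 : ‖p.1 0 - p.1 1‖ = ‖p.1 1 - p.1 0‖ := norm_sub_rev _ _
  have e02 : ‖p.1 0 - p.1 2‖ = ‖p.1 2 - p.1 0‖ := norm_sub_rev _ _
  have e12 : ‖p.1 1 - p.1 2‖ = ‖p.1 2 - p.1 1‖ := norm_sub_rev _ _
  simp only [acc_eq, Fin.sum_univ_three]
  rw [e01, e02, e12]
  simp only [Complex.add_re, Complex.add_im, Complex.sub_re, Complex.sub_im,
      Complex.real_smul, Complex.mul_re, Complex.mul_im, Complex.ofReal_re, Complex.ofReal_im,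
      Complex.conj_re, Complex.conj_im,
      sub_self, mul_zero, zero_mul, add_zero, zero_add, sub_zero]
  ring

/-- conservation on a compact interval -/
theorem const_of_fderiv {G : Type*} [NormedAddCommGroup G] [NormedSpace ℝ G] {f : Ph → G} {T : ℝ}
    {y : ℝ → Ph} (hy : Solves (fld m) noColl (Icc 0 T) y)
    (hf : ∀ p ∈ noColl, DifferentiableAt ℝ f p) (hf0 : ∀ p ∈ noColl, fderiv ℝ f p (fld m p) = 0)
    {s t : ℝ} (hs : s ∈ Icc 0 T) (ht : t ∈ Icc 0 T) : f (y t) = f (y s) := by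
  have h1 : ∀ u ∈ Icc 0 T, HasDerivWithinAt (fun u => f (y u)) 0 (Icc 0 T) u := by
    intro u hu
    have h2 := (hf _ (hy u hu).1).hasFDerivAt.comp_hasDerivWithinAt u (hy u hu).2
    rw [hf0 _ (hy u hu).1] at h2
    exact h2
  have h := (convex_Icc (0 : ℝ) T).norm_image_sub_le_of_norm_hasDerivWithin_le (C := 0) h1
    (fun _ _ => by simp) hs ht
  rw [zero_mul] at h
  exact sub_eq_zero.mp (norm_le_zero_iff.mp h)

theorem energy_rot {w : ℂ} (hw : ‖w‖ = 1) (p : Ph) : energy m (w • p) = energy m p := by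
  rw [energy_eq, energy_eq]
  have h1 : ∀ a, ‖(w • p).2 a‖ = ‖p.2 a‖ := fun a => by
    change ‖w * p.2 a‖ = _
    rw [norm_mul, hw, one_mul]
  have h2 : ∀ a b, ‖(w • p).1 a - (w • p).1 b‖ = ‖p.1 a - p.1 b‖ := fun a b => by
    change ‖w * p.1 a - w * p.1 b‖ = _
    rw [← mul_sub, norm_mul, hw, one_mul]
  simp only [h1, h2]

theorem amom_rot' {w : ℂ} (hw : ‖w‖ = 1) (p : Ph) : amom m (w • p) = amom m p := by
  have := amom_rot m (x := p) (y := w • p) (u := w) (u' := 0) hw (fun a => rfl)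
    (fun a => by
      change w * p.2 a = 0 * p.1 a + w * p.2 a
      rw [zero_mul, zero_add])
  rw [this, mul_zero, Complex.zero_im, mul_zero, zero_add]

end Pool.Agent.MP_5027f4_mp
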