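import Pool.Agent.Lib_MP_5027f4_mp.Rotation

open Set Filter Topology Metric
open scoped ComplexConjugate

namespace Pool.Agent.MP_5027f4_mp

/-- A rotation whose powers avoid a fixed arc has order at most some bound. -/
theorem circle_lock {w : ℂ} (hw : ‖w‖ = 1) {ρ : ℝ} (hρ : 0 < ρ) :
    ∃ N : ℕ, 0 < N ∧ ∀ u : ℂ, ‖u‖ = 1 → (∀ n : ℕ, ρ ≤ ‖u ^ n - w‖) → u ^ N = 1 := by
  obtain ⟨K, hK⟩ := exists_nat_gt (2 * Real.pi / ρ)
  have hπ := Real.pi_pos
  have hK0 : 0 < K := by
    have : (0 : ℝ) < K := lt_trans (by positivity) hK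
    exact_mod_cast this
  refine ⟨K.factorial, K.factorial_pos, fun u hu hav => ?_⟩
  have hu1 : u = Complex.exp (Complex.I * (Complex.arg u : ℝ)) := by
    have := Complex.norm_mul_exp_arg_mul_I u
    rw [hu, Complex.ofReal_one, one_mul, mul_comm] at this
    exact this.symm
  have hw1 : w = Complex.exp (Complex.I * (Complex.arg w : ℝ)) := by
    have := Complex.norm_mul_exp_arg_mul_I w
    rw [hw, Complex.ofReal_one, one_mul, mul_comm] at this
    exact this.symm
  obtain ⟨j, k, hk0, hkK, hjk⟩ := Real.exists_int_int_abs_mul_sub_le (Complex.arg u / (2 * Real.pi))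
    hK0
  set η : ℝ := k * (Complex.arg u / (2 * Real.pi)) - j with hη
  obtain ⟨k', rfl⟩ : ∃ k' : ℕ, k = k' := ⟨k.toNat, (Int.toNat_of_nonneg hk0.le).symm⟩
  have hk0' : 0 < k' := by exact_mod_cast hk0
  have hkK' : k' ≤ K := by exact_mod_cast hkK
  have hpow : ∀ n : ℕ, u ^ (k' * n) = Complex.exp (Complex.I * ((2 * Real.pi * η * n : ℝ))) := by
    intro n
    conv_lhs => rw [hu1]
    rw [← Complex.exp_nat_mul, Complex.exp_eq_exp_iff_exists_int]
    refine ⟨j * n, ?_⟩
    rw [hη]
    push_cast
    have : (Real.pi : ℂ) ≠ 0 := by exact_mod_cast hπ.ne'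
    field_simp
    ring
  by_cases hη0 : η = 0
  · have h1 := hpow 1
    rw [hη0] at h1
    simp only [mul_one, mul_zero, zero_mul, Complex.ofReal_zero, Complex.exp_zero] at h1
    obtain ⟨c, hc⟩ := Nat.dvd_factorial hk0' hkK'
    rw [hc, pow_mul, h1, one_pow]
  · exfalso
    -- an angle of `w` with the sign of `η`
    obtain ⟨b, hb, hbη⟩ : ∃ b : ℝ, w = Complex.exp (Complex.I * b) ∧ 0 ≤ b / (2 * Real.pi * η) := by
      have h1 := Complex.neg_pi_lt_arg w
      have h2 := Complex.arg_le_pi w
      rcases lt_or_gt_of_ne hη0 with h | h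
      · refine ⟨Complex.arg w - 2 * Real.pi, ?_, ?_⟩
        · conv_lhs => rw [hw1]
          rw [Complex.exp_eq_exp_iff_exists_int]
          refine ⟨1, ?_⟩
          push_cast
          ring
        · apply div_nonneg_of_nonpos
          · linarith
          · nlinarith
      · refine ⟨Complex.arg w + 2 * Real.pi, ?_, ?_⟩
        · conv_lhs => rw [hw1]
          rw [Complex.exp_eq_exp_iff_exists_int]
          refine ⟨-1, ?_⟩
          push_cast
          ring
        · apply div_nonneg
          · linarith
          · positivity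
    set n : ℕ := ⌊b / (2 * Real.pi * η)⌋₊ with hn
    have hn1 : (n : ℝ) ≤ b / (2 * Real.pi * η) := Nat.floor_le hbη
    have hn2 : b / (2 * Real.pi * η) < n + 1 := Nat.lt_floor_add_one _
    have hne : 2 * Real.pi * η ≠ 0 := by positivity
    have hdiff : |2 * Real.pi * η * n - b| ≤ 2 * Real.pi * |η| := by
      have : 2 * Real.pi * η * n - b = -(2 * Real.pi * η * (b / (2 * Real.pi * η) - n)) := by
        field_simp
        ring
      rw [this, abs_neg, abs_mul, abs_mul, abs_of_pos (by positivity : 0 < 2 * Real.pi)]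
      have h3 : |b / (2 * Real.pi * η) - n| ≤ 1 := by
        rw [abs_of_nonneg (by linarith)]
        linarith
      calc 2 * Real.pi * |η| * |b / (2 * Real.pi * η) - n| ≤ 2 * Real.pi * |η| * 1 :=
            mul_le_mul_of_nonneg_left h3 (by positivity)
        _ = 2 * Real.pi * |η| := mul_one _
    have h4 : ‖u ^ (k' * n) - w‖ ≤ 2 * Real.pi * |η| := by
      rw [hpow n, hb]
      have h5 : ∀ A B : ℝ, Complex.exp (Complex.I * (A : ℝ)) - Complex.exp (Complex.I * (B : ℝ)) =
          Complex.exp (Complex.I * (B : ℝ)) * (Complex.exp (Complex.I * ((A - B : ℝ))) - 1) := by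
        intro A B
        rw [mul_sub, ← Complex.exp_add, mul_one]
        congr 2
        rw [Complex.ofReal_sub]
        ring
      rw [h5, norm_mul, Complex.norm_exp_I_mul_ofReal, one_mul]
      exact (Real.norm_exp_I_mul_ofReal_sub_one_le).trans (by rwa [Real.norm_eq_abs])
    have h6 : 2 * Real.pi * |η| < ρ := by
      have h7 : 2 * Real.pi * |η| ≤ 2 * Real.pi * (1 / (K + 1)) :=
        mul_le_mul_of_nonneg_left hjk (by positivity)
      have h8 : 2 * Real.pi * (1 / (K + 1)) < ρ := by
        rw [mul_one_div, div_lt_iff₀ (by positivity)]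
        rw [div_lt_iff₀ hρ] at hK
        nlinarith
      linarith
    exact absurd (hav (k' * n)) (not_le.mpr (h4.trans_lt h6))

variable {m : Fin 3 → ℝ} {x y : ℝ → Ph}

/-- If every rotation of the phase point `x 0` lies on the orbit, then all mutual distances are
constant. -/
theorem const_of_rotation_invariant (hx : Solves (fld m) (frame m) univ x)
    (h : ∀ w : ℂ, ‖w‖ = 1 → w • x 0 ∈ range x) (a b : Fin 3) (t : ℝ) :
    ‖(x t).1 a - (x t).1 b‖ = ‖(x 0).1 a - (x 0).1 b‖ := by
  have hxΩ : Solves (fld m) noColl univ x := fun t ht => ⟨(hx t ht).1.1, (hx t ht).2⟩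
  have hxc : Continuous x := solution_continuous hx
  have huniq : ∀ {w : ℂ} {s : ℝ}, ‖w‖ = 1 → x s = w • x 0 → ∀ t, x (s + t) = w • x t := by
    intro w s hw hs t
    have h1 : Solves (fld m) noColl univ (fun s => w • x s) := fun s hs =>
      ⟨((hx.rotate hw) s hs).1.1, ((hx.rotate hw) s hs).2⟩
    exact congrFun ((hxΩ.shift s).eq_of_eq isOpen_noColl (contDiffOn_fld m) h1 (t₀ := 0)
      (by simpa using hs)) t
  -- the group of relative periods
  let G : AddSubgroup ℝ :=
    { carrier := {s | ∃ w : ℂ, ‖w‖ = 1 ∧ ∀ t, x (s + t) = w • x t}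
      zero_mem' := ⟨1, norm_one, fun t => by simp⟩
      add_mem' := by
        rintro s s' ⟨w, hw, h1⟩ ⟨w', hw', h2⟩
        refine ⟨w * w', by rw [norm_mul, hw, hw', mul_one], fun t => ?_⟩
        rw [add_assoc, h1, h2, mul_smul]
      neg_mem' := by
        rintro s ⟨w, hw, h1⟩
        have hw0 : w ≠ 0 := by
          rintro rfl
          simp at hw
        refine ⟨w⁻¹, by rw [norm_inv, hw, inv_one], fun t => ?_⟩
        have h2 := h1 (-s + t)
        rw [add_neg_cancel_left] at h2
        rw [h2, smul_smul, inv_mul_cancel₀ hw0, one_smul] }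
  have hG : ∀ s ∈ G, ∀ t, ‖(x (s + t)).1 a - (x (s + t)).1 b‖ = ‖(x t).1 a - (x t).1 b‖ := by
    rintro s ⟨w, hw, h1⟩ t
    rw [h1 t]
    change ‖w * (x t).1 a - w * (x t).1 b‖ = _
    rw [← mul_sub, norm_mul, hw, one_mul]
  have hdense : Dense (G : Set ℝ) := by
    rcases G.dense_or_cyclic with h1 | ⟨c, hc⟩
    · exact h1
    · exfalso
      -- then the set of unit complex numbers would be countable
      have hcount : (G : Set ℝ).Countable := by
        rw [hc]
        have : ((AddSubgroup.closure {c} : AddSubgroup ℝ) : Set ℝ) =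
            range (fun n : ℤ => n • c) := by
          ext z
          rw [SetLike.mem_coe, AddSubgroup.mem_closure_singleton]
          rfl
        rw [this]
        exact countable_range _
      obtain ⟨a', ha'⟩ : ∃ a', (x 0).1 a' ≠ 0 := by
        by_contra h2
        push Not at h2
        exact (hx 0 (mem_univ 0)).1.1 0 1 (by decide) (by rw [h2, h2])
      have hcirc : (sphere (0 : ℂ) 1).Countable := by
        have h3 : sphere (0 : ℂ) 1 ⊆ (fun s => (x s).1 a' / (x 0).1 a') '' (G : Set ℝ) := by
          intro w hw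
          have hw' : ‖w‖ = 1 := by simpa using hw
          obtain ⟨s, hs⟩ := h w hw'
          refine ⟨s, ⟨w, hw', huniq hw' hs⟩, ?_⟩
          change (x s).1 a' / (x 0).1 a' = w
          rw [hs]
          change w * (x 0).1 a' / (x 0).1 a' = w
          field_simp
        exact (hcount.image _).mono h3
      -- the circle is uncountable: it contains the injective image of an interval
      have h4 : (Icc (0 : ℝ) 1).Countable := by
        have h5 : InjOn (fun r : ℝ => Complex.exp (Complex.I * r)) (Icc 0 1) := by
          intro r hr r' hr' hrr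
          simp only at hrr
          rw [Complex.exp_eq_exp_iff_exists_int] at hrr
          obtain ⟨n, hn⟩ := hrr
          have hn' : (r : ℂ) = r' + n * (2 * Real.pi) := by
            have hI : Complex.I ≠ 0 := Complex.I_ne_zero
            apply mul_left_cancel₀ hI
            linear_combination hn
          have hn'' : r = r' + n * (2 * Real.pi) := by exact_mod_cast hn'
          have hπ := Real.pi_gt_three
          have hn0 : n = 0 := by
            by_contra hne
            have h6 : (1 : ℝ) ≤ |(n : ℝ)| := by exact_mod_cast Int.one_le_abs hne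
            have h7 : |r - r'| ≤ 1 := by
              rw [abs_le]
              constructor <;> linarith [hr.1, hr.2, hr'.1, hr'.2]
            have h8 : |r - r'| = |(n : ℝ)| * (2 * Real.pi) := by
              rw [hn'', add_sub_cancel_left, abs_mul, abs_of_pos (by positivity :
                0 < 2 * Real.pi)]
            nlinarith
          rw [hn0] at hn''
          simpa using hn''
        refine (countable_of_injective_of_countable_image h5 (hcirc.mono ?_))
        rintro _ ⟨r, -, rfl⟩
        simp [Complex.norm_exp_I_mul_ofReal]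
      have h9 := Cardinal.mk_Icc_real (zero_lt_one (α := ℝ))
      have h10 := Cardinal.le_aleph0_iff_set_countable.mpr h4
      rw [h9] at h10
      exact absurd h10 (not_le.mpr Cardinal.aleph0_lt_continuum)
  -- conclude by density
  have hcont : Continuous (fun s => ‖(x s).1 a - (x s).1 b‖) := by fun_prop
  have heq : (fun s => ‖(x s).1 a - (x s).1 b‖) = fun _ => ‖(x 0).1 a - (x 0).1 b‖ := by
    apply Continuous.ext_on hdense hcont continuous_const
    intro s hs
    have := hG s hs 0
    rw [add_zero] at this
    exact this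
  exact congrFun heq t

end Pool.Agent.MP_5027f4_mp
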