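import Pool.Agent.Lib_MP_5027f4_mp.Concat

/-!
# Nondegenerate relative periodic orbits are not Lyapunov stable
-/

open Set Filter Topology Metric
open scoped RealInnerProductSpace ComplexConjugate

namespace Pool.Agent.MP_5027f4_mp

variable {m : Fin 3 → ℝ} {x y : ℝ → Ph}

/-- the center-of-mass subspace -/
noncomputable def comSub (m : Fin 3 → ℝ) : Submodule ℂ Ph where
  carrier := {p | ∑ a, m a • p.1 a = 0 ∧ ∑ a, m a • p.2 a = 0}
  zero_mem' := by simp
  add_mem' := by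
    rintro p q ⟨h1, h2⟩ ⟨h3, h4⟩
    constructor
    · simp only [Prod.fst_add, Pi.add_apply, smul_add, Finset.sum_add_distrib, h1, h3, add_zero]
    · simp only [Prod.snd_add, Pi.add_apply, smul_add, Finset.sum_add_distrib, h2, h4, add_zero]
  smul_mem' := by
    rintro c p ⟨h1, h2⟩
    have hs : ∀ z : Fin 3 → ℂ, ∑ a, m a • z a = 0 → ∑ a, m a • (c • z) a = 0 := by
      intro z hz
      have : ∑ a, m a • (c • z) a = c * ∑ a, m a • z a := by
        rw [Finset.mul_sum]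
        refine Finset.sum_congr rfl fun a _ => ?_
        rw [Pi.smul_apply, smul_eq_mul, mul_smul_comm]
      rw [this, hz, mul_zero]
    exact ⟨hs _ h1, hs _ h2⟩

theorem mem_comSub {p : Ph} : p ∈ comSub m ↔ ∑ a, m a • p.1 a = 0 ∧ ∑ a, m a • p.2 a = 0 :=
  Iff.rfl

theorem fld_mem {p : Ph} (hp : p ∈ comSub m) : fld m p ∈ comSub m := ⟨hp.2, sum_acc m p.1⟩

/-- the reduced field -/
noncomputable def fld₀ (m : Fin 3 → ℝ) (z : comSub m) : comSub m := ⟨fld m z, fld_mem z.2⟩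

/-- collision free points of the subspace -/
def noColl₀ (m : Fin 3 → ℝ) : Set (comSub m) := {z | (z : Ph) ∈ noColl}

theorem contDiffOn_fld2 (m : Fin 3 → ℝ) : ContDiffOn ℝ 2 (fld m) noColl := by
  intro x hx
  apply ContDiffAt.contDiffWithinAt
  refine contDiffAt_snd.prodMk ?_
  rw [contDiffAt_pi]
  intro a
  refine ContDiffAt.sum ?_
  intro b hb
  have hba : b ≠ a := (Finset.mem_erase.mp hb).1
  have hne : x.1 b - x.1 a ≠ 0 := sub_ne_zero.mpr (hx b a hba)
  have h1 : ContDiffAt ℝ 2 (fun y : Ph => y.1 b - y.1 a) x := by fun_prop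
  have h2 : ContDiffAt ℝ 2 (fun y : Ph => ‖y.1 b - y.1 a‖) x := h1.norm ℂ hne
  have h3 : ContDiffAt ℝ 2 (fun y : Ph => m b / ‖y.1 b - y.1 a‖ ^ 3) x :=
    contDiffAt_const.div (h2.pow 3) (pow_ne_zero 3 (norm_ne_zero_iff.mpr hne))
  exact h3.smul h1

/-- the inclusion as a continuous linear map -/
noncomputable def incl (m : Fin 3 → ℝ) : comSub m →L[ℝ] Ph :=
  (comSub m).subtypeL.restrictScalars ℝ

theorem incl_apply (z : comSub m) : incl m z = (z : Ph) := rfl

theorem exists_proj (m : Fin 3 → ℝ) : ∃ π : Ph →L[ℝ] comSub m, ∀ z : comSub m, π z = z := by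
  have hinj : LinearMap.ker ((incl m : comSub m →L[ℝ] Ph) : comSub m →ₗ[ℝ] Ph) = ⊥ := by
    rw [LinearMap.ker_eq_bot]
    exact Subtype.val_injective
  obtain ⟨g, hg⟩ := LinearMap.exists_leftInverse_of_injective _ hinj
  exact ⟨LinearMap.toContinuousLinearMap g, fun z => congrArg (fun f => f z) hg⟩

theorem contDiffOn_fld₀ (m : Fin 3 → ℝ) : ContDiffOn ℝ 2 (fld₀ m) (noColl₀ m) := by
  obtain ⟨π, hπ⟩ := exists_proj m
  have h : fld₀ m = fun z => π (fld m (incl m z)) := by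
    funext z
    rw [incl_apply]
    exact (hπ ⟨fld m z, fld_mem z.2⟩).symm
  rw [h]
  exact π.contDiff.comp_contDiffOn
    ((contDiffOn_fld2 m).comp (incl m).contDiff.contDiffOn (fun z hz => hz))

theorem isOpen_noColl₀ (m : Fin 3 → ℝ) : IsOpen (noColl₀ m) :=
  isOpen_noColl.preimage continuous_subtype_val

theorem coe_fderiv_fld₀ {z : comSub m} (hz : z ∈ noColl₀ m) (j : comSub m) :
    ((fderiv ℝ (fld₀ m) z j : comSub m) : Ph) = fderiv ℝ (fld m) (z : Ph) (j : Ph) := by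
  have h1 : HasFDerivAt (fld₀ m) (fderiv ℝ (fld₀ m) z) z :=
    (((contDiffOn_fld₀ m).contDiffAt ((isOpen_noColl₀ m).mem_nhds hz)).differentiableAt
      (by norm_num)).hasFDerivAt
  have h2 : HasFDerivAt (fun w => incl m (fld₀ m w)) ((incl m).comp (fderiv ℝ (fld₀ m) z)) z :=
    (incl m).hasFDerivAt.comp z h1
  have h3 : HasFDerivAt (fld m) (fderiv ℝ (fld m) (z : Ph)) (incl m z) :=
    (((contDiffOn_fld2 m).contDiffAt (isOpen_noColl.mem_nhds hz)).differentiableAt
      (by norm_num)).hasFDerivAt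
  have h4 : HasFDerivAt (fun w => fld m (incl m w)) ((fderiv ℝ (fld m) (z : Ph)).comp (incl m)) z :=
    h3.comp z (incl m).hasFDerivAt
  have h5 := h2.unique h4
  exact congrArg (fun f => f j) h5

theorem frame_of_mem {z : comSub m} (hz : z ∈ noColl₀ m) : (z : Ph) ∈ frame m :=
  ⟨hz, z.2.1, z.2.2⟩

/-- a solution in the subspace gives a solution in the frame -/
theorem Solves.coe {s : Set ℝ} {y : ℝ → comSub m} (hy : Solves (fld₀ m) (noColl₀ m) s y) :
    Solves (fld m) (frame m) s (fun t => (y t : Ph)) := fun t ht =>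
  ⟨frame_of_mem (hy t ht).1, (incl m).hasFDerivAt.comp_hasDerivWithinAt t (hy t ht).2⟩

/-- a solution in the frame gives a solution in the subspace -/
theorem Solves.lift {s : Set ℝ} {X : ℝ → comSub m}
    (hx : Solves (fld m) (frame m) s (fun t => (X t : Ph))) :
    Solves (fld₀ m) (noColl₀ m) s X := by
  obtain ⟨π, hπ⟩ := exists_proj m
  intro t ht
  refine ⟨(hx t ht).1.1, ?_⟩
  have h1 := π.hasFDerivAt.comp_hasDerivWithinAt t (hx t ht).2
  have h2 : (fun t => π (X t : Ph)) = X := funext fun t => hπ (X t)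
  have h3 : π (fld m (X t : Ph)) = fld₀ m (X t) := hπ ⟨fld m (X t), fld_mem (X t).2⟩
  rw [← h3]
  have h4 : HasDerivWithinAt (fun t => π (X t : Ph)) (π (fld m (X t : Ph))) s t := h1
  rw [h2] at h4
  exact h4

/-- **Nondegenerate relative periodic orbits are not Lyapunov stable.** -/
theorem not_stable_of_nondegenerate (hm : ∀ a, 0 < m a) (hx : Solves (fld m) (frame m) univ x)
    {T : ℝ} (hT : 0 < T) {u : ℂ} (hu : ‖u‖ = 1) (hxu : ∀ t, x (t + T) = u • x t)
    (hnc : ¬ ∀ a b t, ‖(x t).1 a - (x t).1 b‖ = ‖(x 0).1 a - (x 0).1 b‖)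
    (hnd : ∀ J : ℝ → Ph, (∀ t ∈ Icc 0 T, J t ∈ comSub m ∧
      HasDerivWithinAt J (fderiv ℝ (fld m) (x t) (J t)) (Icc 0 T) t) → J T = u • J 0 →
      ∃ α β : ℝ, J 0 = α • fld m (x 0) + β • (Complex.I • x 0)) :
    ¬ LyapunovStable m (range x) := by
  intro hst
  have hu0 : u ≠ 0 := by
    rintro rfl
    simp at hu
  have hxc : Continuous x := solution_continuous hx
  -- the orbit is bounded, hence periodic
  have hdist : ∀ a b, ∃ T > 0, ∀ t, ‖(x (t + T)).1 a - (x (t + T)).1 b‖ =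
      ‖(x t).1 a - (x t).1 b‖ := fun a b => ⟨T, hT, fun t => by
    rw [hxu t]
    change ‖u * (x t).1 a - u * (x t).1 b‖ = _
    rw [← mul_sub, norm_mul, hu, one_mul]⟩
  obtain ⟨r, hr, R, hxr, hxR⟩ := bounds_of_periodic (m := m) hx hdist
  obtain ⟨P, hP, hper⟩ := periodic_of_lyapunovStable hm hx hr hxr hxR hst
  obtain ⟨N, hN, U, hU, hxU, hlock⟩ := lock_arc hx hP hper hst hnc
  obtain ⟨ε, hε, hball⟩ := Metric.isOpen_iff.mp hU (x 0) (hxU (mem_range_self 0))
  -- the orbit in the subspace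
  have hxmem : ∀ t, x t ∈ comSub m := fun t => (hx t (mem_univ t)).1.2
  set X : ℝ → comSub m := fun t => ⟨x t, hxmem t⟩ with hX
  have hXs : Solves (fld₀ m) (noColl₀ m) (Icc 0 T) X :=
    Solves.lift (hx.mono (subset_univ _))
  -- the rotations
  set c : ℝ → ℂ := fun θ => Complex.exp (-(θ * Complex.I)) * u⁻¹ with hc
  have hcn : ∀ θ, ‖c θ‖ = 1 := fun θ => by
    have : -((θ : ℂ) * Complex.I) = ((-θ : ℝ) : ℂ) * Complex.I := by push_cast; ring
    rw [hc]
    simp only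
    rw [norm_mul, norm_inv, hu, this, Complex.norm_exp_ofReal_mul_I]
    norm_num
  have hcd : HasStrictDerivAt c (c 0 * -Complex.I) 0 := by
    have h1 : ContDiff ℝ 1 c := by
      rw [hc]
      exact ((Complex.ofRealCLM.contDiff.mul contDiff_const).neg.cexp).mul contDiff_const
    have h2 : HasDerivAt c (c 0 * -Complex.I) 0 := by
      have h3 : HasDerivAt (fun θ : ℝ => -((θ : ℂ) * Complex.I)) (-(1 * Complex.I)) 0 :=
        ((Complex.ofRealCLM.hasDerivAt (x := (0 : ℝ))).mul_const Complex.I).neg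
      have h4 := h3.cexp.mul_const u⁻¹
      refine h4.congr_deriv ?_
      rw [hc]
      simp only [one_mul]
      ring
    have h5 := h1.contDiffAt.hasStrictFDerivAt (x := (0 : ℝ)) (by norm_num)
    have h6 : HasStrictDerivAt c (deriv c 0) 0 := by
      have := h5.hasStrictDerivAt
      simpa using this
    rwa [h2.deriv] at h6
  set ρ : ℝ → comSub m →L[ℝ] comSub m := fun θ => c θ • ContinuousLinearMap.id ℝ (comSub m)
    with hρ
  have hρd : HasStrictDerivAt ρ ((c 0 * -Complex.I) • ContinuousLinearMap.id ℝ (comSub m)) 0 := by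
    set Λ : ℂ →L[ℝ] (comSub m →L[ℝ] comSub m) := LinearMap.toContinuousLinearMap
      { toFun := fun z => z • ContinuousLinearMap.id ℝ (comSub m)
        map_add' := fun z w => ContinuousLinearMap.ext fun v => add_smul z w v
        map_smul' := fun r z => ContinuousLinearMap.ext fun v => smul_assoc r z v } with hΛ
    have hΛd : HasStrictFDerivAt (𝕜 := ℝ) (F := comSub m →L[ℝ] comSub m) (fun z => Λ z) Λ (c 0) :=
      ContinuousLinearMap.hasStrictFDerivAt (F := comSub m →L[ℝ] comSub m) Λ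
    exact HasStrictFDerivAt.comp_hasStrictDerivAt (𝕜 := ℝ) (F := ℂ)
      (E := comSub m →L[ℝ] comSub m) (l := fun z => Λ z) (l' := Λ) (0 : ℝ) hΛd hcd
  have hc0 : c 0 = u⁻¹ := by simp [hc]
  have hρcoe : ∀ θ (z : comSub m), ((ρ θ z : comSub m) : Ph) = c θ • (z : Ph) := fun θ z => rfl
  have hρX : ρ 0 (X T) = X 0 := by
    apply Subtype.ext
    rw [hρcoe, hc0]
    have h1 := hxu 0
    rw [zero_add] at h1
    change u⁻¹ • x T = x 0
    rw [h1, smul_smul, inv_mul_cancel₀ hu0, one_smul]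
  -- the integrals
  set h : comSub m → ℝ × ℝ := fun z => (energy m z, amom m z) with hh
  set ℓ : comSub m →L[ℝ] ℝ × ℝ :=
    ((fderiv ℝ (energy m) (x 0)).comp (incl m)).prod ((fderiv ℝ (amom m) (x 0)).comp (incl m))
    with hℓ
  have hx0 : x 0 ∈ frame m := (hx 0 (mem_univ 0)).1
  have hhd : HasStrictFDerivAt h ℓ (X 0) := by
    have h1 : HasStrictFDerivAt (energy m) (fderiv ℝ (energy m) (x 0)) (incl m (X 0)) :=
      (contDiffAt_energy hx0.1).hasStrictFDerivAt (by norm_num)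
    have h2 : HasStrictFDerivAt (amom m) (fderiv ℝ (amom m) (x 0)) (incl m (X 0)) :=
      contDiff_amom.contDiffAt.hasStrictFDerivAt (by norm_num)
    exact (h1.comp (X 0) (incl m).hasStrictFDerivAt).prodMk
      (h2.comp (X 0) (incl m).hasStrictFDerivAt)
  have hℓs : LinearMap.range (ℓ : comSub m →ₗ[ℝ] ℝ × ℝ) = ⊤ := by
    by_contra hne
    obtain ⟨f, hf, hfr⟩ := Submodule.exists_le_ker_of_lt_top _ (lt_top_iff_ne_top.mpr hne)
    have hf2 : ∀ v : ℝ × ℝ, f v = f (1, 0) * v.1 + f (0, 1) * v.2 := by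
      intro v
      have : v = v.1 • ((1, 0) : ℝ × ℝ) + v.2 • ((0, 1) : ℝ × ℝ) := by
        ext <;> simp
      conv_lhs => rw [this]
      rw [map_add, map_smul, map_smul, smul_eq_mul, smul_eq_mul]
      ring
    have hαβ : ¬ (f (1, 0) = 0 ∧ f (0, 1) = 0) := by
      rintro ⟨h1, h2⟩
      apply hf
      apply LinearMap.ext
      intro v
      rw [hf2, h1, h2]
      simp
    obtain ⟨δ, hδ1, hδ2, hδ⟩ := exists_dir hm hx0 (fun ⟨μ, hμ⟩ =>
      hnc fun a b t => const_of_releq hx hμ a b t) hαβ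
    apply hδ
    have h1 : ℓ ⟨δ, hδ1, hδ2⟩ ∈ LinearMap.range (ℓ : comSub m →ₗ[ℝ] ℝ × ℝ) := ⟨_, rfl⟩
    have h2 := hfr h1
    rw [LinearMap.mem_ker, hf2] at h2
    exact h2
  have hinv : ∀ θ (y : ℝ → comSub m), Solves (fld₀ m) (noColl₀ m) (Icc 0 T) y →
      h (ρ θ (y T)) = h (y 0) := by
    intro θ y hy
    have hy' : Solves (fld m) noColl (Icc 0 T) (fun t => (y t : Ph)) := fun t ht =>
      ⟨(hy.coe t ht).1.1, (hy.coe t ht).2⟩
    have h0 : (0 : ℝ) ∈ Icc 0 T := ⟨le_rfl, hT.le⟩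
    have hT' : T ∈ Icc 0 T := ⟨hT.le, le_rfl⟩
    rw [hh]
    simp only [hρcoe]
    rw [energy_rot (hcn θ), amom_rot' (hcn θ)]
    refine Prod.ext ?_ ?_
    · exact const_of_fderiv (f := energy m) hy'
        (fun p hp => (contDiffAt_energy hp).differentiableAt (by norm_num))
        (fun p hp => fderiv_energy_fld hp) h0 hT'
    · exact const_of_fderiv (f := amom m) hy'
        (fun p _ => contDiff_amom.differentiable (by norm_num) p)
        (fun p _ => fderiv_amom_fld p) h0 hT'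
  have hIx : Complex.I • x 0 ∈ comSub m := (comSub m).smul_mem _ (hxmem 0)
  have hker : ∀ J : ℝ → comSub m, (∀ t ∈ Icc 0 T,
      HasDerivWithinAt J (fderiv ℝ (fld₀ m) (X t) (J t)) (Icc 0 T) t) → ρ 0 (J T) = J 0 →
      ∃ α β : ℝ, J 0 = α • (⟨fld m (x 0), fld_mem (hxmem 0)⟩ : comSub m) +
        β • (⟨Complex.I • x 0, hIx⟩ : comSub m) := by
    intro J hJ hJT
    obtain ⟨α, β, hαβ⟩ := hnd (fun t => (J t : Ph)) (fun t ht => by
      refine ⟨(J t).2, ?_⟩
      have h1 := (incl m).hasFDerivAt.comp_hasDerivWithinAt t (hJ t ht)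
      refine h1.congr_deriv ?_
      exact coe_fderiv_fld₀ (hXs t ht).1 (J t)) (by
      have h1 := congrArg (fun z : comSub m => (z : Ph)) hJT
      simp only [hρcoe, hc0] at h1
      rw [← h1, smul_smul, mul_inv_cancel₀ hu0, one_smul])
    exact ⟨α, β, Subtype.ext hαβ⟩
  have hfin : FiniteDimensional ℝ (comSub m) := Module.Finite.trans ℂ (comSub m)
  have hev := exists_twisted (isOpen_noColl₀ m) (contDiffOn_fld₀ m) hT.le hXs hρd hρX hhd hℓs
    hinv hker hε
  -- all nearby rotations satisfy `w ^ N = 1`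
  have hwN : ∀ᶠ θ in 𝓝 (0 : ℝ), (c θ)⁻¹ ^ N = 1 := by
    filter_upwards [hev] with θ hθ
    obtain ⟨y, hy, hyx, hyθ⟩ := hθ
    have hcθ : c θ ≠ 0 := by
      rw [← norm_ne_zero_iff, hcn]
      exact one_ne_zero
    apply hlock T hT (c θ)⁻¹ (by rw [norm_inv, hcn, inv_one]) (fun t => (y t : Ph)) hy.coe
    · exact hball hyx
    · have h1 : c θ • ((y T : comSub m) : Ph) = (y 0 : Ph) := by rw [← hρcoe, hyθ]
      change ((y T : comSub m) : Ph) = (c θ)⁻¹ • ((y 0 : comSub m) : Ph)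
      rw [← h1, smul_smul, inv_mul_cancel₀ hcθ, one_smul]
  -- differentiate at `0`
  have hder : HasDerivAt (fun θ => (c θ) ^ N) 0 0 := by
    refine (hasDerivAt_const (0 : ℝ) (1 : ℂ)).congr_of_eventuallyEq ?_
    filter_upwards [hwN] with θ hθ
    rw [inv_pow, inv_eq_one] at hθ
    exact hθ
  have hder2 := hcd.hasDerivAt.fun_pow N
  have h1 := hder.unique hder2
  have hc0' : c 0 ≠ 0 := by
    rw [hc0]
    exact inv_ne_zero hu0
  have hN' : (N : ℂ) ≠ 0 := by exact_mod_cast hN.ne'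
  have h2 : (N : ℂ) * c 0 ^ (N - 1) * (c 0 * -Complex.I) ≠ 0 :=
    mul_ne_zero (mul_ne_zero hN' (pow_ne_zero _ hc0'))
      (mul_ne_zero hc0' (neg_ne_zero.mpr Complex.I_ne_zero))
  exact h2 h1.symm

end Pool.Agent.MP_5027f4_mp
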