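import Pool.Agent.Lib_MP_5027f4_mp.Bounded

open Set Filter Topology Metric
open scoped ComplexConjugate

namespace Pool.Agent.MP_5027f4_mp

/-- the angular momentum -/
noncomputable def amom (m : Fin 3 → ℝ) (x : Ph) : ℝ := ∑ a, m a * (conj (x.1 a) * x.2 a).im

/-- the moment of inertia -/
noncomputable def inertia (m : Fin 3 → ℝ) (x : Ph) : ℝ := ∑ a, m a * Complex.normSq (x.1 a)

theorem acc_smul (m : Fin 3 → ℝ) {u : ℂ} (hu : ‖u‖ = 1) (q : Fin 3 → ℂ) (a : Fin 3) :
    acc m (fun a => u * q a) a = u * acc m q a := by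
  simp only [acc_eq, Finset.mul_sum]
  refine Finset.sum_congr rfl fun b _ => ?_
  rw [← mul_sub, norm_mul, hu, one_mul, mul_smul_comm]

theorem acc_conj (m : Fin 3 → ℝ) (q : Fin 3 → ℂ) (a : Fin 3) :
    acc m (fun a => conj (q a)) a = conj (acc m q a) := by
  simp only [acc_eq, map_sum]
  refine Finset.sum_congr rfl fun b _ => ?_
  rw [← map_sub, RCLike.norm_conj, Complex.real_smul, Complex.real_smul, map_mul,
    Complex.conj_ofReal]

theorem Solves.rotate {m : Fin 3 → ℝ} {x : ℝ → Ph} (hx : Solves (fld m) (frame m) univ x) {u : ℂ}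
    (hu : ‖u‖ = 1) : Solves (fld m) (frame m) univ (fun t => u • x t) := by
  have hu0 : u ≠ 0 := by
    rintro rfl
    simp at hu
  intro t ht
  obtain ⟨h1, h2, h3⟩ := (hx t ht).1
  have hs : ∀ z : Fin 3 → ℂ, ∑ a, m a • z a = 0 → ∑ a, m a • (u • z) a = 0 := by
    intro z hz
    have : ∑ a, m a • (u • z) a = u * ∑ a, m a • z a := by
      rw [Finset.mul_sum]
      refine Finset.sum_congr rfl fun a _ => ?_
      rw [Pi.smul_apply, smul_eq_mul, mul_smul_comm]
    rw [this, hz, mul_zero]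
  refine ⟨⟨fun a b hab h => h1 a b hab (mul_left_cancel₀ hu0 h), hs _ h2, hs _ h3⟩, ?_⟩
  have h4 := (hx t ht).2.const_smul u
  have h5 : fld m (u • x t) = u • fld m (x t) := by
    refine Prod.ext rfl ?_
    funext a
    exact acc_smul m hu (x t).1 a
  change HasDerivWithinAt (fun t => u • x t) (fld m (u • x t)) univ t
  rw [h5]
  exact h4

theorem hasDerivAt_conj {f : ℝ → ℂ} {f' : ℂ} {t : ℝ} (h : HasDerivAt f f' t) :
    HasDerivAt (fun t => conj (f t)) (conj f') t := h.star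

theorem amom_const {m : Fin 3 → ℝ} {x : ℝ → Ph} (hx : Solves (fld m) (frame m) univ x)
    (s t : ℝ) : amom m (x s) = amom m (x t) := by
  have hder : ∀ t, HasDerivAt (fun t => amom m (x t))
      (∑ a, m a * (conj ((x t).2 a) * (x t).2 a + conj ((x t).1 a) * acc m (x t).1 a).im) t := by
    intro t
    have h : ∀ a, HasDerivAt (fun t => m a * (conj ((x t).1 a) * (x t).2 a).im)
        (m a * (conj ((x t).2 a) * (x t).2 a + conj ((x t).1 a) * acc m (x t).1 a).im) t := by
      intro a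
      have h1 := (hasDerivAt_conj (hx.hasDerivAt_fst t a)).mul (hx.hasDerivAt_snd t a)
      have h2 : HasDerivAt (fun t => (conj ((x t).1 a) * (x t).2 a).im)
          (conj ((x t).2 a) * (x t).2 a + conj ((x t).1 a) * acc m (x t).1 a).im t :=
        Complex.imCLM.hasFDerivAt.comp_hasDerivAt t h1
      exact h2.const_mul (m a)
    exact HasDerivAt.fun_sum fun a _ => h a
  refine is_const_of_deriv_eq_zero (𝕜 := ℝ) (f := fun t => amom m (x t))
    (fun t => (hder t).differentiableAt) (fun t => ?_) s t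
  rw [(hder t).deriv]
  have e01 : ‖(x t).1 0 - (x t).1 1‖ = ‖(x t).1 1 - (x t).1 0‖ := norm_sub_rev _ _
  have e02 : ‖(x t).1 0 - (x t).1 2‖ = ‖(x t).1 2 - (x t).1 0‖ := norm_sub_rev _ _
  have e12 : ‖(x t).1 1 - (x t).1 2‖ = ‖(x t).1 2 - (x t).1 1‖ := norm_sub_rev _ _
  simp only [acc_eq, Fin.sum_univ_three]
  rw [e01, e02, e12]
  simp only [Complex.add_re, Complex.add_im, Complex.sub_re, Complex.sub_im,
      Complex.real_smul, Complex.mul_re, Complex.mul_im, Complex.ofReal_re, Complex.ofReal_im,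
      Complex.conj_re, Complex.conj_im,
      sub_self, mul_zero, zero_mul, add_zero, zero_add, sub_zero]
  ring

/-- (twice) the oriented area of the triangle -/
noncomputable def area (x : Ph) : ℝ := (conj (x.1 1 - x.1 0) * (x.1 2 - x.1 0)).im

theorem two_vectors {d1 d2 e1 e2 : ℂ} (h1 : ‖e1‖ = ‖d1‖) (h2 : ‖e2‖ = ‖d2‖)
    (h3 : ‖e1 - e2‖ = ‖d1 - d2‖) (h4 : (conj e1 * e2).im = (conj d1 * d2).im) (h0 : d1 ≠ 0) :
    e2 = e1 / d1 * d2 := by
  have n1 : Complex.normSq e1 = Complex.normSq d1 := by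
    rw [Complex.normSq_eq_norm_sq, Complex.normSq_eq_norm_sq, h1]
  have n2 : Complex.normSq e2 = Complex.normSq d2 := by
    rw [Complex.normSq_eq_norm_sq, Complex.normSq_eq_norm_sq, h2]
  have n3 : Complex.normSq (e1 - e2) = Complex.normSq (d1 - d2) := by
    rw [Complex.normSq_eq_norm_sq, Complex.normSq_eq_norm_sq, h3]
  have h5 : (conj e1 * e2).re = (conj d1 * d2).re := by
    simp only [Complex.normSq_apply, Complex.sub_re, Complex.sub_im] at n1 n2 n3
    simp only [Complex.mul_re, Complex.conj_re, Complex.conj_im]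
    linarith
  have h6 : conj e1 * e2 = conj d1 * d2 := Complex.ext h5 h4
  have h7 : conj d1 ≠ 0 := (map_ne_zero _).mpr h0
  have n1' : e1 * conj e1 = d1 * conj d1 := by
    rw [Complex.mul_conj, Complex.mul_conj, n1]
  have h8 : d1 * e2 = e1 * d2 := by
    apply mul_left_cancel₀ h7
    calc conj d1 * (d1 * e2) = (d1 * conj d1) * e2 := by ring
      _ = (e1 * conj e1) * e2 := by rw [n1']
      _ = e1 * (conj e1 * e2) := by ring
      _ = e1 * (conj d1 * d2) := by rw [h6]
      _ = conj d1 * (e1 * d2) := by ring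
  field_simp
  rw [mul_comm] at h8
  exact h8

theorem rot_of_area {m : Fin 3 → ℝ} (hm : ∀ a, 0 < m a) {x y : Ph} (hx : x ∈ frame m)
    (hy : y ∈ frame m) (hd : ∀ a b, ‖y.1 a - y.1 b‖ = ‖x.1 a - x.1 b‖)
    (ha : area y = area x) (a : Fin 3) :
    y.1 a = (y.1 1 - y.1 0) / (x.1 1 - x.1 0) * x.1 a := by
  set u := (y.1 1 - y.1 0) / (x.1 1 - x.1 0) with hu
  have h0 : x.1 1 - x.1 0 ≠ 0 := sub_ne_zero.mpr (hx.1 1 0 (by decide))
  have h2 : y.1 2 - y.1 0 = u * (x.1 2 - x.1 0) := by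
    apply two_vectors (hd 1 0) (hd 2 0) _ ha h0
    rw [sub_sub_sub_cancel_right, sub_sub_sub_cancel_right]
    exact hd 1 2
  have h1 : y.1 1 - y.1 0 = u * (x.1 1 - x.1 0) := by
    rw [hu]
    field_simp
  have hM : ((m 0 + m 1 + m 2 : ℝ) : ℂ) ≠ 0 := by
    have h1 := hm 0
    have h2 := hm 1
    have h3 := hm 2
    exact_mod_cast (by positivity : m 0 + m 1 + m 2 ≠ 0)
  have hsx := hx.2.1
  have hsy := hy.2.1
  simp only [Fin.sum_univ_three, Complex.real_smul] at hsx hsy
  have hz : y.1 0 - u * x.1 0 = 0 := by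
    apply mul_left_cancel₀ hM
    push_cast
    linear_combination hsy - u * hsx - (m 1 : ℂ) * h1 - (m 2 : ℂ) * h2
  fin_cases a
  · exact sub_eq_zero.mp hz
  · change y.1 1 = u * x.1 1
    linear_combination h1 + hz
  · change y.1 2 = u * x.1 2
    linear_combination h2 + hz

theorem ref_of_area {m : Fin 3 → ℝ} (hm : ∀ a, 0 < m a) {x y : Ph} (hx : x ∈ frame m)
    (hy : y ∈ frame m) (hd : ∀ a b, ‖y.1 a - y.1 b‖ = ‖x.1 a - x.1 b‖)
    (ha : area y = -area x) (a : Fin 3) :
    y.1 a = (y.1 1 - y.1 0) / conj (x.1 1 - x.1 0) * conj (x.1 a) := by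
  have hs : ∀ z : Fin 3 → ℂ, ∑ a, m a • z a = 0 → ∑ a, m a • conj (z a) = 0 := by
    intro z hz
    have : ∑ a, m a • conj (z a) = conj (∑ a, m a • z a) := by
      rw [map_sum]
      refine Finset.sum_congr rfl fun a _ => ?_
      rw [Complex.real_smul, Complex.real_smul, map_mul, Complex.conj_ofReal]
    rw [this, hz, map_zero]
  have hx' : ((fun a => conj (x.1 a), fun a => conj (x.2 a)) : Ph) ∈ frame m :=
    ⟨fun a b hab h => hx.1 a b hab (star_injective h), hs _ hx.2.1, hs _ hx.2.2⟩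
  have h := rot_of_area hm hx' hy (fun a b => by
    change ‖y.1 a - y.1 b‖ = ‖conj (x.1 a) - conj (x.1 b)‖
    rw [← map_sub, RCLike.norm_conj]
    exact hd a b) (by
    rw [ha, area, area]
    change -(conj (x.1 1 - x.1 0) * (x.1 2 - x.1 0)).im =
      (conj (conj (x.1 1) - conj (x.1 0)) * (conj (x.1 2) - conj (x.1 0))).im
    rw [← map_sub, ← map_sub, ← map_mul, Complex.conj_im]) a
  rw [map_sub]
  exact h

theorem inertia_pos {m : Fin 3 → ℝ} (hm : ∀ a, 0 < m a) {x : Ph} (hx : x ∈ frame m) :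
    0 < inertia m x := by
  have h0 : 0 ≤ inertia m x :=
    Finset.sum_nonneg fun a _ => mul_nonneg (hm a).le (Complex.normSq_nonneg _)
  rcases h0.lt_or_eq with h | h
  · exact h
  · exfalso
    rw [inertia, eq_comm, Finset.sum_eq_zero_iff_of_nonneg
      (fun a _ => mul_nonneg (hm a).le (Complex.normSq_nonneg _))] at h
    have h1 : ∀ a, x.1 a = 0 := fun a => by
      have := h a (Finset.mem_univ a)
      rcases mul_eq_zero.mp this with h2 | h2
      · exact absurd h2 (hm a).ne'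
      · exact Complex.normSq_eq_zero.mp h2
    exact hx.1 0 1 (by decide) (by rw [h1, h1])

theorem area_sq {x y : Ph} (hd : ∀ a b, ‖y.1 a - y.1 b‖ = ‖x.1 a - x.1 b‖) :
    area y ^ 2 = area x ^ 2 := by
  have n1 : Complex.normSq (y.1 1 - y.1 0) = Complex.normSq (x.1 1 - x.1 0) := by
    rw [Complex.normSq_eq_norm_sq, Complex.normSq_eq_norm_sq, hd]
  have n2 : Complex.normSq (y.1 2 - y.1 0) = Complex.normSq (x.1 2 - x.1 0) := by
    rw [Complex.normSq_eq_norm_sq, Complex.normSq_eq_norm_sq, hd]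
  have n3 : Complex.normSq (y.1 1 - y.1 2) = Complex.normSq (x.1 1 - x.1 2) := by
    rw [Complex.normSq_eq_norm_sq, Complex.normSq_eq_norm_sq, hd]
  have h5 : (conj (y.1 1 - y.1 0) * (y.1 2 - y.1 0)).re =
      (conj (x.1 1 - x.1 0) * (x.1 2 - x.1 0)).re := by
    simp only [Complex.normSq_apply, Complex.sub_re, Complex.sub_im] at n1 n2 n3
    simp only [Complex.mul_re, Complex.conj_re, Complex.conj_im, Complex.sub_re, Complex.sub_im]
    linarith
  have h6 : ∀ z : Ph, area z ^ 2 = Complex.normSq (z.1 1 - z.1 0) *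
      Complex.normSq (z.1 2 - z.1 0) - (conj (z.1 1 - z.1 0) * (z.1 2 - z.1 0)).re ^ 2 := by
    intro z
    have h7 := Complex.normSq_mul (conj (z.1 1 - z.1 0)) (z.1 2 - z.1 0)
    rw [Complex.normSq_conj, Complex.normSq_apply] at h7
    rw [← h7, area]
    ring
  rw [h6, h6, n1, n2, h5]

theorem amom_rot (m : Fin 3 → ℝ) {x y : Ph} {u u' : ℂ} (hu : ‖u‖ = 1)
    (h1 : ∀ a, y.1 a = u * x.1 a) (h2 : ∀ a, y.2 a = u' * x.1 a + u * x.2 a) :
    amom m y = inertia m x * (conj u * u').im + amom m x := by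
  have hn : u.re * u.re + u.im * u.im = 1 := by
    rw [← Complex.normSq_apply, Complex.normSq_eq_norm_sq, hu]
    norm_num
  rw [amom, amom, inertia, Finset.sum_mul, ← Finset.sum_add_distrib]
  refine Finset.sum_congr rfl fun a _ => ?_
  rw [h1, h2]
  simp only [Complex.mul_re, Complex.mul_im, Complex.add_re, Complex.add_im, Complex.conj_re,
    Complex.conj_im, Complex.normSq_apply]
  linear_combination (m a * ((x.1 a).re * (x.2 a).im - (x.1 a).im * (x.2 a).re)) * hn

end Pool.Agent.MP_5027f4_mp
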