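import Pool.Agent.Lib_MP_5027f4_mp.RelPer

open Set Filter Topology Metric
open scoped ComplexConjugate

namespace Pool.Agent.MP_5027f4_mp

variable {m : Fin 3 → ℝ} {x y : ℝ → Ph}

theorem re_conj_mul_deriv {u : ℝ → ℂ} {u' : ℂ} {t : ℝ} (h : HasDerivAt u u' t)
    (h1 : ∀ᶠ s in 𝓝 t, ‖u s‖ = 1) : (conj (u t) * u').re = 0 := by
  have h2 : HasDerivAt (fun s => ‖u s‖ ^ 2) (2 * (conj (u t) * u').re) t := by
    have := h.norm_sq
    refine this.congr_deriv ?_
    rw [inner_eq]
    simp [Complex.mul_re]
  have h3 : HasDerivAt (fun s => ‖u s‖ ^ 2) 0 t := by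
    refine (hasDerivAt_const t (1 : ℝ)).congr_of_eventuallyEq ?_
    filter_upwards [h1] with s hs
    rw [hs, one_pow]
  have := h2.unique h3
  linarith

/-- If the oriented areas agree near `t`, then the two solutions differ by a rotation. -/
theorem rot_case (hm : ∀ a, 0 < m a) (hx : Solves (fld m) (frame m) univ x)
    (hy : Solves (fld m) (frame m) univ y)
    (hd : ∀ t a b, ‖(y t).1 a - (y t).1 b‖ = ‖(x t).1 a - (x t).1 b‖)
    (hc : amom m (y 0) = amom m (x 0)) {t : ℝ} (ha : ∀ᶠ s in 𝓝 t, area (y s) = area (x s)) :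
    ∃ u : ℂ, ‖u‖ = 1 ∧ ∀ s, y s = u • x s := by
  have h0 : ∀ s, (x s).1 1 - (x s).1 0 ≠ 0 := fun s =>
    sub_ne_zero.mpr ((hx s (mem_univ s)).1.1 1 0 (by decide))
  set u : ℝ → ℂ := fun s => ((y s).1 1 - (y s).1 0) / ((x s).1 1 - (x s).1 0) with hu
  have hun : ∀ s, ‖u s‖ = 1 := by
    intro s
    rw [hu]
    simp only [norm_div, hd]
    exact div_self (norm_ne_zero_iff.mpr (h0 s))
  have hud : DifferentiableAt ℝ u t :=
    (((hy.hasDerivAt_fst t 1).sub (hy.hasDerivAt_fst t 0)).div
      ((hx.hasDerivAt_fst t 1).sub (hx.hasDerivAt_fst t 0)) (h0 t)).differentiableAt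
  obtain ⟨u', hu'⟩ : ∃ u', HasDerivAt u u' t := ⟨_, hud.hasDerivAt⟩
  have hrot : ∀ᶠ s in 𝓝 t, ∀ a, (y s).1 a = u s * (x s).1 a := by
    filter_upwards [ha] with s hs a
    exact rot_of_area hm (hx s (mem_univ s)).1 (hy s (mem_univ s)).1 (hd s) hs a
  have hv : ∀ a, (y t).2 a = u' * (x t).1 a + u t * (x t).2 a := by
    intro a
    have h1 : HasDerivAt (fun s => u s * (x s).1 a) (u' * (x t).1 a + u t * (x t).2 a) t :=
      hu'.mul (hx.hasDerivAt_fst t a)
    have h2 : HasDerivAt (fun s => u s * (x s).1 a) ((y t).2 a) t := by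
      refine (hy.hasDerivAt_fst t a).congr_of_eventuallyEq ?_
      filter_upwards [hrot] with s hs
      exact (hs a).symm
    exact h2.unique h1
  have hq : ∀ a, (y t).1 a = u t * (x t).1 a := hrot.self_of_nhds
  have h3 := amom_rot m (hun t) hq hv
  rw [amom_const hy t 0, amom_const hx t 0, hc] at h3
  have h4 : (conj (u t) * u').im = 0 := by
    have h5 : inertia m (x t) * (conj (u t) * u').im = 0 := by linarith
    exact (mul_eq_zero.mp h5).resolve_left (inertia_pos hm (hx t (mem_univ t)).1).ne'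
  have h5 : (conj (u t) * u').re = 0 :=
    re_conj_mul_deriv hu' (Filter.Eventually.of_forall hun)
  have h6 : conj (u t) * u' = 0 := Complex.ext h5 h4
  have h7 : conj (u t) ≠ 0 := by
    rw [Ne, map_eq_zero, ← norm_eq_zero, hun t]
    exact one_ne_zero
  have h8 : u' = 0 := (mul_eq_zero.mp h6).resolve_left h7
  have h9 : y t = u t • x t := by
    refine Prod.ext (funext fun a => ?_) (funext fun a => ?_)
    · exact hq a
    · rw [hv a, h8, zero_mul, zero_add]
      rfl
  have hyΩ : Solves (fld m) noColl univ y := fun t ht => ⟨(hy t ht).1.1, (hy t ht).2⟩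
  have hxΩ : Solves (fld m) noColl univ (fun s => u t • x s) := fun s hs =>
    ⟨((hx.rotate (hun t)) s hs).1.1, ((hx.rotate (hun t)) s hs).2⟩
  exact ⟨u t, hun t, fun s =>
    congrFun (hyΩ.eq_of_eq isOpen_noColl (contDiffOn_fld m) hxΩ (t₀ := t) h9) s⟩

theorem amom_conj (m : Fin 3 → ℝ) (z : Ph) :
    amom m (fun a => conj (z.1 a), fun a => conj (z.2 a)) = -amom m z := by
  rw [amom, amom, ← Finset.sum_neg_distrib]
  refine Finset.sum_congr rfl fun a _ => ?_
  simp only [Complex.mul_im, Complex.conj_re, Complex.conj_im]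
  ring

theorem inertia_conj (m : Fin 3 → ℝ) (z : Ph) :
    inertia m (fun a => conj (z.1 a), fun a => conj (z.2 a)) = inertia m z := by
  rw [inertia, inertia]
  refine Finset.sum_congr rfl fun a _ => ?_
  rw [Complex.normSq_conj]

/-- If the oriented areas are opposite at all times, then either the two solutions differ by a
fixed reflection, or all areas vanish. -/
theorem ref_case (hm : ∀ a, 0 < m a) (hx : Solves (fld m) (frame m) univ x)
    (hy : Solves (fld m) (frame m) univ y)
    (hd : ∀ t a b, ‖(y t).1 a - (y t).1 b‖ = ‖(x t).1 a - (x t).1 b‖)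
    {T : ℝ} (hT : ∀ s, y s = x (s + T)) (ha : ∀ s, area (y s) = -area (x s)) :
    (∃ w : ℂ, ‖w‖ = 1 ∧ ∀ s, (∀ a, (y s).1 a = w * conj ((x s).1 a)) ∧
      ∀ a, (y s).2 a = w * conj ((x s).2 a)) ∨ ∀ s, area (x s) = 0 := by
  have hc : amom m (y 0) = amom m (x 0) := by
    rw [hT]
    exact amom_const hx _ _
  have h0 : ∀ s, (x s).1 1 - (x s).1 0 ≠ 0 := fun s =>
    sub_ne_zero.mpr ((hx s (mem_univ s)).1.1 1 0 (by decide))
  have h0' : ∀ s, conj ((x s).1 1 - (x s).1 0) ≠ 0 := fun s => (map_ne_zero _).mpr (h0 s)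
  set w : ℝ → ℂ := fun s => ((y s).1 1 - (y s).1 0) / conj ((x s).1 1 - (x s).1 0) with hw
  have hwn : ∀ s, ‖w s‖ = 1 := by
    intro s
    rw [hw]
    simp only [norm_div, hd, RCLike.norm_conj]
    exact div_self (norm_ne_zero_iff.mpr (h0 s))
  set w1 : ℝ → ℂ := fun s => (((y s).2 1 - (y s).2 0) * conj ((x s).1 1 - (x s).1 0) -
    ((y s).1 1 - (y s).1 0) * conj ((x s).2 1 - (x s).2 0)) /
    conj ((x s).1 1 - (x s).1 0) ^ 2 with hw1
  have hwd : ∀ s, HasDerivAt w (w1 s) s := fun s =>
    ((hy.hasDerivAt_fst s 1).sub (hy.hasDerivAt_fst s 0)).div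
      (hasDerivAt_conj ((hx.hasDerivAt_fst s 1).sub (hx.hasDerivAt_fst s 0))) (h0' s)
  have hw1d : ∀ s, ∃ w2, HasDerivAt w1 w2 s := fun s =>
    ⟨_, ((((hy.hasDerivAt_snd s 1).sub (hy.hasDerivAt_snd s 0)).mul
      (hasDerivAt_conj ((hx.hasDerivAt_fst s 1).sub (hx.hasDerivAt_fst s 0)))).sub
      (((hy.hasDerivAt_fst s 1).sub (hy.hasDerivAt_fst s 0)).mul
      (hasDerivAt_conj ((hx.hasDerivAt_snd s 1).sub (hx.hasDerivAt_snd s 0))))).div
      ((hasDerivAt_conj ((hx.hasDerivAt_fst s 1).sub (hx.hasDerivAt_fst s 0))).pow 2)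
      (pow_ne_zero 2 (h0' s))⟩
  have hq : ∀ s a, (y s).1 a = w s * conj ((x s).1 a) := fun s a =>
    ref_of_area hm (hx s (mem_univ s)).1 (hy s (mem_univ s)).1 (hd s) (ha s) a
  have hv : ∀ s a, (y s).2 a = w1 s * conj ((x s).1 a) + w s * conj ((x s).2 a) := by
    intro s a
    have h1 : HasDerivAt (fun s => w s * conj ((x s).1 a))
        (w1 s * conj ((x s).1 a) + w s * conj ((x s).2 a)) s :=
      (hwd s).mul (hasDerivAt_conj (hx.hasDerivAt_fst s a))
    have h2 : HasDerivAt (fun s => w s * conj ((x s).1 a)) ((y s).2 a) s := by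
      have : (fun s => w s * conj ((x s).1 a)) = fun s => (y s).1 a := by
        funext s
        exact (hq s a).symm
      rw [this]
      exact hy.hasDerivAt_fst s a
    exact h2.unique h1
  have hang : ∀ s, inertia m (x s) * (conj (w s) * w1 s).im = 2 * amom m (x 0) := by
    intro s
    have h3 := amom_rot m (x := (fun a => conj ((x s).1 a), fun a => conj ((x s).2 a))) (hwn s)
      (hq s) (hv s)
    rw [amom_conj, inertia_conj, amom_const hy s 0, amom_const hx s 0, hc] at h3
    linarith
  have hre : ∀ s, (conj (w s) * w1 s).re = 0 := fun s =>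
    re_conj_mul_deriv (hwd s) (Filter.Eventually.of_forall hwn)
  have hcw : ∀ s, conj (w s) ≠ 0 := fun s => by
    rw [Ne, map_eq_zero, ← norm_eq_zero, hwn s]
    exact one_ne_zero
  by_cases hc0 : amom m (x 0) = 0
  · left
    have hw10 : ∀ s, w1 s = 0 := by
      intro s
      have h4 : (conj (w s) * w1 s).im = 0 := by
        have h5 := hang s
        rw [hc0, mul_zero] at h5
        exact (mul_eq_zero.mp h5).resolve_left (inertia_pos hm (hx s (mem_univ s)).1).ne'
      have h6 : conj (w s) * w1 s = 0 := Complex.ext (hre s) h4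
      exact (mul_eq_zero.mp h6).resolve_left (hcw s)
    have hconst : ∀ s, w s = w 0 := fun s =>
      is_const_of_deriv_eq_zero (𝕜 := ℝ) (fun s => (hwd s).differentiableAt)
        (fun s => by rw [(hwd s).deriv, hw10 s]) s 0
    refine ⟨w 0, hwn 0, fun s => ⟨fun a => ?_, fun a => ?_⟩⟩
    · rw [hq s a, hconst s]
    · rw [hv s a, hw10 s, hconst s, zero_mul, zero_add]
  · right
    have hw1n : ∀ s, w1 s ≠ 0 := by
      intro s h
      have h5 := hang s
      rw [h, mul_zero, Complex.zero_im, mul_zero] at h5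
      apply hc0
      linarith
    -- every body moves homothetically
    have hhom : ∀ s, ∃ μ : ℂ, ∀ a, (x s).2 a = μ * (x s).1 a := by
      intro s
      obtain ⟨w2, hw2⟩ := hw1d s
      refine ⟨conj (-w2 / (2 * w1 s)), fun a => ?_⟩
      have h1 : HasDerivAt (fun s => w1 s * conj ((x s).1 a) + w s * conj ((x s).2 a))
          ((w2 * conj ((x s).1 a) + w1 s * conj ((x s).2 a)) +
            (w1 s * conj ((x s).2 a) + w s * conj (acc m (x s).1 a))) s :=
        (hw2.mul (hasDerivAt_conj (hx.hasDerivAt_fst s a))).add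
          ((hwd s).mul (hasDerivAt_conj (hx.hasDerivAt_snd s a)))
      have h2 : HasDerivAt (fun s => w1 s * conj ((x s).1 a) + w s * conj ((x s).2 a))
          (acc m (y s).1 a) s := by
        have : (fun s => w1 s * conj ((x s).1 a) + w s * conj ((x s).2 a)) =
            fun s => (y s).2 a := by
          funext s
          exact (hv s a).symm
        rw [this]
        exact hy.hasDerivAt_snd s a
      have h3 := h2.unique h1
      have h4 : acc m (y s).1 a = w s * conj (acc m (x s).1 a) := by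
        have : (y s).1 = fun a => w s * conj ((x s).1 a) := funext (hq s)
        rw [this, acc_smul m (hwn s), acc_conj]
      rw [h4] at h3
      have h5 : conj ((x s).2 a) = -w2 / (2 * w1 s) * conj ((x s).1 a) := by
        have := hw1n s
        field_simp
        linear_combination -h3
      have h6 := congrArg conj h5
      rw [map_mul, Complex.conj_conj, Complex.conj_conj] at h6
      exact h6
    -- the shape is constant
    set sh : ℝ → ℂ := fun s => ((x s).1 2 - (x s).1 0) / ((x s).1 1 - (x s).1 0) with hsh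
    have hshd : ∀ s, HasDerivAt sh 0 s := by
      intro s
      have h1 := ((hx.hasDerivAt_fst s 2).sub (hx.hasDerivAt_fst s 0)).div
        ((hx.hasDerivAt_fst s 1).sub (hx.hasDerivAt_fst s 0)) (h0 s)
      refine h1.congr_deriv ?_
      obtain ⟨μ, hμ⟩ := hhom s
      simp only [hμ, Pi.sub_apply]
      rw [div_eq_zero_iff]
      left
      ring
    have hsc : ∀ s, sh s = sh 0 := fun s =>
      is_const_of_deriv_eq_zero (𝕜 := ℝ) (fun s => (hshd s).differentiableAt)
        (fun s => (hshd s).deriv) s 0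
    have harea : ∀ s, area (x s) = Complex.normSq ((x s).1 1 - (x s).1 0) * (sh 0).im := by
      intro s
      rw [← hsc s, area, hsh]
      have : (x s).1 2 - (x s).1 0 = ((x s).1 1 - (x s).1 0) *
          (((x s).1 2 - (x s).1 0) / ((x s).1 1 - (x s).1 0)) := by
        have := h0 s
        field_simp
      conv_lhs => rw [this]
      rw [← mul_assoc, ← Complex.normSq_eq_conj_mul_self, Complex.im_ofReal_mul]
    intro s
    have h1 := harea (s + T)
    rw [← hT s, Complex.normSq_eq_norm_sq, hd s 1 0, ← Complex.normSq_eq_norm_sq, ← harea s,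
      ha s] at h1
    linarith

/-- **The structure of relative periodic motions**: if all mutual distances are `T`-periodic, then
the motion over the time `2 T` is a fixed rotation. -/
theorem exists_rotation (hm : ∀ a, 0 < m a) (hx : Solves (fld m) (frame m) univ x) {T : ℝ}
    (hd : DistPeriodic x T) : ∃ u : ℂ, ‖u‖ = 1 ∧ ∀ t, x (t + 2 * T) = u • x t := by
  have hyT : ∀ s, (fun t => x (T + t)) s = x (s + T) := fun s => by
    rw [add_comm]
  have hy : Solves (fld m) (frame m) univ (fun t => x (T + t)) := hx.shift T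
  have hd' : ∀ t a b, ‖((fun t => x (T + t)) t).1 a - ((fun t => x (T + t)) t).1 b‖ =
      ‖(x t).1 a - (x t).1 b‖ := fun t a b => by
    rw [hyT]
    exact hd a b t
  have hc : amom m ((fun t => x (T + t)) 0) = amom m (x 0) := amom_const hx _ _
  by_cases hA : ∃ t, ∀ᶠ s in 𝓝 t, area (x (T + s)) = area (x s)
  · obtain ⟨t, ht⟩ := hA
    obtain ⟨u, hu, hux⟩ := rot_case hm hx hy hd' hc ht
    refine ⟨u * u, by rw [norm_mul, hu, mul_one], fun s => ?_⟩
    have h1 : x (T + (s + T)) = u • x (s + T) := hux (s + T)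
    have h2 : x (T + s) = u • x s := hux s
    have e : T + (s + T) = s + 2 * T := by ring
    rw [mul_smul, ← h2, add_comm T s, ← h1, e]
  · have hneg : ∀ s, area (x (T + s)) = -area (x s) := by
      have hxc : Continuous x := solution_continuous hx
      have harea : Continuous area := by
        unfold area
        fun_prop
      have hclosed : IsClosed {s | area (x (T + s)) = -area (x s)} :=
        isClosed_eq (by fun_prop) (by fun_prop)
      intro t
      have h1 : ∃ᶠ s in 𝓝 t, area (x (T + s)) = -area (x s) := by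
        have h2 : ∃ᶠ s in 𝓝 t, ¬ (area (x (T + s)) = area (x s)) := by
          intro h3
          apply hA
          exact ⟨t, by simpa using h3⟩
        refine h2.mono fun s hs => ?_
        have h4 : area (x (T + s)) ^ 2 = area (x s) ^ 2 := area_sq (hd' s)
        rcases sq_eq_sq_iff_eq_or_eq_neg.mp h4 with h5 | h5
        · exact absurd h5 hs
        · exact h5
      exact hclosed.mem_of_frequently_of_tendsto h1 tendsto_id
    rcases ref_case hm hx hy hd' hyT hneg with ⟨w, hw, hwx⟩ | h0
    · refine ⟨1, norm_one, fun t => ?_⟩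
      have hww : w * conj w = 1 := by
        rw [Complex.mul_conj, Complex.normSq_eq_norm_sq, hw]
        norm_num
      have e : T + (T + t) = t + 2 * T := by ring
      obtain ⟨h1, h2⟩ := hwx (T + t)
      obtain ⟨h3, h4⟩ := hwx t
      simp only [e] at h1 h2 h3 h4
      rw [one_smul]
      refine Prod.ext (funext fun a => ?_) (funext fun a => ?_)
      · rw [h1 a, h3 a, map_mul, Complex.conj_conj, ← mul_assoc, hww, one_mul]
      · rw [h2 a, h4 a, map_mul, Complex.conj_conj, ← mul_assoc, hww, one_mul]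
    · exfalso
      apply hA
      refine ⟨0, Filter.Eventually.of_forall fun s => ?_⟩
      rw [hneg, h0, neg_zero]

end Pool.Agent.MP_5027f4_mp
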