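import Pool.Agent.Lib_MP_5027f4_mp.Nondeg

/-!
# A bounded Lyapunov stable orbit of the planar three-body problem is periodic
-/

open Set

namespace Pool.Agent.MP_5027f4_mp.StablePeriodicOld

open Pool.Agent.MP_5027f4_mp

/-- For all positive masses: if a solution of the planar three-body problem in the center-of-mass
frame is relative periodic (every mutual distance is a periodic function, possibly with different
periods), or more generally has mutual distances bounded and bounded away from zero, and if its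
orbit is Lyapunov stable, then the solution is periodic. -/
theorem result (m : Fin 3 → ℝ) (hm : ∀ a, 0 < m a) (x : ℝ → (Fin 3 → ℂ) × (Fin 3 → ℂ))
    (hx : IsSolution m univ x)
    (hrel : (∀ a b, ∃ T > 0, ∀ t, ‖(x (t + T)).1 a - (x (t + T)).1 b‖ =
        ‖(x t).1 a - (x t).1 b‖) ∨
      ∃ r > 0, ∃ R : ℝ, (∀ t a b, a ≠ b → r ≤ ‖(x t).1 a - (x t).1 b‖) ∧
        ∀ t a b, ‖(x t).1 a - (x t).1 b‖ ≤ R)
    (hst : LyapunovStable m (range x)) : ∃ T > 0, ∀ t, x (t + T) = x t := by
  obtain ⟨r, hr, R, hxr, hxR⟩ : ∃ r > 0, ∃ R : ℝ,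
      (∀ t a b, a ≠ b → r ≤ ‖(x t).1 a - (x t).1 b‖) ∧
        ∀ t a b, ‖(x t).1 a - (x t).1 b‖ ≤ R := by
    rcases hrel with h | h
    · exact bounds_of_periodic hx h
    · exact h
  exact periodic_of_lyapunovStable hm hx hr hxr hxR hst

end Pool.Agent.MP_5027f4_mp.StablePeriodicOld
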